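import Pool.Agent.Work.MP_9d4f6b_lc.Poly

/-!
MODULE SEP: effective root separation.
root_lower: if |θ| ≥ 1 then L1 P ≥ 1 is enough; else let k be the least index with c_k ≠ 0
(Polynomial.natTrailingDegree): 0 = θ^(-k) P(θ) gives 1 ≤ |c_k| = |sum over j > k of c_j θ^(j-k)|
≤ |θ| L1 P.
sep: let a, b be the leading coefficients and d1, d2 the degrees of f, g (both at least 1, since f, g
are nonzero and have a root), I = Fin d1 × Fin d2, v (i, j) = α^i β^j (v ≠ 0 because v (0, 0) = 1).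
Integral matrix N1: for i + 1 < d1 row (i, j) is a times the unit vector (i + 1, j), for i + 1 = d1 row
(i, j) has entry - f.coeff i' in column (i', j) for all i' < d1, other entries 0. So N1 v = (a α) v;
in the same way N2 v = (b β) v. N = b N1 - a N2 has entries of absolute value at most 2 H^2 and
N v = θ v with θ = a b (α - β) ≠ 0. So θ is a root of the characteristic polynomial P of N
(Matrix.charpoly: monic with integral coefficients, det (θ 1 - N) = 0 as v ≠ 0:
Matrix.exists_mulVec_eq_zero_iff), which is the determinant of charmatrix N with entries X - N i i or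
- N i j, of L1 norm at most 2 H^2 + 1. By BP.det L1 P ≤ detB (2 H^2 + 1) (d1 d2) ≤
detB (2 H^2 + 1) (D^2), and 1 ≤ |θ| L1 P ≤ H^2 |α - β| L1 P.
-/

set_option linter.unusedVariables false
set_option linter.style.longLine false

namespace Pool.Agent.Work.MP_9d4f6b_lc

open Polynomial

private theorem sep_range (f : ℤ[X]) (N : ℕ) (h : f.natDegree < N) :
    L1 f = ∑ i ∈ Finset.range N, (f.coeff i).natAbs := by
  unfold L1
  apply Finset.sum_subset
  · intro i hi
    rw [Finset.mem_range] at hi ⊢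
    omega
  · intro i _ hi
    rw [Finset.mem_range] at hi
    rw [coeff_eq_zero_of_natDegree_lt (by omega)]
    rfl

private theorem sep_one_le (P : ℤ[X]) (hP : P ≠ 0) : 1 ≤ L1 P := by
  have h1 : (P.coeff P.natDegree).natAbs ≤ L1 P := coeff_le_L1 P _
  have h2 : P.coeff P.natDegree ≠ 0 := leadingCoeff_ne_zero.2 hP
  omega

private theorem root_lower_aux (θ : ℝ) (h0 : θ ≠ 0) (h1 : |θ| < 1) : ∀ (n : ℕ) (P : ℤ[X]),
    P.natDegree ≤ n → P ≠ 0 → aeval θ P = 0 → 1 ≤ |θ| * L1 P := by
  intro n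
  induction n with
  | zero =>
    intro P hn hP h
    exfalso
    obtain ⟨c, hc⟩ : ∃ c, P = C c := ⟨_, eq_C_of_natDegree_eq_zero (by omega)⟩
    subst hc
    rw [aeval_C] at h
    have h2 : (c : ℝ) = 0 := by simpa using h
    have h3 : c = 0 := by exact_mod_cast h2
    apply hP
    rw [h3, map_zero]
  | succ n ih =>
    intro P hn hP h
    by_cases hc : P.coeff 0 = 0
    · have e1 : P = X * P.divX := by
        have := divX_mul_X_add P
        rw [hc, map_zero, add_zero] at this
        rw [mul_comm]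
        exact this.symm
      have h2 : P.divX ≠ 0 := by
        intro h2
        rw [h2, mul_zero] at e1
        exact hP e1
      have h3 : aeval θ P.divX = 0 := by
        rw [e1, map_mul, aeval_X] at h
        exact (mul_eq_zero.1 h).resolve_left h0
      have h4 : P.natDegree = P.divX.natDegree + 1 := by
        conv_lhs => rw [e1]
        rw [natDegree_X_mul h2]
      have h5 := ih P.divX (by omega) h2 h3
      have h6 : L1 P.divX ≤ L1 P := by
        rw [sep_range P (P.divX.natDegree + 1 + 1) (by omega), Finset.sum_range_succ', L1]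
        simp only [coeff_divX]
        omega
      have h7 : (L1 P.divX : ℝ) ≤ L1 P := by exact_mod_cast h6
      have h8 := abs_nonneg θ
      nlinarith
    · have e1 : aeval θ P = (P.coeff 0 : ℝ) +
          θ * ∑ i ∈ Finset.range P.natDegree, (P.coeff (i + 1) : ℝ) * θ ^ i := by
        rw [aeval_eq_sum_range, Finset.sum_range_succ', Finset.mul_sum, add_comm]
        congr 1
        · simp
        · refine Finset.sum_congr rfl fun i _ => ?_
          rw [zsmul_eq_mul, pow_succ]
          ring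
      rw [h] at e1
      have e2 : (1 : ℝ) ≤ |(P.coeff 0 : ℝ)| := by
        have : (1 : ℤ) ≤ |P.coeff 0| := Int.one_le_abs hc
        exact_mod_cast this
      have e3 : |(P.coeff 0 : ℝ)| =
          |θ| * |∑ i ∈ Finset.range P.natDegree, (P.coeff (i + 1) : ℝ) * θ ^ i| := by
        rw [← abs_mul, ← abs_neg (P.coeff 0 : ℝ)]
        congr 1
        linarith
      have e4 : |∑ i ∈ Finset.range P.natDegree, (P.coeff (i + 1) : ℝ) * θ ^ i| ≤ L1 P := by
        calc |∑ i ∈ Finset.range P.natDegree, (P.coeff (i + 1) : ℝ) * θ ^ i| ≤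
              ∑ i ∈ Finset.range P.natDegree, |(P.coeff (i + 1) : ℝ) * θ ^ i| :=
            Finset.abs_sum_le_sum_abs _ _
          _ ≤ ∑ i ∈ Finset.range P.natDegree, |(P.coeff (i + 1) : ℝ)| := by
            refine Finset.sum_le_sum fun i _ => ?_
            rw [abs_mul, abs_pow]
            exact mul_le_of_le_one_right (abs_nonneg _) (pow_le_one₀ (abs_nonneg _) h1.le)
          _ = ((∑ i ∈ Finset.range P.natDegree, (P.coeff (i + 1)).natAbs : ℕ) : ℝ) := by
            push_cast
            refine Finset.sum_congr rfl fun i _ => ?_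
            rw [Nat.cast_natAbs]
            push_cast
            rfl
          _ ≤ L1 P := by
            have : ∑ i ∈ Finset.range P.natDegree, (P.coeff (i + 1)).natAbs ≤ L1 P := by
              rw [L1, Finset.sum_range_succ']
              omega
            exact_mod_cast this
      calc (1 : ℝ) ≤ |(P.coeff 0 : ℝ)| := e2
        _ = _ := e3
        _ ≤ |θ| * L1 P := mul_le_mul_of_nonneg_left e4 (abs_nonneg _)

theorem root_lower (P : ℤ[X]) (hP : P ≠ 0) (θ : ℝ) (h0 : θ ≠ 0) (h : aeval θ P = 0) :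
    1 ≤ |θ| * L1 P := by
  rcases lt_or_ge |θ| 1 with h1 | h1
  · exact root_lower_aux θ h0 h1 P.natDegree P le_rfl hP h
  · have h2 : (1 : ℝ) ≤ L1 P := by exact_mod_cast sep_one_le P hP
    nlinarith

private theorem sep_deg (f : ℤ[X]) (hf : f ≠ 0) (α : ℝ) (h : aeval α f = 0) :
    1 ≤ f.natDegree := by
  by_contra hn
  obtain ⟨c, hc⟩ : ∃ c, f = C c := ⟨_, eq_C_of_natDegree_eq_zero (by omega)⟩
  subst hc
  rw [aeval_C] at h
  have h2 : (c : ℝ) = 0 := by simpa using h
  have h3 : c = 0 := by exact_mod_cast h2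
  apply hf
  rw [h3, map_zero]

/-- one dimensional companion relation -/
private def cmp (f : ℤ[X]) (i j : ℕ) : ℤ :=
  if i + 1 = f.natDegree then -f.coeff j else if j = i + 1 then f.leadingCoeff else 0

private theorem cmp_sum (f : ℤ[X]) (α : ℝ) (h : aeval α f = 0) (i : Fin f.natDegree) :
    ∑ j : Fin f.natDegree, (cmp f i j : ℝ) * α ^ (j : ℕ) =
      (f.leadingCoeff : ℝ) * α * α ^ (i : ℕ) := by
  by_cases hi : (i : ℕ) + 1 = f.natDegree
  · have e1 : ∀ j : Fin f.natDegree, (cmp f i j : ℝ) * α ^ (j : ℕ) =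
        -((f.coeff j : ℝ) * α ^ (j : ℕ)) := by
      intro j
      unfold cmp
      rw [if_pos hi]
      push_cast
      ring
    rw [Finset.sum_congr rfl fun j _ => e1 j, Finset.sum_neg_distrib,
      Fin.sum_univ_eq_sum_range (fun j => (f.coeff j : ℝ) * α ^ j) f.natDegree]
    have e2 := h
    rw [aeval_eq_sum_range, Finset.sum_range_succ] at e2
    simp only [zsmul_eq_mul] at e2
    have e3 : α ^ f.natDegree = α * α ^ (i : ℕ) :=
      calc α ^ f.natDegree = α ^ ((i : ℕ) + 1) := congrArg _ hi.symm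
        _ = α * α ^ (i : ℕ) := by rw [pow_succ]; ring
    rw [e3, coeff_natDegree] at e2
    linarith
  · have hlt : (i : ℕ) + 1 < f.natDegree := by
      have := i.2
      omega
    rw [Finset.sum_eq_single (⟨(i : ℕ) + 1, hlt⟩ : Fin f.natDegree)]
    · unfold cmp
      rw [if_neg hi, if_pos rfl]
      simp only [pow_succ]
      ring
    · intro j _ hj
      unfold cmp
      rw [if_neg hi, if_neg]
      · simp
      · intro h
        exact hj (Fin.ext h)
    · intro h
      exact absurd (Finset.mem_univ _) h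

private theorem cmp_abs (f : ℤ[X]) (H : ℕ) (h : L1 f ≤ H) (i j : ℕ) : |cmp f i j| ≤ H := by
  have h1 : ∀ k, |f.coeff k| ≤ H := by
    intro k
    have := coeff_le_L1 f k
    rw [Int.abs_eq_natAbs]
    exact_mod_cast this.trans h
  unfold cmp
  split_ifs
  · rw [abs_neg]
    exact h1 _
  · exact h1 _
  · simp

private theorem sep_eig {I : Type} [Fintype I] [DecidableEq I] (N : Matrix I I ℤ) (v : I → ℝ)
    (hv : v ≠ 0) (θ : ℝ) (h : ∀ r, ∑ c, (N r c : ℝ) * v c = θ * v r) :
    aeval θ N.charpoly = 0 := by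
  have e1 : aeval θ N.charpoly = (N.map (Int.castRingHom ℝ)).charpoly.eval θ := by
    rw [Matrix.charpoly_map, eval_map, aeval_def]
    rfl
  rw [e1, Matrix.eval_charpoly]
  apply Matrix.exists_mulVec_eq_zero_iff.1
  refine ⟨v, hv, ?_⟩
  funext r
  rw [Matrix.sub_mulVec, Pi.sub_apply]
  have e2 : (Matrix.mulVec (Matrix.scalar I θ) v) r = θ * v r := by
    simp [Matrix.scalar_apply, Matrix.mulVec_diagonal]
  have e3 : (Matrix.mulVec (N.map (Int.castRingHom ℝ)) v) r = ∑ c, (N r c : ℝ) * v c := rfl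
  rw [e2, e3, h, sub_self]
  rfl

private theorem sep_L1 {I : Type} [Fintype I] [DecidableEq I] (N : Matrix I I ℤ) (H : ℕ)
    (h : ∀ r c, |N r c| ≤ (H : ℤ)) : L1 N.charpoly ≤ detB (H + 1) (Fintype.card I) := by
  have hb1 : ∀ r c, BP 1 (H + 1) (N.charmatrix r c) := by
    intro r c
    have e1 : BP 1 H (C (N r c)) := by
      refine ⟨by simp, ?_⟩
      rw [L1_C]
      have := h r c
      rw [Int.abs_eq_natAbs] at this
      exact_mod_cast this
    rw [Matrix.charmatrix_apply]
    have e2 : BP 1 1 ((Matrix.diagonal fun _ : I => (X : ℤ[X])) r c) := by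
      rw [Matrix.diagonal_apply]
      split_ifs
      · exact ⟨natDegree_X_le, by rw [L1_X]⟩
      · exact ⟨by simp, by rw [L1_zero]; omega⟩
    have e3 := e2.sub e1
    rw [add_comm] at e3
    exact e3
  exact (BP.det hb1).2

private theorem sep_lc (f : ℤ[X]) (H : ℕ) (h : L1 f ≤ H) : |f.leadingCoeff| ≤ (H : ℤ) := by
  have := coeff_le_L1 f f.natDegree
  rw [Int.abs_eq_natAbs]
  exact_mod_cast this.trans h

private def nn1 (f g : ℤ[X]) (r c : Fin f.natDegree × Fin g.natDegree) : ℤ :=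
  if c.2 = r.2 then cmp f r.1 c.1 else 0

private def nn2 (f g : ℤ[X]) (r c : Fin f.natDegree × Fin g.natDegree) : ℤ :=
  if c.1 = r.1 then cmp g r.2 c.2 else 0

private theorem nn1_sum (f g : ℤ[X]) (α β : ℝ) (h : aeval α f = 0)
    (r : Fin f.natDegree × Fin g.natDegree) :
    ∑ c, (nn1 f g r c : ℝ) * (α ^ (c.1 : ℕ) * β ^ (c.2 : ℕ)) =
      f.leadingCoeff * α * (α ^ (r.1 : ℕ) * β ^ (r.2 : ℕ)) := by
  rw [Fintype.sum_prod_type]
  have e1 : ∀ x : Fin f.natDegree, ∑ y : Fin g.natDegree, (nn1 f g r (x, y) : ℝ) *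
      (α ^ (x : ℕ) * β ^ (y : ℕ)) = ((cmp f r.1 x : ℝ) * α ^ (x : ℕ)) * β ^ (r.2 : ℕ) := by
    intro x
    rw [Finset.sum_eq_single r.2]
    · simp only [nn1, if_pos]
      ring
    · intro y _ hy
      simp only [nn1]
      rw [if_neg hy]
      simp
    · intro h
      exact absurd (Finset.mem_univ _) h
  rw [Finset.sum_congr rfl fun x _ => e1 x, ← Finset.sum_mul, cmp_sum f α h r.1]
  ring

private theorem nn2_sum (f g : ℤ[X]) (α β : ℝ) (h : aeval β g = 0)
    (r : Fin f.natDegree × Fin g.natDegree) :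
    ∑ c, (nn2 f g r c : ℝ) * (α ^ (c.1 : ℕ) * β ^ (c.2 : ℕ)) =
      g.leadingCoeff * β * (α ^ (r.1 : ℕ) * β ^ (r.2 : ℕ)) := by
  rw [Fintype.sum_prod_type, Finset.sum_comm]
  have e1 : ∀ y : Fin g.natDegree, ∑ x : Fin f.natDegree, (nn2 f g r (x, y) : ℝ) *
      (α ^ (x : ℕ) * β ^ (y : ℕ)) = ((cmp g r.2 y : ℝ) * β ^ (y : ℕ)) * α ^ (r.1 : ℕ) := by
    intro y
    rw [Finset.sum_eq_single r.1]
    · simp only [nn2, if_pos]
      ring
    · intro x _ hx
      simp only [nn2]
      rw [if_neg hx]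
      simp
    · intro h
      exact absurd (Finset.mem_univ _) h
  rw [Finset.sum_congr rfl fun y _ => e1 y, ← Finset.sum_mul, cmp_sum g β h r.2]
  ring

theorem sep (D H : ℕ) (f g : ℤ[X]) (hf0 : f ≠ 0) (hg0 : g ≠ 0) (hf : BP D H f) (hg : BP D H g)
    (α β : ℝ) (hα : aeval α f = 0) (hβ : aeval β g = 0) (h : α ≠ β) :
    1 ≤ |α - β| * sepB D H := by
  classical
  have d1 := sep_deg f hf0 α hα
  have d2 := sep_deg g hg0 β hβ
  let N : Matrix (Fin f.natDegree × Fin g.natDegree) (Fin f.natDegree × Fin g.natDegree) ℤ :=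
    Matrix.of fun r c => g.leadingCoeff * nn1 f g r c - f.leadingCoeff * nn2 f g r c
  have hNd : ∀ r c, N r c = g.leadingCoeff * nn1 f g r c - f.leadingCoeff * nn2 f g r c :=
    fun r c => rfl
  have ha0 : (f.leadingCoeff : ℝ) ≠ 0 := by
    exact_mod_cast leadingCoeff_ne_zero.2 hf0
  have hb0 : (g.leadingCoeff : ℝ) ≠ 0 := by
    exact_mod_cast leadingCoeff_ne_zero.2 hg0
  have hθ0 : (f.leadingCoeff : ℝ) * g.leadingCoeff * (α - β) ≠ 0 :=
    mul_ne_zero (mul_ne_zero ha0 hb0) (sub_ne_zero.2 h)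
  have hN : ∀ r, ∑ c, (N r c : ℝ) * (α ^ (c.1 : ℕ) * β ^ (c.2 : ℕ)) =
      (f.leadingCoeff : ℝ) * g.leadingCoeff * (α - β) * (α ^ (r.1 : ℕ) * β ^ (r.2 : ℕ)) := by
    intro r
    have e1 : ∀ c : Fin f.natDegree × Fin g.natDegree,
        (N r c : ℝ) * (α ^ (c.1 : ℕ) * β ^ (c.2 : ℕ)) =
        g.leadingCoeff * ((nn1 f g r c : ℝ) * (α ^ (c.1 : ℕ) * β ^ (c.2 : ℕ))) -
        f.leadingCoeff * ((nn2 f g r c : ℝ) * (α ^ (c.1 : ℕ) * β ^ (c.2 : ℕ))) := by
      intro c
      rw [hNd]
      push_cast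
      ring
    rw [Finset.sum_congr rfl fun c _ => e1 c, Finset.sum_sub_distrib, ← Finset.mul_sum,
      ← Finset.mul_sum, nn1_sum f g α β hα, nn2_sum f g α β hβ]
    ring
  have hroot := sep_eig N (fun c => α ^ (c.1 : ℕ) * β ^ (c.2 : ℕ)) (by
    intro hv
    have := congrFun hv (⟨0, by omega⟩, ⟨0, by omega⟩)
    simp at this) _ hN
  have hL := root_lower N.charpoly (Matrix.charpoly_monic N).ne_zero _ hθ0 hroot
  have hfa := sep_lc f H hf.2
  have hga := sep_lc g H hg.2
  have hNabs : ∀ r c, |N r c| ≤ ((2 * H ^ 2 : ℕ) : ℤ) := by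
    intro r c
    have h1 : |nn1 f g r c| ≤ (H : ℤ) := by
      unfold nn1
      split_ifs
      · exact cmp_abs f H hf.2 _ _
      · simp
    have h2 : |nn2 f g r c| ≤ (H : ℤ) := by
      unfold nn2
      split_ifs
      · exact cmp_abs g H hg.2 _ _
      · simp
    rw [hNd]
    calc |g.leadingCoeff * nn1 f g r c - f.leadingCoeff * nn2 f g r c| ≤
          |g.leadingCoeff * nn1 f g r c| + |f.leadingCoeff * nn2 f g r c| := abs_sub _ _
      _ ≤ (H : ℤ) * H + H * H := by
        rw [abs_mul, abs_mul]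
        exact add_le_add (mul_le_mul hga h1 (abs_nonneg _) (by positivity))
          (mul_le_mul hfa h2 (abs_nonneg _) (by positivity))
      _ = ((2 * H ^ 2 : ℕ) : ℤ) := by push_cast; ring
  have hL1 : L1 N.charpoly ≤ detB (2 * H ^ 2 + 1) (D ^ 2) := by
    have e4 := sep_L1 N (2 * H ^ 2) hNabs
    rw [Fintype.card_prod, Fintype.card_fin, Fintype.card_fin] at e4
    refine e4.trans (detB_mono (by omega) le_rfl ?_ (Nat.mul_pos d1 d2))
    rw [sq]
    exact Nat.mul_le_mul hf.1 hg.1
  have hab : |(f.leadingCoeff : ℝ) * g.leadingCoeff| ≤ (H : ℝ) ^ 2 := by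
    rw [abs_mul, sq]
    have h1 : |(f.leadingCoeff : ℝ)| ≤ (H : ℝ) := by exact_mod_cast hfa
    have h2 : |(g.leadingCoeff : ℝ)| ≤ (H : ℝ) := by exact_mod_cast hga
    exact mul_le_mul h1 h2 (abs_nonneg _) (by positivity)
  have hL1' : (L1 N.charpoly : ℝ) ≤ (detB (2 * H ^ 2 + 1) (D ^ 2) : ℝ) := by exact_mod_cast hL1
  calc (1 : ℝ) ≤ |(f.leadingCoeff : ℝ) * g.leadingCoeff * (α - β)| * L1 N.charpoly := hL
    _ = |α - β| * (|(f.leadingCoeff : ℝ) * g.leadingCoeff| * L1 N.charpoly) := by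
        rw [abs_mul]; ring
    _ ≤ |α - β| * ((H : ℝ) ^ 2 * (detB (2 * H ^ 2 + 1) (D ^ 2) : ℝ)) := by
        apply mul_le_mul_of_nonneg_left _ (abs_nonneg _)
        exact mul_le_mul hab hL1' (by positivity) (by positivity)
    _ = |α - β| * sepB D H := by
        unfold sepB
        push_cast
        ring

end Pool.Agent.Work.MP_9d4f6b_lc
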