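import Pool.Agent.Work.MP_9d4f6b_lc.Def

/-!
MODULE POLY. L1 f is the sum of the absolute values of the coefficients; it is subadditive and
submultiplicative (coefficients of the product, triangle inequality; range (natDegree + 1) may be
replaced by any larger range). The determinant is a sum over card n factorial permutations of
products of card n entries (Matrix.det_apply), card n factorial is at most (card n)^(card n)
(Nat.factorial_le_pow). Entry (i, j) of the adjugate is det (W.updateRow j (Pi.single i 1))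
(Matrix.adjugate_apply), all entries of this matrix are in BP D H as 1 ≤ H.
-/

set_option linter.unusedVariables false
set_option linter.style.longLine false

namespace Pool.Agent.Work.MP_9d4f6b_lc

open Polynomial

theorem L1_eq (f : ℤ[X]) (N : ℕ) (hN : f.natDegree + 1 ≤ N) :
    L1 f = ∑ i ∈ Finset.range N, (f.coeff i).natAbs := by
  unfold L1
  apply Finset.sum_subset
  · intro i hi
    simp only [Finset.mem_range] at hi ⊢
    omega
  · intro i _ hi
    simp only [Finset.mem_range, not_lt] at hi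
    rw [Polynomial.coeff_eq_zero_of_natDegree_lt (by omega)]
    rfl

theorem L1_zero : L1 0 = 0 := by
  simp [L1]

theorem L1_C (a : ℤ) : L1 (C a) = a.natAbs := by
  simp [L1]

theorem L1_X : L1 X = 1 := by
  rw [L1_eq X 2 (by simp)]
  simp [Finset.sum_range_succ, Polynomial.coeff_X]

theorem L1_add (f g : ℤ[X]) : L1 (f + g) ≤ L1 f + L1 g := by
  set N := max f.natDegree g.natDegree + 1 with hN
  have h1 : (f + g).natDegree + 1 ≤ N := by
    have := Polynomial.natDegree_add_le f g
    omega
  have h2 : f.natDegree + 1 ≤ N := by omega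
  have h3 : g.natDegree + 1 ≤ N := by omega
  rw [L1_eq _ N h1, L1_eq _ N h2, L1_eq _ N h3, ← Finset.sum_add_distrib]
  apply Finset.sum_le_sum
  intro i _
  rw [Polynomial.coeff_add]
  exact Int.natAbs_add_le _ _

theorem L1_neg (f : ℤ[X]) : L1 (-f) = L1 f := by
  simp [L1]

theorem L1_sum {ι : Type} (s : Finset ι) (f : ι → ℤ[X]) :
    L1 (∑ i ∈ s, f i) ≤ ∑ i ∈ s, L1 (f i) := by
  classical
  induction s using Finset.induction_on with
  | empty => simp [L1_zero]
  | insert a s ha ih =>
    rw [Finset.sum_insert ha, Finset.sum_insert ha]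
    exact (L1_add _ _).trans (Nat.add_le_add_left ih _)

theorem L1_X_pow_mul (f : ℤ[X]) (n : ℕ) : L1 (X ^ n * f) ≤ L1 f := by
  have h1 : (X ^ n * f).natDegree + 1 ≤ n + (f.natDegree + 1) := by
    have := Polynomial.natDegree_mul_le (p := (X : ℤ[X]) ^ n) (q := f)
    have h2 : ((X : ℤ[X]) ^ n).natDegree = n := Polynomial.natDegree_X_pow n
    omega
  rw [L1_eq _ _ h1, Finset.sum_range_add]
  have e1 : ∑ x ∈ Finset.range n, ((X ^ n * f).coeff x).natAbs = 0 := by
    apply Finset.sum_eq_zero
    intro x hx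
    rw [Polynomial.coeff_X_pow_mul']
    simp only [Finset.mem_range] at hx
    rw [if_neg (by omega)]
    rfl
  have e2 : ∑ x ∈ Finset.range (f.natDegree + 1), ((X ^ n * f).coeff (n + x)).natAbs = L1 f := by
    unfold L1
    apply Finset.sum_congr rfl
    intro x _
    rw [Polynomial.coeff_X_pow_mul', if_pos (by omega)]
    congr 2
    omega
  rw [e1, e2, zero_add]

theorem L1_C_mul (a : ℤ) (f : ℤ[X]) : L1 (C a * f) ≤ a.natAbs * L1 f := by
  have h1 : (C a * f).natDegree + 1 ≤ f.natDegree + 1 := by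
    have := Polynomial.natDegree_C_mul_le a f
    omega
  rw [L1_eq _ _ h1]
  unfold L1
  rw [Finset.mul_sum]
  apply Finset.sum_le_sum
  intro i _
  rw [Polynomial.coeff_C_mul, Int.natAbs_mul]

theorem L1_mul (f g : ℤ[X]) : L1 (f * g) ≤ L1 f * L1 g := by
  have e : f * g = ∑ i ∈ Finset.range (f.natDegree + 1), C (f.coeff i) * (X ^ i * g) := by
    conv_lhs => rw [f.as_sum_range_C_mul_X_pow, Finset.sum_mul]
    apply Finset.sum_congr rfl
    intro i _
    ring
  rw [e]
  refine (L1_sum _ _).trans ?_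
  have : L1 f * L1 g = ∑ i ∈ Finset.range (f.natDegree + 1), (f.coeff i).natAbs * L1 g := by
    rw [← Finset.sum_mul]; rfl
  rw [this]
  apply Finset.sum_le_sum
  intro i _
  exact (L1_C_mul _ _).trans (Nat.mul_le_mul_left _ (L1_X_pow_mul _ _))

theorem coeff_le_L1 (f : ℤ[X]) (i : ℕ) : (f.coeff i).natAbs ≤ L1 f := by
  by_cases h : i ≤ f.natDegree
  · unfold L1
    exact Finset.single_le_sum (f := fun i => (f.coeff i).natAbs) (fun _ _ => Nat.zero_le _)
      (Finset.mem_range.2 (by omega))
  · rw [Polynomial.coeff_eq_zero_of_natDegree_lt (by omega)]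
    simp

theorem BP.mono {D D' H H' : ℕ} {f : ℤ[X]} (h : BP D H f) (hD : D ≤ D') (hH : H ≤ H') :
    BP D' H' f := ⟨h.1.trans hD, h.2.trans hH⟩

theorem BP.add {D H H' : ℕ} {f g : ℤ[X]} (hf : BP D H f) (hg : BP D H' g) :
    BP D (H + H') (f + g) :=
  ⟨(Polynomial.natDegree_add_le f g).trans (max_le hf.1 hg.1),
    (L1_add f g).trans (Nat.add_le_add hf.2 hg.2)⟩

theorem BP.neg {D H : ℕ} {f : ℤ[X]} (hf : BP D H f) : BP D H (-f) := by
  refine ⟨?_, ?_⟩
  · rw [Polynomial.natDegree_neg]; exact hf.1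
  · rw [L1_neg]; exact hf.2

theorem BP.sub {D H H' : ℕ} {f g : ℤ[X]} (hf : BP D H f) (hg : BP D H' g) :
    BP D (H + H') (f - g) := by
  rw [sub_eq_add_neg]
  exact hf.add hg.neg

theorem BP.mul {D D' H H' : ℕ} {f g : ℤ[X]} (hf : BP D H f) (hg : BP D' H' g) :
    BP (D + D') (H * H') (f * g) :=
  ⟨Polynomial.natDegree_mul_le.trans (Nat.add_le_add hf.1 hg.1),
    (L1_mul f g).trans (Nat.mul_le_mul hf.2 hg.2)⟩

theorem BP.sum {ι : Type} (s : Finset ι) {D H : ℕ} {f : ι → ℤ[X]} (h : ∀ i ∈ s, BP D H (f i)) :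
    BP D (s.card * H) (∑ i ∈ s, f i) := by
  refine ⟨Polynomial.natDegree_sum_le_of_forall_le s f (fun i hi => (h i hi).1), ?_⟩
  refine (L1_sum s f).trans ?_
  have := Finset.sum_le_card_nsmul s (fun i => L1 (f i)) H (fun i hi => (h i hi).2)
  simpa using this

theorem BP.prod {ι : Type} (s : Finset ι) {D H : ℕ} {f : ι → ℤ[X]} (h : ∀ i ∈ s, BP D H (f i)) :
    BP (s.card * D) (H ^ s.card) (∏ i ∈ s, f i) := by
  classical
  induction s using Finset.induction_on with
  | empty =>
    refine ⟨by simp, ?_⟩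
    have : L1 (1 : ℤ[X]) = 1 := by
      have := L1_C 1
      simpa using this
    simp [this]
  | insert a s ha ih =>
    rw [Finset.prod_insert ha, Finset.card_insert_of_notMem ha]
    have h1 := (h a (Finset.mem_insert_self a s)).mul
      (ih (fun i hi => h i (Finset.mem_insert_of_mem hi)))
    refine h1.mono ?_ ?_
    · rw [add_mul, one_mul, add_comm]
    · rw [pow_succ, mul_comm]

theorem one_le_detB {K : ℕ} (hK : 1 ≤ K) (n : ℕ) : 1 ≤ detB K n := by
  unfold detB
  rcases Nat.eq_zero_or_pos n with h | h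
  · subst h; simp
  · have h1 : 1 ≤ n ^ n := Nat.one_le_pow _ _ h
    have h2 : 1 ≤ K ^ n := Nat.one_le_pow _ _ hK
    exact Nat.one_le_iff_ne_zero.2 (Nat.mul_ne_zero (by omega) (by omega))

theorem detB_mono {K K' n n' : ℕ} (hK : 1 ≤ K) (h : K ≤ K') (hn : n ≤ n') (hn1 : 1 ≤ n) :
    detB K n ≤ detB K' n' := by
  unfold detB
  apply Nat.mul_le_mul
  · exact (Nat.pow_le_pow_left hn n).trans (Nat.pow_le_pow_right (by omega) hn)
  · exact (Nat.pow_le_pow_left h n).trans (Nat.pow_le_pow_right (by omega) hn)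

theorem BP.det {n : Type} [Fintype n] [DecidableEq n] {D H : ℕ} {W : Matrix n n ℤ[X]}
    (h : ∀ i j, BP D H (W i j)) : BP (Fintype.card n * D) (detB H (Fintype.card n)) W.det := by
  rw [Matrix.det_apply]
  have h1 : ∀ σ ∈ (Finset.univ : Finset (Equiv.Perm n)),
      BP (Fintype.card n * D) (H ^ Fintype.card n)
        (Equiv.Perm.sign σ • ∏ i, W (σ i) i) := by
    intro σ _
    have h2 := BP.prod (Finset.univ : Finset n) (f := fun i => W (σ i) i) (fun i _ => h _ _)
    rw [Finset.card_univ] at h2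
    rcases Int.units_eq_one_or (Equiv.Perm.sign σ) with hs | hs
    · rw [hs, one_smul]; exact h2
    · rw [hs, Units.neg_smul, one_smul]; exact h2.neg
  refine (BP.sum _ h1).mono le_rfl ?_
  rw [Finset.card_univ, Fintype.card_perm]
  unfold detB
  exact Nat.mul_le_mul_right _ (Nat.factorial_le_pow _)

theorem BP.adj {n : Type} [Fintype n] [DecidableEq n] {D H : ℕ} (hH : 1 ≤ H)
    {W : Matrix n n ℤ[X]} (h : ∀ i j, BP D H (W i j)) (i j : n) :
    BP (Fintype.card n * D) (detB H (Fintype.card n)) (W.adjugate i j) := by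
  rw [Matrix.adjugate_apply]
  apply BP.det
  intro a b
  rw [Matrix.updateRow_apply]
  split_ifs with hab
  · rw [Pi.single_apply]
    split_ifs
    · refine ⟨by simp, ?_⟩
      have : L1 (1 : ℤ[X]) = 1 := by
        have := L1_C 1
        simpa using this
      omega
    · exact ⟨by simp, by rw [L1_zero]; omega⟩
  · exact h a b

/-- the same for integral matrices -/
theorem abs_det_le {n : Type} [Fintype n] [DecidableEq n] {K : ℕ} {W : Matrix n n ℤ}
    (h : ∀ i j, |W i j| ≤ K) : |W.det| ≤ detB K (Fintype.card n) := by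
  have h1 : BP (Fintype.card n * 0) (detB K (Fintype.card n))
      ((W.map (C : ℤ →+* ℤ[X])).det) := by
    apply BP.det
    intro i j
    refine ⟨by simp, ?_⟩
    rw [Matrix.map_apply, L1_C]
    have := h i j
    rw [Int.abs_eq_natAbs] at this
    omega
  have h2 : (W.map (C : ℤ →+* ℤ[X])).det = C W.det := by
    rw [RingHom.map_det]; rfl
  rw [h2] at h1
  have h3 := h1.2
  rw [L1_C] at h3
  rw [Int.abs_eq_natAbs]
  omega

theorem abs_adj_le {n : Type} [Fintype n] [DecidableEq n] {K : ℕ} (hK : 1 ≤ K)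
    {W : Matrix n n ℤ} (h : ∀ i j, |W i j| ≤ K) (i j : n) :
    |W.adjugate i j| ≤ detB K (Fintype.card n) := by
  rw [Matrix.adjugate_apply]
  apply abs_det_le
  intro a b
  rw [Matrix.updateRow_apply]
  split_ifs with hab
  · rw [Pi.single_apply]
    split_ifs
    · simp; omega
    · simp
  · exact h a b

end Pool.Agent.Work.MP_9d4f6b_lc
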