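import Pool.Agent.Work.MP_9d4f6b_lc.Dec

/-!
MODULE DIG. exists_digits: induction on k (N = v 0 + q * N' or N = N' + v k * q^k), or Nat.ofDigits.
chk_iff: Chk g N is HNE for the payoffs and the weights (Fin k sums are range sums:
Finset.sum_range / Fin.sum_univ_eq_sum_range). chk_of_small: code X, Y, Z by one number with
exists_digits (k = l + m + n, digits below bas g because the weights are at most BB).
pay_le: an entry of a list (or 0) is at most the sum.
-/

set_option linter.unusedVariables false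
set_option linter.style.longLine false

namespace Pool.Agent.Work.MP_9d4f6b_lc

theorem exists_digits (q : ℕ) (k : ℕ) (v : ℕ → ℕ) (hv : ∀ i < k, v i < q) :
    ∃ N < q ^ k, ∀ i < k, dig q N i = v i := by
  induction k generalizing v with
  | zero => exact ⟨0, by simp, by simp⟩
  | succ k ih =>
    obtain ⟨N, hN, hd⟩ := ih (fun i => v (i + 1)) (fun i hi => hv (i + 1) (by omega))
    have h0 : v 0 < q := hv 0 (by omega)
    refine ⟨v 0 + q * N, ?_, ?_⟩
    · calc v 0 + q * N < q + q * N := by omega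
        _ = q * (N + 1) := by ring
        _ ≤ q * q ^ k := Nat.mul_le_mul_left _ hN
        _ = q ^ (k + 1) := by ring
    · intro i hi
      cases i with
      | zero =>
        unfold dig
        rw [pow_zero, Nat.div_one, Nat.add_mul_mod_self_left, Nat.mod_eq_of_lt h0]
      | succ i =>
        have := hd i (by omega)
        unfold dig at this ⊢
        rw [pow_succ', ← Nat.div_div_eq_div_mul, Nat.add_mul_div_left _ _ (by omega : 0 < q),
          Nat.div_eq_of_lt h0, zero_add]
        exact this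

private theorem dg_getD_le (l : List ℕ) (n : ℕ) : l.getD n 0 ≤ l.sum := by
  induction l generalizing n with
  | nil => simp
  | cons a l ih =>
    cases n with
    | zero => simp
    | succ n =>
      have := ih n
      simp only [List.getD_cons_succ, List.sum_cons]
      omega

theorem pay_le (g : Gm) (i a b c : ℕ) : pay g i a b c ≤ g.2.2.2.sum := by
  unfold pay
  exact dg_getD_le _ _

private theorem dg_forall {n : ℕ} {p : ℕ → Prop} : (∀ a < n, p a) ↔ ∀ a : Fin n, p a :=
  ⟨fun h a => h a a.2, fun h a ha => h ⟨a, ha⟩⟩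

theorem chk_iff (g : Gm) (N : ℕ) : Chk g N ↔
    HNE (fun (a : Fin g.1) (b : Fin g.2.1) (c : Fin g.2.2.1) => pay g 0 a b c)
      (fun a b c => pay g 1 a b c) (fun a b c => pay g 2 a b c)
      (fun a => wX g N a) (fun b => wY g N b) (fun c => wZ g N c) := by
  unfold Chk tot
  simp only [dg_forall, Finset.sum_range]
  constructor
  · rintro ⟨h1, h2, h3, h4, h5, h6⟩
    exact ⟨h1, h2, h3, h4, h5, h6⟩
  · rintro ⟨h1, h2, h3, h4, h5, h6⟩
    exact ⟨h1, h2, h3, h4, h5, h6⟩

theorem chk_of_small (g : Gm) (X : Fin g.1 → ℕ) (Y : Fin g.2.1 → ℕ) (Z : Fin g.2.2.1 → ℕ)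
    (h : HNE (fun (a : Fin g.1) (b : Fin g.2.1) (c : Fin g.2.2.1) => pay g 0 a b c)
      (fun a b c => pay g 1 a b c) (fun a b c => pay g 2 a b c) X Y Z)
    (hX : ∀ a, X a ≤ BB g.2.2.2.sum g.1 g.2.1 g.2.2.1)
    (hY : ∀ b, Y b ≤ BB g.2.2.2.sum g.1 g.2.1 g.2.2.1)
    (hZ : ∀ c, Z c ≤ BB g.2.2.2.sum g.1 g.2.1 g.2.2.1) :
    ∃ N < bas g ^ (g.1 + g.2.1 + g.2.2.1), Chk g N := by
  obtain ⟨N, hN, hd⟩ := exists_digits (bas g) (g.1 + g.2.1 + g.2.2.1)
    (fun i => if h1 : i < g.1 then X ⟨i, h1⟩ else if h2 : i - g.1 < g.2.1 then Y ⟨i - g.1, h2⟩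
      else if h3 : i - g.1 - g.2.1 < g.2.2.1 then Z ⟨i - g.1 - g.2.1, h3⟩ else 0) (by
      intro i _
      show (if h1 : i < g.1 then X ⟨i, h1⟩ else if h2 : i - g.1 < g.2.1 then Y ⟨i - g.1, h2⟩
        else if h3 : i - g.1 - g.2.1 < g.2.2.1 then Z ⟨i - g.1 - g.2.1, h3⟩ else 0) < bas g
      unfold bas
      split_ifs with h1 h2 h3
      · exact Nat.lt_succ_of_le (hX _)
      · exact Nat.lt_succ_of_le (hY _)
      · exact Nat.lt_succ_of_le (hZ _)
      · omega)
  refine ⟨N, hN, ?_⟩
  rw [chk_iff]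
  have e1 : (fun a : Fin g.1 => wX g N a) = X := by
    funext a
    have := hd a (by have := a.2; omega)
    unfold wX
    rw [this, dif_pos a.2]
  have e2 : (fun b : Fin g.2.1 => wY g N b) = Y := by
    funext b
    have := hd (g.1 + b) (by have := b.2; omega)
    unfold wY
    rw [this, dif_neg (by omega), dif_pos (by have := b.2; omega)]
    congr 1
    ext
    simp
  have e3 : (fun c : Fin g.2.2.1 => wZ g N c) = Z := by
    funext c
    have := hd (g.1 + g.2.1 + c) (by have := c.2; omega)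
    unfold wZ
    rw [this, dif_neg (by omega), dif_neg (by omega), dif_pos (by have := c.2; omega)]
    congr 1
    ext
    simp
    omega
  rw [e1, e2, e3]
  exact h

end Pool.Agent.Work.MP_9d4f6b_lc
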