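import Pool.Agent.Work.MP_9d4f6b_lc.Def

/-!
MODULE SYM. ne_of_hne: divide by the sums. push: a strategy set A with a surjection from A' onto it:
choose a section σ of π, x' = x on the image of σ and 0 elsewhere (then the sum of x' over each
fibre is x); the payoffs only depend on π a'. hne_push: X a = sum of X' over the fibre.
swap12, swap13 and their HNE versions: exchange the order of summation (Finset.sum_comm).
-/

set_option linter.unusedVariables false
set_option linter.style.longLine false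

namespace Pool.Agent.Work.MP_9d4f6b_lc

open Polynomial

variable {A B C : Type} [Fintype A] [Fintype B] [Fintype C]

section aux

variable {R : Type} [CommSemiring R]

theorem fac3 (x : A → R) (y : B → R) (z : C → R) (u : A → B → C → R) :
    ∑ a, ∑ b, ∑ c, x a * y b * z c * u a b c = ∑ a, x a * ∑ b, ∑ c, y b * z c * u a b c := by
  apply Finset.sum_congr rfl
  intro a _
  rw [Finset.mul_sum]
  apply Finset.sum_congr rfl
  intro b _
  rw [Finset.mul_sum]
  apply Finset.sum_congr rfl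
  intro c _
  ring

theorem fac2 (x : A → R) (z : C → R) (u : A → C → R) :
    ∑ a, ∑ c, x a * z c * u a c = ∑ a, x a * ∑ c, z c * u a c := by
  apply Finset.sum_congr rfl
  intro a _
  rw [Finset.mul_sum]
  apply Finset.sum_congr rfl
  intro c _
  ring

theorem com12 (x : A → R) (y : B → R) (z : C → R) (u : A → B → C → R) :
    ∑ b, ∑ a, ∑ c, y b * x a * z c * u a b c = ∑ a, ∑ b, ∑ c, x a * y b * z c * u a b c := by
  rw [Finset.sum_comm]
  apply Finset.sum_congr rfl
  intro a _
  apply Finset.sum_congr rfl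
  intro b _
  apply Finset.sum_congr rfl
  intro c _
  ring

theorem com23 (x : A → R) (y : B → R) (z : C → R) (u : A → B → C → R) :
    ∑ a, ∑ c, ∑ b, x a * z c * y b * u a b c = ∑ a, ∑ b, ∑ c, x a * y b * z c * u a b c := by
  apply Finset.sum_congr rfl
  intro a _
  rw [Finset.sum_comm]
  apply Finset.sum_congr rfl
  intro b _
  apply Finset.sum_congr rfl
  intro c _
  ring

theorem com13 (x : A → R) (y : B → R) (z : C → R) (u : A → B → C → R) :
    ∑ c, ∑ b, ∑ a, z c * y b * x a * u a b c = ∑ a, ∑ b, ∑ c, x a * y b * z c * u a b c := by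
  rw [com23 z x y (fun c a b => u a b c), com12 x z y (fun a c b => u a b c),
    com23 x y z (fun a b c => u a b c)]

theorem com2 (x : A → R) (y : B → R) (u : A → B → R) :
    ∑ b, ∑ a, y b * x a * u a b = ∑ a, ∑ b, x a * y b * u a b := by
  rw [Finset.sum_comm]
  apply Finset.sum_congr rfl
  intro a _
  apply Finset.sum_congr rfl
  intro b _
  ring

end aux

theorem ne_of_hne (u1 u2 u3 : A → B → C → ℕ) (X : A → ℕ) (Y : B → ℕ) (Z : C → ℕ)
    (h : HNE u1 u2 u3 X Y Z) : ∃ (x : A → ℚ) (y : B → ℚ) (z : C → ℚ), IsNE u1 u2 u3 x y z := by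
  have hx : (0 : ℚ) < ∑ a, (X a : ℚ) := by exact_mod_cast h.x1
  have hy : (0 : ℚ) < ∑ b, (Y b : ℚ) := by exact_mod_cast h.y1
  have hz : (0 : ℚ) < ∑ c, (Z c : ℚ) := by exact_mod_cast h.z1
  set sx := ∑ a, (X a : ℚ) with hsx
  set sy := ∑ b, (Y b : ℚ) with hsy
  set sz := ∑ c, (Z c : ℚ) with hsz
  have e3 : ∀ u : A → B → C → ℕ, ∑ a, ∑ b, ∑ c, (X a / sx : ℚ) * (Y b / sy) * (Z c / sz) * (u a b c : ℚ)
      = (∑ a, ∑ b, ∑ c, (X a : ℚ) * Y b * Z c * u a b c) / (sx * sy * sz) := by
    intro u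
    simp only [Finset.sum_div]
    apply Finset.sum_congr rfl
    intro a _
    apply Finset.sum_congr rfl
    intro b _
    apply Finset.sum_congr rfl
    intro c _
    field_simp
  refine ⟨fun a => X a / sx, fun b => Y b / sy, fun c => Z c / sz, ?_⟩
  refine ⟨fun a => by positivity, ?_, fun b => by positivity, ?_, fun c => by positivity, ?_, ?_, ?_, ?_⟩
  · rw [← Finset.sum_div]; exact div_self hx.ne'
  · rw [← Finset.sum_div]; exact div_self hy.ne'
  · rw [← Finset.sum_div]; exact div_self hz.ne'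
  · intro a₀
    rw [e3]
    have e2 : ∑ b, ∑ c, (Y b / sy : ℚ) * (Z c / sz) * (u1 a₀ b c : ℚ)
        = (sx * ∑ b, ∑ c, (Y b : ℚ) * Z c * u1 a₀ b c) / (sx * sy * sz) := by
      rw [mul_assoc sx, mul_div_mul_left _ _ hx.ne']
      simp only [Finset.sum_div]
      apply Finset.sum_congr rfl
      intro b _
      apply Finset.sum_congr rfl
      intro c _
      field_simp
    rw [e2]
    apply div_le_div_of_nonneg_right _ (by positivity)
    have := h.n1 a₀
    rw [hsx]
    exact_mod_cast this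
  · intro b₀
    rw [e3]
    have e2 : ∑ a, ∑ c, (X a / sx : ℚ) * (Z c / sz) * (u2 a b₀ c : ℚ)
        = (sy * ∑ a, ∑ c, (X a : ℚ) * Z c * u2 a b₀ c) / (sx * sy * sz) := by
      rw [show sx * sy * sz = sy * (sx * sz) by ring, mul_div_mul_left _ _ hy.ne']
      simp only [Finset.sum_div]
      apply Finset.sum_congr rfl
      intro b _
      apply Finset.sum_congr rfl
      intro c _
      field_simp
    rw [e2]
    apply div_le_div_of_nonneg_right _ (by positivity)
    have := h.n2 b₀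
    rw [hsy]
    exact_mod_cast this
  · intro c₀
    rw [e3]
    have e2 : ∑ a, ∑ b, (X a / sx : ℚ) * (Y b / sy) * (u3 a b c₀ : ℚ)
        = (sz * ∑ a, ∑ b, (X a : ℚ) * Y b * u3 a b c₀) / (sx * sy * sz) := by
      rw [show sx * sy * sz = sz * (sx * sy) by ring, mul_div_mul_left _ _ hz.ne']
      simp only [Finset.sum_div]
      apply Finset.sum_congr rfl
      intro b _
      apply Finset.sum_congr rfl
      intro c _
      field_simp
    rw [e2]
    apply div_le_div_of_nonneg_right _ (by positivity)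
    have := h.n3 c₀
    rw [hsz]
    exact_mod_cast this

theorem ne_push {A' : Type} [Fintype A'] (π : A' → A) (hπ : Function.Surjective π)
    (u1 u2 u3 : A → B → C → ℕ) (x : A → ℚ) (y : B → ℚ) (z : C → ℚ) (h : IsNE u1 u2 u3 x y z) :
    ∃ x' : A' → ℚ, IsNE (fun a => u1 (π a)) (fun a => u2 (π a)) (fun a => u3 (π a)) x' y z := by
  classical
  set σ := Function.surjInv hπ with hσ
  have hs : ∀ a, π (σ a) = a := Function.surjInv_eq hπ
  have key : ∀ f : A → ℚ, ∑ a', (if σ (π a') = a' then x (π a') else 0) * f (π a') = ∑ a, x a * f a := by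
    intro f
    symm
    apply Finset.sum_of_injOn σ
    · exact (Function.injective_surjInv hπ).injOn
    · intro a _; exact Finset.mem_coe.2 (Finset.mem_univ _)
    · intro a' _ ha'
      rw [if_neg, zero_mul]
      intro hc
      exact ha' ⟨π a', Finset.mem_coe.2 (Finset.mem_univ _), hc⟩
    · intro a _
      rw [hs, if_pos rfl]
  refine ⟨fun a' => if σ (π a') = a' then x (π a') else 0, ?_⟩
  refine ⟨?_, ?_, h.y0, h.y1, h.z0, h.z1, ?_, ?_, ?_⟩
  · intro a'
    split_ifs
    · exact h.x0 _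
    · exact le_rfl
  · have := key (fun _ => 1)
    simp only [mul_one] at this
    rw [this]; exact h.x1
  · intro a'
    have h1 := h.n1 (π a')
    rw [fac3 x y z (fun a b c => (u1 a b c : ℚ))] at h1
    rw [fac3 _ y z (fun a b c => (u1 (π a) b c : ℚ)),
      key (fun a => ∑ b, ∑ c, y b * z c * (u1 a b c : ℚ))]
    exact h1
  · intro b
    have h1 := h.n2 b
    rw [fac3 x y z (fun a b c => (u2 a b c : ℚ)), fac2 x z (fun a c => (u2 a b c : ℚ))] at h1
    rw [fac3 _ y z (fun a b c => (u2 (π a) b c : ℚ)),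
      key (fun a => ∑ b, ∑ c, y b * z c * (u2 a b c : ℚ)), fac2 _ z (fun a c => (u2 (π a) b c : ℚ)),
      key (fun a => ∑ c, z c * (u2 a b c : ℚ))]
    exact h1
  · intro c
    have h1 := h.n3 c
    rw [fac3 x y z (fun a b c => (u3 a b c : ℚ)), fac2 x y (fun a b => (u3 a b c : ℚ))] at h1
    rw [fac3 _ y z (fun a b c => (u3 (π a) b c : ℚ)),
      key (fun a => ∑ b, ∑ c, y b * z c * (u3 a b c : ℚ)), fac2 _ y (fun a b => (u3 (π a) b c : ℚ)),
      key (fun a => ∑ b, y b * (u3 a b c : ℚ))]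
    exact h1

theorem hne_push {A' : Type} [Fintype A'] [DecidableEq A] (π : A' → A)
    (hπ : Function.Surjective π) (u1 u2 u3 : A → B → C → ℕ) (X : A' → ℕ) (Y : B → ℕ) (Z : C → ℕ)
    (h : HNE (fun a => u1 (π a)) (fun a => u2 (π a)) (fun a => u3 (π a)) X Y Z) :
    HNE u1 u2 u3 (fun a => ∑ a' ∈ Finset.univ.filter (fun a' => π a' = a), X a') Y Z := by
  have key : ∀ f : A → ℕ, ∑ a, (∑ a' ∈ Finset.univ.filter (fun a' => π a' = a), X a') * f a
      = ∑ a', X a' * f (π a') := by
    intro f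
    rw [← Finset.sum_fiberwise (Finset.univ : Finset A') π (fun a' => X a' * f (π a'))]
    apply Finset.sum_congr rfl
    intro a _
    rw [Finset.sum_mul]
    apply Finset.sum_congr rfl
    intro a' ha'
    rw [(Finset.mem_filter.1 ha').2]
  have key1 : ∑ a, (∑ a' ∈ Finset.univ.filter (fun a' => π a' = a), X a') = ∑ a', X a' := by
    have := key (fun _ => 1)
    simpa only [mul_one] using this
  refine ⟨?_, h.y1, h.z1, ?_, ?_, ?_⟩
  · rw [key1]; exact h.x1
  · intro a
    obtain ⟨a', rfl⟩ := hπ a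
    have h1 := h.n1 a'
    rw [fac3 X Y Z (fun a b c => u1 (π a) b c)] at h1
    rw [key1, fac3 _ Y Z u1, key (fun a => ∑ b, ∑ c, Y b * Z c * u1 a b c)]
    exact h1
  · intro b
    have h1 := h.n2 b
    rw [fac3 X Y Z (fun a b c => u2 (π a) b c), fac2 X Z (fun a c => u2 (π a) b c)] at h1
    rw [fac3 _ Y Z u2, key (fun a => ∑ b, ∑ c, Y b * Z c * u2 a b c),
      fac2 _ Z (fun a c => u2 a b c), key (fun a => ∑ c, Z c * u2 a b c)]
    exact h1
  · intro c
    have h1 := h.n3 c
    rw [fac3 X Y Z (fun a b c => u3 (π a) b c), fac2 X Y (fun a b => u3 (π a) b c)] at h1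
    rw [fac3 _ Y Z u3, key (fun a => ∑ b, ∑ c, Y b * Z c * u3 a b c),
      fac2 _ Y (fun a b => u3 a b c), key (fun a => ∑ b, Y b * u3 a b c)]
    exact h1

theorem ne_swap12 (u1 u2 u3 : A → B → C → ℕ) (x : A → ℚ) (y : B → ℚ) (z : C → ℚ)
    (h : IsNE u1 u2 u3 x y z) :
    IsNE (fun b a c => u2 a b c) (fun b a c => u1 a b c) (fun b a c => u3 a b c) y x z := by
  refine ⟨h.y0, h.y1, h.x0, h.x1, h.z0, h.z1, ?_, ?_, ?_⟩
  · intro b
    rw [com12 x y z (fun a b c => (u2 a b c : ℚ))]
    exact h.n2 b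
  · intro a
    rw [com12 x y z (fun a b c => (u1 a b c : ℚ))]
    exact h.n1 a
  · intro c
    rw [com12 x y z (fun a b c => (u3 a b c : ℚ)), com2 x y (fun a b => (u3 a b c : ℚ))]
    exact h.n3 c

theorem hne_swap12 (u1 u2 u3 : A → B → C → ℕ) (X : A → ℕ) (Y : B → ℕ) (Z : C → ℕ)
    (h : HNE (fun b a c => u2 a b c) (fun b a c => u1 a b c) (fun b a c => u3 a b c) Y X Z) :
    HNE u1 u2 u3 X Y Z := by
  refine ⟨h.y1, h.x1, h.z1, ?_, ?_, ?_⟩
  · intro a
    have h1 := h.n2 a
    rw [com12 X Y Z u1] at h1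
    exact h1
  · intro b
    have h1 := h.n1 b
    rw [com12 X Y Z u2] at h1
    exact h1
  · intro c
    have h1 := h.n3 c
    rw [com12 X Y Z u3, com2 X Y (fun a b => u3 a b c)] at h1
    exact h1

theorem ne_swap13 (u1 u2 u3 : A → B → C → ℕ) (x : A → ℚ) (y : B → ℚ) (z : C → ℚ)
    (h : IsNE u1 u2 u3 x y z) :
    IsNE (fun c b a => u3 a b c) (fun c b a => u2 a b c) (fun c b a => u1 a b c) z y x := by
  refine ⟨h.z0, h.z1, h.y0, h.y1, h.x0, h.x1, ?_, ?_, ?_⟩
  · intro c
    rw [com13 x y z (fun a b c => (u3 a b c : ℚ)), com2 x y (fun a b => (u3 a b c : ℚ))]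
    exact h.n3 c
  · intro b
    rw [com13 x y z (fun a b c => (u2 a b c : ℚ)), com2 x z (fun a c => (u2 a b c : ℚ))]
    exact h.n2 b
  · intro a
    rw [com13 x y z (fun a b c => (u1 a b c : ℚ)), com2 y z (fun b c => (u1 a b c : ℚ))]
    exact h.n1 a

theorem hne_swap13 (u1 u2 u3 : A → B → C → ℕ) (X : A → ℕ) (Y : B → ℕ) (Z : C → ℕ)
    (h : HNE (fun c b a => u3 a b c) (fun c b a => u2 a b c) (fun c b a => u1 a b c) Z Y X) :
    HNE u1 u2 u3 X Y Z := by
  refine ⟨h.z1, h.y1, h.x1, ?_, ?_, ?_⟩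
  · intro a
    have h1 := h.n3 a
    rw [com13 X Y Z u1, com2 Y Z (fun b c => u1 a b c)] at h1
    exact h1
  · intro b
    have h1 := h.n2 b
    rw [com13 X Y Z u2, com2 X Z (fun a c => u2 a b c)] at h1
    exact h1
  · intro c
    have h1 := h.n1 c
    rw [com13 X Y Z u3, com2 X Y (fun a b => u3 a b c)] at h1
    exact h1

end Pool.Agent.Work.MP_9d4f6b_lc
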