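import Pool.Agent.Work.MP_9d4f6b_lc.Def

/-!
Coding of the bounded search (fixed file, nothing to prove).
-/

set_option linter.unusedVariables false
set_option linter.style.longLine false

namespace Pool.Agent.Work.MP_9d4f6b_lc

/-- a game: numbers of strategies and the list of payoffs -/
abbrev Gm := ℕ × ℕ × ℕ × List ℕ

/-- payoff of player i + 1 -/
def pay (g : Gm) (i a b c : ℕ) : ℕ :=
  g.2.2.2.getD (((i * g.1 + a) * g.2.1 + b) * g.2.2.1 + c) 0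

/-- base for the coding of the weights -/
def bas (g : Gm) : ℕ := BB g.2.2.2.sum g.1 g.2.1 g.2.2.1 + 1

/-- i-th digit of N in base q -/
def dig (q N i : ℕ) : ℕ := N / q ^ i % q

/-- the weights coded by N -/
def wX (g : Gm) (N a : ℕ) : ℕ := dig (bas g) N a
def wY (g : Gm) (N b : ℕ) : ℕ := dig (bas g) N (g.1 + b)
def wZ (g : Gm) (N c : ℕ) : ℕ := dig (bas g) N (g.1 + g.2.1 + c)

/-- total payoff of player i + 1 -/
def tot (g : Gm) (N i : ℕ) : ℕ :=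
  ∑ a ∈ Finset.range g.1, ∑ b ∈ Finset.range g.2.1, ∑ c ∈ Finset.range g.2.2.1,
    wX g N a * wY g N b * wZ g N c * pay g i a b c

/-- N codes an equilibrium of g -/
def Chk (g : Gm) (N : ℕ) : Prop :=
  0 < ∑ a ∈ Finset.range g.1, wX g N a ∧
  0 < ∑ b ∈ Finset.range g.2.1, wY g N b ∧
  0 < ∑ c ∈ Finset.range g.2.2.1, wZ g N c ∧
  (∀ a₀ < g.1, (∑ a ∈ Finset.range g.1, wX g N a) *
    ∑ b ∈ Finset.range g.2.1, ∑ c ∈ Finset.range g.2.2.1, wY g N b * wZ g N c * pay g 0 a₀ b c ≤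
      tot g N 0) ∧
  (∀ b₀ < g.2.1, (∑ b ∈ Finset.range g.2.1, wY g N b) *
    ∑ a ∈ Finset.range g.1, ∑ c ∈ Finset.range g.2.2.1, wX g N a * wZ g N c * pay g 1 a b₀ c ≤
      tot g N 1) ∧
  (∀ c₀ < g.2.2.1, (∑ c ∈ Finset.range g.2.2.1, wZ g N c) *
    ∑ a ∈ Finset.range g.1, ∑ b ∈ Finset.range g.2.1, wX g N a * wY g N b * pay g 2 a b c₀ ≤
      tot g N 2)

/-- some player has at most two strategies -/
def Sml (g : Gm) : Prop := g.1 ≤ 2 ∨ g.2.1 ≤ 2 ∨ g.2.2.1 ≤ 2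

/-- the bounded search -/
def Srch (g : Gm) : Prop := Sml g ∧ ∃ N < bas g ^ (g.1 + g.2.1 + g.2.2.1), Chk g N

end Pool.Agent.Work.MP_9d4f6b_lc
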