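import Pool.Agent.Work.MP_9d4f6b_lc.Dec

/-!
MODULE PRIM: the bounded search is primitive recursive. Everything is built from natural number
arithmetic (Primrec.nat_add, nat_mul, nat_sub, nat_div, nat_mod), powers (Primrec₂.unpaired'.1
Nat.Primrec.pow), Primrec.list_getD, list sums (Primrec.list_foldr), Finset.sum over range
(Primrec.nat_rec: prim_sum), bounded quantifiers (PrimrecRel.forall_lt, exists_lt; see ballLt, bexLt
in Pool/Agent/Work/MP_90e0ad_ag/PrimBase.lean, which you may copy but please do not import).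
Suggested order: prim_sum, then detB, sepB, samB, QQ, intB, bd, BB as functions of several Primrec
arguments, bas, dig, wX, wY, wZ, pay, tot, Chk, Srch.
-/

set_option linter.unusedVariables false
set_option linter.style.longLine false

namespace Pool.Agent.Work.MP_9d4f6b_lc

theorem prim_sum {α : Type} [Primcodable α] {K : α → ℕ} {f : α → ℕ → ℕ} (hK : Primrec K)
    (hf : Primrec₂ f) : Primrec fun a => ∑ i ∈ Finset.range (K a), f a i := by
  have h1 : Primrec₂ fun (a : α) (p : ℕ × ℕ) => p.2 + f a p.1 :=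
    (Primrec.nat_add.comp (Primrec.snd.comp Primrec.snd)
      (hf.comp Primrec.fst (Primrec.fst.comp Primrec.snd))).to₂
  have h : Primrec fun a => Nat.rec (motive := fun _ => ℕ) 0 (fun i s => s + f a i) (K a) :=
    Primrec.nat_rec' hK (Primrec.const 0) h1
  refine h.of_eq fun a => ?_
  induction K a with
  | zero => simp
  | succ n ih => rw [Finset.sum_range_succ, ← ih]

section

variable {α : Type} [Primcodable α]

private theorem pr_c (n : ℕ) : Primrec fun _ : α => n := Primrec.const n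

private theorem pr_add {f g : α → ℕ} (hf : Primrec f) (hg : Primrec g) :
    Primrec fun a => f a + g a := Primrec.nat_add.comp hf hg

private theorem pr_mul {f g : α → ℕ} (hf : Primrec f) (hg : Primrec g) :
    Primrec fun a => f a * g a := Primrec.nat_mul.comp hf hg

private theorem pr_pow {f g : α → ℕ} (hf : Primrec f) (hg : Primrec g) :
    Primrec fun a => f a ^ g a := (Primrec₂.unpaired'.1 Nat.Primrec.pow).comp hf hg

private theorem pr_div {f g : α → ℕ} (hf : Primrec f) (hg : Primrec g) :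
    Primrec fun a => f a / g a := Primrec.nat_div.comp hf hg

private theorem pr_mod {f g : α → ℕ} (hf : Primrec f) (hg : Primrec g) :
    Primrec fun a => f a % g a := Primrec.nat_mod.comp hf hg

private theorem pr_lsum {l : α → List ℕ} (hl : Primrec l) : Primrec fun a => (l a).sum := by
  have h : Primrec fun a => (l a).foldr (fun b s => b + s) 0 :=
    Primrec.list_foldr hl (Primrec.const 0)
      (Primrec.nat_add.comp (Primrec.fst.comp Primrec.snd) (Primrec.snd.comp Primrec.snd)).to₂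
  exact h

private theorem pr_ball {p : α → ℕ → Prop} {f : α → ℕ} (hf : Primrec f)
    (hp : PrimrecRel p) : PrimrecPred fun a => ∀ i < f a, p a i := by
  have h1 : PrimrecRel fun (i : ℕ) (a : α) => p a i := hp.swap
  have h2 := PrimrecRel.forall_mem_list h1
  exact (PrimrecRel.comp (f := fun a => List.range (f a)) (g := fun a => a) h2
    (Primrec.list_range.comp hf) Primrec.id).of_eq fun a => by simp

private theorem pr_bex {p : α → ℕ → Prop} {f : α → ℕ} (hf : Primrec f)
    (hp : PrimrecRel p) : PrimrecPred fun a => ∃ i < f a, p a i := by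
  have h1 : PrimrecRel fun (i : ℕ) (a : α) => p a i := hp.swap
  have h2 := PrimrecRel.exists_mem_list h1
  exact (PrimrecRel.comp (f := fun a => List.range (f a)) (g := fun a => a) h2
    (Primrec.list_range.comp hf) Primrec.id).of_eq fun a => by simp

private theorem pr_detB {K n : α → ℕ} (hK : Primrec K) (hn : Primrec n) :
    Primrec fun a => detB (K a) (n a) := by
  unfold detB
  exact pr_mul (pr_pow hn hn) (pr_pow hK hn)

private theorem pr_sepB {D H : α → ℕ} (hD : Primrec D) (hH : Primrec H) :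
    Primrec fun a => sepB (D a) (H a) := by
  unfold sepB
  exact pr_mul (pr_pow hH (pr_c 2))
    (pr_detB (pr_add (pr_mul (pr_c 2) (pr_pow hH (pr_c 2))) (pr_c 1)) (pr_pow hD (pr_c 2)))

private theorem pr_samB {D H : α → ℕ} (hD : Primrec D) (hH : Primrec H) :
    Primrec fun a => samB (D a) (H a) := by
  unfold samB
  exact pr_add (pr_add hH (pr_sepB hD hH)) (pr_c 1)

private theorem pr_K0 {M : α → ℕ} (hM : Primrec M) : Primrec fun a => K0 (M a) := by
  unfold K0
  exact pr_add (pr_mul (pr_c 6) hM) (pr_c 2)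

private theorem pr_DD {m n : α → ℕ} (hm : Primrec m) (hn : Primrec n) :
    Primrec fun a => DD (m a) (n a) := by
  unfold DD
  exact pr_add (pr_add (pr_mul (pr_c 2) hm) (pr_mul (pr_c 2) hn)) (pr_c 1)

private theorem pr_HH {M m n : α → ℕ} (hM : Primrec M) (hm : Primrec m) (hn : Primrec n) :
    Primrec fun a => HH (M a) (m a) (n a) := by
  unfold HH
  exact pr_add (pr_c 2) (pr_mul (pr_mul (pr_pow (pr_add (pr_add hm hn) (pr_c 1)) (pr_c 2))
    (pr_K0 hM)) (pr_pow (pr_mul (pr_detB (pr_K0 hM) hm) (pr_detB (pr_K0 hM) hn)) (pr_c 2)))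

private theorem pr_QQ {M m n : α → ℕ} (hM : Primrec M) (hm : Primrec m) (hn : Primrec n) :
    Primrec fun a => QQ (M a) (m a) (n a) := by
  unfold QQ
  exact pr_samB (pr_DD hm hn) (pr_HH hM hm hn)

private theorem pr_intB {K m n : α → ℕ} (hK : Primrec K) (hm : Primrec m) (hn : Primrec n) :
    Primrec fun a => intB (K a) (m a) (n a) := by
  unfold intB
  have h1 : Primrec fun a => 2 * K a + 1 := pr_add (pr_mul (pr_c 2) hK) (pr_c 1)
  have h2 : Primrec fun a => detB (2 * K a + 1) (m a) * detB (2 * K a + 1) (n a) :=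
    pr_mul (pr_detB h1 hm) (pr_detB h1 hn)
  exact pr_mul (pr_mul (pr_c 2) (pr_add (pr_c 1) (pr_mul (pr_c 3)
    (pr_mul (pr_mul (pr_mul hm hn) hK) (pr_pow h2 (pr_c 4)))))) (pr_pow h2 (pr_c 2))

private theorem pr_bd {M m n : α → ℕ} (hM : Primrec M) (hm : Primrec m) (hn : Primrec n) :
    Primrec fun a => bd (M a) (m a) (n a) := by
  unfold bd
  exact pr_add (pr_mul (pr_c 2) (pr_QQ hM hm hn))
    (pr_intB (pr_add (pr_mul (pr_QQ hM hm hn) hM) hM) hm hn)

private theorem pr_BB {M l m n : α → ℕ} (hM : Primrec M) (hl : Primrec l) (hm : Primrec m)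
    (hn : Primrec n) : Primrec fun a => BB (M a) (l a) (m a) (n a) := by
  unfold BB
  exact pr_add (pr_add (pr_bd hM hm hn) (pr_bd hM hl hn)) (pr_bd hM hm hl)

private theorem pr_dig {q N i : α → ℕ} (hq : Primrec q) (hN : Primrec N) (hi : Primrec i) :
    Primrec fun a => dig (q a) (N a) (i a) := by
  unfold dig
  exact pr_mod (pr_div hN (pr_pow hq hi)) hq

private theorem pr_g1 {g : α → Gm} (hg : Primrec g) : Primrec fun x => (g x).1 :=
  Primrec.fst.comp hg

private theorem pr_g2 {g : α → Gm} (hg : Primrec g) : Primrec fun x => (g x).2.1 :=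
  Primrec.fst.comp (Primrec.snd.comp hg)

private theorem pr_g3 {g : α → Gm} (hg : Primrec g) : Primrec fun x => (g x).2.2.1 :=
  Primrec.fst.comp (Primrec.snd.comp (Primrec.snd.comp hg))

private theorem pr_g4 {g : α → Gm} (hg : Primrec g) : Primrec fun x => (g x).2.2.2 :=
  Primrec.snd.comp (Primrec.snd.comp (Primrec.snd.comp hg))

private theorem pr_bas {g : α → Gm} (hg : Primrec g) : Primrec fun x => bas (g x) := by
  unfold bas
  exact pr_add (pr_BB (pr_lsum (pr_g4 hg)) (pr_g1 hg) (pr_g2 hg) (pr_g3 hg)) (pr_c 1)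

private theorem pr_pay {g : α → Gm} {i a b c : α → ℕ} (hg : Primrec g) (hi : Primrec i)
    (ha : Primrec a) (hb : Primrec b) (hc : Primrec c) :
    Primrec fun x => pay (g x) (i x) (a x) (b x) (c x) := by
  unfold pay
  exact (Primrec.list_getD 0).comp (pr_g4 hg) (pr_add (pr_mul (pr_add (pr_mul (pr_add
    (pr_mul hi (pr_g1 hg)) ha) (pr_g2 hg)) hb) (pr_g3 hg)) hc)

private theorem pr_wX {g : α → Gm} {N a : α → ℕ} (hg : Primrec g) (hN : Primrec N)
    (ha : Primrec a) : Primrec fun x => wX (g x) (N x) (a x) := by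
  unfold wX
  exact pr_dig (pr_bas hg) hN ha

private theorem pr_wY {g : α → Gm} {N a : α → ℕ} (hg : Primrec g) (hN : Primrec N)
    (ha : Primrec a) : Primrec fun x => wY (g x) (N x) (a x) := by
  unfold wY
  exact pr_dig (pr_bas hg) hN (pr_add (pr_g1 hg) ha)

private theorem pr_wZ {g : α → Gm} {N a : α → ℕ} (hg : Primrec g) (hN : Primrec N)
    (ha : Primrec a) : Primrec fun x => wZ (g x) (N x) (a x) := by
  unfold wZ
  exact pr_dig (pr_bas hg) hN (pr_add (pr_add (pr_g1 hg) (pr_g2 hg)) ha)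

private theorem pr_sX {g : α → Gm} {N : α → ℕ} (hg : Primrec g) (hN : Primrec N) :
    Primrec fun x => ∑ a ∈ Finset.range (g x).1, wX (g x) (N x) a :=
  prim_sum (pr_g1 hg) (pr_wX (hg.comp Primrec.fst) (hN.comp Primrec.fst) Primrec.snd)

private theorem pr_sY {g : α → Gm} {N : α → ℕ} (hg : Primrec g) (hN : Primrec N) :
    Primrec fun x => ∑ a ∈ Finset.range (g x).2.1, wY (g x) (N x) a :=
  prim_sum (pr_g2 hg) (pr_wY (hg.comp Primrec.fst) (hN.comp Primrec.fst) Primrec.snd)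

private theorem pr_sZ {g : α → Gm} {N : α → ℕ} (hg : Primrec g) (hN : Primrec N) :
    Primrec fun x => ∑ a ∈ Finset.range (g x).2.2.1, wZ (g x) (N x) a :=
  prim_sum (pr_g3 hg) (pr_wZ (hg.comp Primrec.fst) (hN.comp Primrec.fst) Primrec.snd)

private theorem pr_tot {g : α → Gm} {N i : α → ℕ} (hg : Primrec g) (hN : Primrec N)
    (hi : Primrec i) : Primrec fun x => tot (g x) (N x) (i x) := by
  unfold tot
  have f1 : Primrec (Prod.fst : α × ℕ → α) := Primrec.fst
  have f2 : Primrec (fun p : (α × ℕ) × ℕ => p.1.1) := Primrec.fst.comp Primrec.fst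
  have f3 : Primrec (fun p : ((α × ℕ) × ℕ) × ℕ => p.1.1.1) :=
    Primrec.fst.comp (Primrec.fst.comp Primrec.fst)
  have va : Primrec (fun p : ((α × ℕ) × ℕ) × ℕ => p.1.1.2) :=
    Primrec.snd.comp (Primrec.fst.comp Primrec.fst)
  have vb : Primrec (fun p : ((α × ℕ) × ℕ) × ℕ => p.1.2) := Primrec.snd.comp Primrec.fst
  have vc : Primrec (fun p : ((α × ℕ) × ℕ) × ℕ => p.2) := Primrec.snd
  refine prim_sum (pr_g1 hg) ?_
  refine prim_sum (pr_g2 (hg.comp f1)) ?_
  refine prim_sum (pr_g3 (hg.comp f2)) ?_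
  exact pr_mul (pr_mul (pr_mul (pr_wX (hg.comp f3) (hN.comp f3) va)
    (pr_wY (hg.comp f3) (hN.comp f3) vb)) (pr_wZ (hg.comp f3) (hN.comp f3) vc))
    (pr_pay (hg.comp f3) (hi.comp f3) va vb vc)

private theorem pr_n1 {g : α → Gm} {N : α → ℕ} (hg : Primrec g) (hN : Primrec N) :
    PrimrecPred fun x => ∀ a₀ < (g x).1, (∑ a ∈ Finset.range (g x).1, wX (g x) (N x) a) *
    ∑ b ∈ Finset.range (g x).2.1, ∑ c ∈ Finset.range (g x).2.2.1,
      wY (g x) (N x) b * wZ (g x) (N x) c * pay (g x) 0 a₀ b c ≤ tot (g x) (N x) 0 := by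
  have f1 : Primrec (Prod.fst : α × ℕ → α) := Primrec.fst
  have f2 : Primrec (fun p : (α × ℕ) × ℕ => p.1.1) := Primrec.fst.comp Primrec.fst
  have f3 : Primrec (fun p : ((α × ℕ) × ℕ) × ℕ => p.1.1.1) :=
    Primrec.fst.comp (Primrec.fst.comp Primrec.fst)
  have va : Primrec (fun p : ((α × ℕ) × ℕ) × ℕ => p.1.1.2) :=
    Primrec.snd.comp (Primrec.fst.comp Primrec.fst)
  have vb : Primrec (fun p : ((α × ℕ) × ℕ) × ℕ => p.1.2) := Primrec.snd.comp Primrec.fst
  have vc : Primrec (fun p : ((α × ℕ) × ℕ) × ℕ => p.2) := Primrec.snd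
  refine pr_ball (pr_g1 hg) ?_
  refine Primrec.nat_le.comp (pr_mul (pr_sX (hg.comp f1) (hN.comp f1)) ?_)
    (pr_tot (hg.comp f1) (hN.comp f1) (pr_c 0))
  refine prim_sum (pr_g2 (hg.comp f1)) ?_
  refine prim_sum (pr_g3 (hg.comp f2)) ?_
  exact pr_mul (pr_mul (pr_wY (hg.comp f3) (hN.comp f3) vb)
    (pr_wZ (hg.comp f3) (hN.comp f3) vc)) (pr_pay (hg.comp f3) (pr_c 0) va vb vc)

private theorem pr_n2 {g : α → Gm} {N : α → ℕ} (hg : Primrec g) (hN : Primrec N) :
    PrimrecPred fun x => ∀ b₀ < (g x).2.1, (∑ a ∈ Finset.range (g x).2.1, wY (g x) (N x) a) *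
    ∑ a ∈ Finset.range (g x).1, ∑ c ∈ Finset.range (g x).2.2.1,
      wX (g x) (N x) a * wZ (g x) (N x) c * pay (g x) 1 a b₀ c ≤ tot (g x) (N x) 1 := by
  have f1 : Primrec (Prod.fst : α × ℕ → α) := Primrec.fst
  have f2 : Primrec (fun p : (α × ℕ) × ℕ => p.1.1) := Primrec.fst.comp Primrec.fst
  have f3 : Primrec (fun p : ((α × ℕ) × ℕ) × ℕ => p.1.1.1) :=
    Primrec.fst.comp (Primrec.fst.comp Primrec.fst)
  have va : Primrec (fun p : ((α × ℕ) × ℕ) × ℕ => p.1.1.2) :=
    Primrec.snd.comp (Primrec.fst.comp Primrec.fst)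
  have vb : Primrec (fun p : ((α × ℕ) × ℕ) × ℕ => p.1.2) := Primrec.snd.comp Primrec.fst
  have vc : Primrec (fun p : ((α × ℕ) × ℕ) × ℕ => p.2) := Primrec.snd
  refine pr_ball (pr_g2 hg) ?_
  refine Primrec.nat_le.comp (pr_mul (pr_sY (hg.comp f1) (hN.comp f1)) ?_)
    (pr_tot (hg.comp f1) (hN.comp f1) (pr_c 1))
  refine prim_sum (pr_g1 (hg.comp f1)) ?_
  refine prim_sum (pr_g3 (hg.comp f2)) ?_
  exact pr_mul (pr_mul (pr_wX (hg.comp f3) (hN.comp f3) vb)
    (pr_wZ (hg.comp f3) (hN.comp f3) vc)) (pr_pay (hg.comp f3) (pr_c 1) vb va vc)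

private theorem pr_n3 {g : α → Gm} {N : α → ℕ} (hg : Primrec g) (hN : Primrec N) :
    PrimrecPred fun x => ∀ c₀ < (g x).2.2.1, (∑ a ∈ Finset.range (g x).2.2.1, wZ (g x) (N x) a) *
    ∑ a ∈ Finset.range (g x).1, ∑ b ∈ Finset.range (g x).2.1,
      wX (g x) (N x) a * wY (g x) (N x) b * pay (g x) 2 a b c₀ ≤ tot (g x) (N x) 2 := by
  have f1 : Primrec (Prod.fst : α × ℕ → α) := Primrec.fst
  have f2 : Primrec (fun p : (α × ℕ) × ℕ => p.1.1) := Primrec.fst.comp Primrec.fst
  have f3 : Primrec (fun p : ((α × ℕ) × ℕ) × ℕ => p.1.1.1) :=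
    Primrec.fst.comp (Primrec.fst.comp Primrec.fst)
  have va : Primrec (fun p : ((α × ℕ) × ℕ) × ℕ => p.1.1.2) :=
    Primrec.snd.comp (Primrec.fst.comp Primrec.fst)
  have vb : Primrec (fun p : ((α × ℕ) × ℕ) × ℕ => p.1.2) := Primrec.snd.comp Primrec.fst
  have vc : Primrec (fun p : ((α × ℕ) × ℕ) × ℕ => p.2) := Primrec.snd
  refine pr_ball (pr_g3 hg) ?_
  refine Primrec.nat_le.comp (pr_mul (pr_sZ (hg.comp f1) (hN.comp f1)) ?_)
    (pr_tot (hg.comp f1) (hN.comp f1) (pr_c 2))
  refine prim_sum (pr_g1 (hg.comp f1)) ?_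
  refine prim_sum (pr_g2 (hg.comp f2)) ?_
  exact pr_mul (pr_mul (pr_wX (hg.comp f3) (hN.comp f3) vb)
    (pr_wY (hg.comp f3) (hN.comp f3) vc)) (pr_pay (hg.comp f3) (pr_c 2) vb vc va)

private theorem pr_chk {g : α → Gm} {N : α → ℕ} (hg : Primrec g) (hN : Primrec N) :
    PrimrecPred fun x => Chk (g x) (N x) := by
  unfold Chk
  have h0 : Primrec fun _ : α => (0 : ℕ) := Primrec.const 0
  exact (Primrec.nat_lt.comp h0 (pr_sX hg hN)).and <|
    (Primrec.nat_lt.comp h0 (pr_sY hg hN)).and <|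
    (Primrec.nat_lt.comp h0 (pr_sZ hg hN)).and <|
    (pr_n1 hg hN).and <| (pr_n2 hg hN).and (pr_n3 hg hN)

end

theorem prim_srch : PrimrecPred Srch := by
  unfold Srch Sml
  have hid : Primrec (fun g : Gm => g) := Primrec.id
  refine PrimrecPred.and ?_ ?_
  · exact (Primrec.nat_le.comp (pr_g1 hid) (Primrec.const 2)).or <|
      (Primrec.nat_le.comp (pr_g2 hid) (Primrec.const 2)).or
      (Primrec.nat_le.comp (pr_g3 hid) (Primrec.const 2))
  · refine pr_bex (pr_pow (pr_bas hid) (pr_add (pr_add (pr_g1 hid) (pr_g2 hid)) (pr_g3 hid))) ?_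
    exact pr_chk Primrec.fst Primrec.snd

end Pool.Agent.Work.MP_9d4f6b_lc
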