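import Pool.Agent.Work.MP_9d4f6b_lc.Cone

/-!
MODULE COMB. From rays to a solution. Let (d, e) be the rays for P0, (d', e') those for P1,
r = ray d, q = ray e, r' = ray d', q' = ray e' (nonzero nonnegative vectors of the two cones by
cone_LL, ray_ne), a = bil r q, a' = bil r' q', g = bil r' q.
Not P1: y = r, z = q. Not P0: y = r', z = q'. Both, so a ≥ 0 ≥ a': if g ≤ 0 and (a, g) ≠ (0, 0):
y = a r' + (-g) r, z = q, bil y z = a g - g a = 0; if a = 0: y = r, z = q; if g > 0: y = r',
z = g q' + (-a') q, bil y z = 0. By cone_LL (cones are closed under nonnegative combinations)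
Sol holds: if y b ≠ 0 then b in S, so b is a best response to z, etc. The coefficients are between
0 and 1 + 3 Kf. For sol_of_raySol' use bounds that exist because everything is finite.
-/

set_option linter.unusedVariables false
set_option linter.style.longLine false

namespace Pool.Agent.Work.MP_9d4f6b_lc

open Polynomial

section
variable {R : Type} [CommRing R] [LinearOrder R] [IsStrictOrderedRing R] {B C : Type} [Fintype B]
  [Fintype C] [DecidableEq B] [DecidableEq C]

private theorem inC_comb {J N : Type} [Fintype N] (L : Matrix J N R) (r r' : N → R) (α β : R)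
    (hα : 0 ≤ α) (hβ : 0 ≤ β) (h : ∀ j, 0 ≤ ∑ i, L j i * r i) (h' : ∀ j, 0 ≤ ∑ i, L j i * r' i) :
    ∀ j, 0 ≤ ∑ i, L j i * (α * r i + β * r' i) := by
  intro j
  have e : ∑ i, L j i * (α * r i + β * r' i) = α * ∑ i, L j i * r i + β * ∑ i, L j i * r' i := by
    rw [Finset.mul_sum, Finset.mul_sum, ← Finset.sum_add_distrib]
    exact Finset.sum_congr rfl fun i _ => by ring
  rw [e]
  exact add_nonneg (mul_nonneg hα (h j)) (mul_nonneg hβ (h' j))

private theorem bil_left (D : B → C → R) (r r' : B → R) (z : C → R) (α β : R) :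
    bil D (fun b => α * r b + β * r' b) z = α * bil D r z + β * bil D r' z := by
  unfold bil
  rw [Finset.mul_sum, Finset.mul_sum, ← Finset.sum_add_distrib]
  refine Finset.sum_congr rfl fun b _ => ?_
  rw [Finset.mul_sum, Finset.mul_sum, ← Finset.sum_add_distrib]
  exact Finset.sum_congr rfl fun c _ => by ring

private theorem bil_right (D : B → C → R) (y : B → R) (q q' : C → R) (α β : R) :
    bil D y (fun c => α * q c + β * q' c) = α * bil D y q + β * bil D y q' := by
  unfold bil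
  rw [Finset.mul_sum, Finset.mul_sum, ← Finset.sum_add_distrib]
  refine Finset.sum_congr rfl fun b _ => ?_
  rw [Finset.mul_sum, Finset.mul_sum, ← Finset.sum_add_distrib]
  exact Finset.sum_congr rfl fun c _ => by ring

private theorem mk_sol (u2 u3 D : B → C → R) (P0 P1 : Prop) (S : Finset B) (T : Finset C)
    (y : B → R) (z : C → R) (hy : ∀ j, 0 ≤ ∑ i, LL u3 S T j i * y i)
    (hz : ∀ j, 0 ≤ ∑ i, LL (tr u2) T S j i * z i) (hyn : ∃ b, y b ≠ 0) (hzn : ∃ c, z c ≠ 0)
    (h0 : P0 → 0 ≤ bil D y z) (h1 : P1 → bil D y z ≤ 0) : Sol u2 u3 D P0 P1 y z := by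
  obtain ⟨a1, a2, a3⟩ := (cone_LL u3 S T y).1 hy
  obtain ⟨b1, b2, b3⟩ := (cone_LL (tr u2) T S z).1 hz
  refine ⟨a1, hyn, b1, hzn, ?_, ?_, h0, h1⟩
  · intro b hb b'
    have hbS : b ∈ S := by
      by_contra h
      exact hb (a2 b h)
    exact b3 b hbS b'
  · intro c hc c'
    have hcT : c ∈ T := by
      by_contra h
      exact hc (b2 c h)
    exact a3 c hcT c'

private theorem comb_le (K F r r' α β : R) (hr0 : 0 ≤ r) (hr : r ≤ K) (hr0' : 0 ≤ r')
    (hr' : r' ≤ K) (hα0 : 0 ≤ α) (hβ0 : 0 ≤ β) (hα : α ≤ 1 + 3 * F) (hβ : β ≤ 1 + 3 * F) :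
    α * r + β * r' ≤ 2 * (1 + 3 * F) * K := by
  have h1 : α * r ≤ (1 + 3 * F) * K := mul_le_mul hα hr hr0 (hα0.trans hα)
  have h2 : β * r' ≤ (1 + 3 * F) * K := mul_le_mul hβ hr' hr0' (hβ0.trans hβ)
  linarith

theorem sol_of_raySol (u2 u3 D : B → C → R) (P0 P1 : Prop) (hP : P0 ∨ P1)
    (h : RaySol u2 u3 D P0 P1) (Kr Kf : R)
    (hr : ∀ (S : Finset B) (T : Finset C) d b, ray (LL u3 S T) d b ≤ Kr)
    (hr' : ∀ (S : Finset B) (T : Finset C) e c, ray (LL (tr u2) T S) e c ≤ Kr)
    (hf : ∀ (S S' : Finset B) (T T' : Finset C) d e,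
      |bil D (ray (LL u3 S T) d) (ray (LL (tr u2) T' S') e)| ≤ Kf) :
    ∃ y z, Sol u2 u3 D P0 P1 y z ∧ (∀ b, y b ≤ 2 * (1 + 3 * Kf) * Kr) ∧
      ∀ c, z c ≤ 2 * (1 + 3 * Kf) * Kr := by
  obtain ⟨S, T, c0, c1⟩ := h
  have nnY : ∀ d, IsRay (LL u3 S T) d → ∀ b, 0 ≤ ray (LL u3 S T) d b := fun d hd =>
    ((cone_LL u3 S T _).1 hd.2).1
  have nnZ : ∀ e, IsRay (LL (tr u2) T S) e → ∀ c, 0 ≤ ray (LL (tr u2) T S) e c := fun e he =>
    ((cone_LL (tr u2) T S _).1 he.2).1
  -- a single pair of rays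
  have single : ∀ d e, IsRay (LL u3 S T) d → IsRay (LL (tr u2) T S) e →
      (P0 → 0 ≤ bil D (ray (LL u3 S T) d) (ray (LL (tr u2) T S) e)) →
      (P1 → bil D (ray (LL u3 S T) d) (ray (LL (tr u2) T S) e) ≤ 0) →
      ∃ y z, Sol u2 u3 D P0 P1 y z ∧ (∀ b, y b ≤ 2 * (1 + 3 * Kf) * Kr) ∧
      ∀ c, z c ≤ 2 * (1 + 3 * Kf) * Kr := by
    intro d e hd he s0 s1
    have hKf : 0 ≤ Kf := (abs_nonneg _).trans (hf S S T T d e)
    refine ⟨ray (LL u3 S T) d, ray (LL (tr u2) T S) e,
      mk_sol u2 u3 D P0 P1 S T _ _ hd.2 he.2 (ray_ne _ d hd) (ray_ne _ e he) s0 s1, ?_, ?_⟩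
    · intro b
      have := comb_le Kr Kf _ _ 1 0 (nnY d hd b) (hr S T d b) (nnY d hd b) (hr S T d b)
        zero_le_one le_rfl (by linarith) (by linarith)
      linarith
    · intro c
      have := comb_le Kr Kf _ _ 1 0 (nnZ e he c) (hr' S T e c) (nnZ e he c) (hr' S T e c)
        zero_le_one le_rfl (by linarith) (by linarith)
      linarith
  by_cases p1 : P1
  · obtain ⟨d', e', hd', he', s1⟩ := c1 p1
    by_cases p0 : P0
    · obtain ⟨d, e, hd, he, s0⟩ := c0 p0
      have hKf : 0 ≤ Kf := (abs_nonneg _).trans (hf S S T T d e)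
      rcases le_or_gt (bil D (ray (LL u3 S T) d') (ray (LL (tr u2) T S) e)) 0 with hg | hg
      · rcases s0.eq_or_lt with ha | ha
        · exact single d e hd he (fun _ => s0) (fun _ => ha.ge)
        · have ka := (abs_le.1 (hf S S T T d e)).2
          have kg := (abs_le.1 (hf S S T T d' e)).1
          refine ⟨fun b => -(bil D (ray (LL u3 S T) d') (ray (LL (tr u2) T S) e)) *
              ray (LL u3 S T) d b + bil D (ray (LL u3 S T) d) (ray (LL (tr u2) T S) e) *
              ray (LL u3 S T) d' b, ray (LL (tr u2) T S) e, ?_, ?_, ?_⟩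
          · have hz : bil D (fun b => -(bil D (ray (LL u3 S T) d') (ray (LL (tr u2) T S) e)) *
              ray (LL u3 S T) d b + bil D (ray (LL u3 S T) d) (ray (LL (tr u2) T S) e) *
              ray (LL u3 S T) d' b) (ray (LL (tr u2) T S) e) = 0 := by
              rw [bil_left]
              ring
            refine mk_sol u2 u3 D P0 P1 S T _ _
              (inC_comb _ _ _ _ _ (by linarith) s0 hd.2 hd'.2) he.2 ?_ (ray_ne _ e he)
              (fun _ => hz.ge) (fun _ => hz.le)
            obtain ⟨b, hb⟩ := ray_ne _ d' hd'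
            refine ⟨b, ne_of_gt ?_⟩
            have hb' : 0 < ray (LL u3 S T) d' b := lt_of_le_of_ne (nnY d' hd' b) (Ne.symm hb)
            have k1 := mul_pos ha hb'
            have k2 : 0 ≤ -(bil D (ray (LL u3 S T) d') (ray (LL (tr u2) T S) e)) *
              ray (LL u3 S T) d b := mul_nonneg (by linarith) (nnY d hd b)
            linarith
          · intro b
            exact comb_le Kr Kf _ _ _ _ (nnY d hd b) (hr S T d b) (nnY d' hd' b) (hr S T d' b)
              (by linarith) s0 (by linarith) (by linarith)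
          · intro c
            have := comb_le Kr Kf _ _ 1 0 (nnZ e he c) (hr' S T e c) (nnZ e he c) (hr' S T e c)
              zero_le_one le_rfl (by linarith) (by linarith)
            linarith
      · have kg := (abs_le.1 (hf S S T T d' e)).2
        have ka := (abs_le.1 (hf S S T T d' e')).1
        refine ⟨ray (LL u3 S T) d', fun c => -(bil D (ray (LL u3 S T) d')
          (ray (LL (tr u2) T S) e')) * ray (LL (tr u2) T S) e c +
          bil D (ray (LL u3 S T) d') (ray (LL (tr u2) T S) e) * ray (LL (tr u2) T S) e' c,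
          ?_, ?_, ?_⟩
        · have hz : bil D (ray (LL u3 S T) d') (fun c => -(bil D (ray (LL u3 S T) d')
              (ray (LL (tr u2) T S) e')) * ray (LL (tr u2) T S) e c +
              bil D (ray (LL u3 S T) d') (ray (LL (tr u2) T S) e) *
              ray (LL (tr u2) T S) e' c) = 0 := by
            rw [bil_right]
            ring
          refine mk_sol u2 u3 D P0 P1 S T _ _ hd'.2
            (inC_comb _ _ _ _ _ (by linarith) hg.le he.2 he'.2) (ray_ne _ d' hd') ?_
            (fun _ => hz.ge) (fun _ => hz.le)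
          obtain ⟨c, hc⟩ := ray_ne _ e' he'
          refine ⟨c, ne_of_gt ?_⟩
          have hc' : 0 < ray (LL (tr u2) T S) e' c := lt_of_le_of_ne (nnZ e' he' c) (Ne.symm hc)
          have k1 := mul_pos hg hc'
          have k2 : 0 ≤ -(bil D (ray (LL u3 S T) d') (ray (LL (tr u2) T S) e')) *
            ray (LL (tr u2) T S) e c := mul_nonneg (by linarith) (nnZ e he c)
          linarith
        · intro b
          have := comb_le Kr Kf _ _ 1 0 (nnY d' hd' b) (hr S T d' b) (nnY d' hd' b) (hr S T d' b)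
            zero_le_one le_rfl (by linarith) (by linarith)
          linarith
        · intro c
          exact comb_le Kr Kf _ _ _ _ (nnZ e he c) (hr' S T e c) (nnZ e' he' c) (hr' S T e' c)
            (by linarith) hg.le (by linarith) (by linarith)
    · exact single d' e' hd' he' (fun p => absurd p p0) (fun _ => s1)
  · have p0 : P0 := hP.resolve_right p1
    obtain ⟨d, e, hd, he, s0⟩ := c0 p0
    exact single d e hd he (fun _ => s0) (fun p => absurd p p1)

theorem sol_of_raySol' (u2 u3 D : B → C → R) (P0 P1 : Prop) (hP : P0 ∨ P1)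
    (h : RaySol u2 u3 D P0 P1) : ∃ y z, Sol u2 u3 D P0 P1 y z := by
  obtain ⟨K1, hK1⟩ := (Set.finite_range (fun x : Finset B × Finset C ×
    ((B → B ⊕ B ⊕ (C × C)) × B) × B => ray (LL u3 x.1 x.2.1) x.2.2.1 x.2.2.2)).bddAbove
  obtain ⟨K2, hK2⟩ := (Set.finite_range (fun x : Finset B × Finset C ×
    ((C → C ⊕ C ⊕ (B × B)) × C) × C => ray (LL (tr u2) x.2.1 x.1) x.2.2.1 x.2.2.2)).bddAbove
  obtain ⟨K3, hK3⟩ := (Set.finite_range (fun x : Finset B × Finset B × Finset C × Finset C ×
    ((B → B ⊕ B ⊕ (C × C)) × B) × ((C → C ⊕ C ⊕ (B × B)) × C) =>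
      |bil D (ray (LL u3 x.1 x.2.2.1) x.2.2.2.2.1)
        (ray (LL (tr u2) x.2.2.2.1 x.2.1) x.2.2.2.2.2)|)).bddAbove
  obtain ⟨y, z, hs, -⟩ := sol_of_raySol u2 u3 D P0 P1 hP h (max K1 K2) K3
    (fun S T d b => (hK1 ⟨(S, T, d, b), rfl⟩).trans (le_max_left _ _))
    (fun S T e c => (hK2 ⟨(S, T, e, c), rfl⟩).trans (le_max_right _ _))
    (fun S S' T T' d e => hK3 ⟨(S, S', T, T', d, e), rfl⟩)
  exact ⟨y, z, hs⟩

end

end Pool.Agent.Work.MP_9d4f6b_lc
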