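import Pool.Agent.Work.MP_9d4f6b_lc.RayDec

/-!
MODULE CONE. cone_LL: unfold LL, split the index j (Finset.sum_ite_eq etc.).
rays_of_sol: S = supp y, T = supp z; y is in the cone of LL u3 S T, z in the cone of LL (tr u2) T S.
ray_decomp: y = sum w d ray d, z = sum w' e ray e, bil D y z = sum of w d * w' e * bil (ray d) (ray e).
If P0 then this is ≥ 0, and since y, z ≠ 0 some w d * w' e > 0 with bil ≥ 0 (if all terms with
positive weight were negative the sum would be negative; some w d > 0 as y ≠ 0). Same for P1.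
The rays in the other direction: ray_mem: a ray d with IsRay is a nonzero vector of the cone
(W * ray = (det W)^2 e_(d.2)).
-/

set_option linter.unusedVariables false
set_option linter.style.longLine false

namespace Pool.Agent.Work.MP_9d4f6b_lc

open Polynomial

section
variable {R : Type} [CommRing R] [LinearOrder R] [IsStrictOrderedRing R] {B C : Type} [Fintype B]
  [Fintype C] [DecidableEq B] [DecidableEq C]

theorem cone_LL (u : B → C → R) (S : Finset B) (T : Finset C) (v : B → R) :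
    (∀ j, 0 ≤ ∑ i, LL u S T j i * v i) ↔ (∀ b, 0 ≤ v b) ∧ (∀ b, b ∉ S → v b = 0) ∧
      ∀ c ∈ T, ∀ c', ∑ b, v b * u b c' ≤ ∑ b, v b * u b c := by
  have h1 : ∀ b, ∑ i, LL u S T (Sum.inl b) i * v i = v b := by
    intro b
    simp [LL]
  have h2 : ∀ b, ∑ i, LL u S T (Sum.inr (Sum.inl b)) i * v i = if b ∈ S then 0 else -v b := by
    intro b
    by_cases hb : b ∈ S
    · simp [LL, hb]
    · simp [LL, hb]
  have h3 : ∀ c c', ∑ i, LL u S T (Sum.inr (Sum.inr (c, c'))) i * v i =
      if c ∈ T then (∑ b, v b * u b c) - ∑ b, v b * u b c' else 0 := by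
    intro c c'
    by_cases hc : c ∈ T
    · simp only [LL, hc, if_true]
      rw [← Finset.sum_sub_distrib]
      refine Finset.sum_congr rfl fun b _ => ?_
      ring
    · simp [LL, hc]
  constructor
  · intro h
    refine ⟨fun b => ?_, fun b hb => ?_, fun c hc c' => ?_⟩
    · have := h (Sum.inl b)
      rwa [h1] at this
    · have k1 := h (Sum.inl b)
      have k2 := h (Sum.inr (Sum.inl b))
      rw [h1] at k1
      rw [h2, if_neg hb] at k2
      exact le_antisymm (by linarith) k1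
    · have k3 := h (Sum.inr (Sum.inr (c, c')))
      rw [h3, if_pos hc] at k3
      linarith
  · rintro ⟨k1, k2, k3⟩ (b | b | ⟨c, c'⟩)
    · rw [h1]
      exact k1 b
    · rw [h2]
      split_ifs with hb
      · exact le_rfl
      · rw [k2 b hb, neg_zero]
    · rw [h3]
      split_ifs with hc
      · have := k3 c hc c'
        linarith
      · exact le_rfl

theorem ray_ne {J N : Type} [Fintype N] [DecidableEq N] (L : Matrix J N R) (d : (N → J) × N)
    (h : IsRay L d) : ∃ i, ray L d i ≠ 0 := by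
  by_contra hcon
  push Not at hcon
  have h1 : (L.submatrix d.1 id).mulVec (ray L d) = 0 := by
    have : ray L d = 0 := funext hcon
    rw [this, Matrix.mulVec_zero]
  have h2 : ((L.submatrix d.1 id) * (L.submatrix d.1 id).adjugate) d.2 d.2 = rayD L d := by
    rw [Matrix.mul_adjugate, Matrix.smul_apply, Matrix.one_apply_eq, smul_eq_mul, mul_one]
    rfl
  have h3 : ((L.submatrix d.1 id).mulVec (ray L d)) d.2 = rayD L d * rayD L d := by
    have h4 : ((L.submatrix d.1 id).mulVec (ray L d)) d.2 =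
        rayD L d * ((L.submatrix d.1 id) * (L.submatrix d.1 id).adjugate) d.2 d.2 := by
      rw [Matrix.mul_apply, Finset.mul_sum]
      refine Finset.sum_congr rfl fun i _ => ?_
      show _ * (rayD L d * _) = _
      ring
    rw [h4, h2]
  rw [h1] at h3
  exact mul_self_ne_zero.2 h.1 h3.symm

end

private theorem bil_sum {B C I I' : Type} [Fintype B] [Fintype C] [Fintype I] [Fintype I']
    (D : B → C → ℚ) (w : I → ℚ) (w' : I' → ℚ) (r : I → B → ℚ) (r' : I' → C → ℚ) :
    bil D (∑ d, w d • r d) (∑ e, w' e • r' e) = ∑ d, ∑ e, w d * w' e * bil D (r d) (r' e) := by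
  unfold bil
  have h1 : ∀ b c, D b c * (∑ d, w d • r d) b * (∑ e, w' e • r' e) c =
      ∑ d, ∑ e, w d * w' e * (D b c * r d b * r' e c) := by
    intro b c
    rw [Finset.sum_apply, Finset.sum_apply, Finset.mul_sum, Finset.mul_sum, Finset.sum_comm]
    refine Finset.sum_congr rfl fun e _ => ?_
    rw [Finset.sum_mul]
    refine Finset.sum_congr rfl fun d _ => ?_
    simp only [Pi.smul_apply, smul_eq_mul]
    ring
  simp_rw [h1, Finset.mul_sum]
  calc ∑ b, ∑ c, ∑ d, ∑ e, w d * w' e * (D b c * r d b * r' e c)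
      = ∑ b, ∑ d, ∑ c, ∑ e, w d * w' e * (D b c * r d b * r' e c) :=
        Finset.sum_congr rfl fun b _ => Finset.sum_comm
    _ = ∑ d, ∑ b, ∑ c, ∑ e, w d * w' e * (D b c * r d b * r' e c) := Finset.sum_comm
    _ = ∑ d, ∑ b, ∑ e, ∑ c, w d * w' e * (D b c * r d b * r' e c) :=
        Finset.sum_congr rfl fun d _ => Finset.sum_congr rfl fun b _ => Finset.sum_comm
    _ = _ := Finset.sum_congr rfl fun d _ => Finset.sum_comm

private theorem find_pos {B C I I' : Type} [Fintype B] [Fintype C] [Fintype I] [Fintype I']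
    (D : B → C → ℚ) (w : I → ℚ) (w' : I' → ℚ) (r : I → B → ℚ) (r' : I' → C → ℚ)
    (hw : ∀ d, 0 ≤ w d) (hw' : ∀ e, 0 ≤ w' e) (h1 : ∃ d, w d ≠ 0) (h2 : ∃ e, w' e ≠ 0)
    (h : 0 ≤ bil D (∑ d, w d • r d) (∑ e, w' e • r' e)) :
    ∃ d e, w d ≠ 0 ∧ w' e ≠ 0 ∧ 0 ≤ bil D (r d) (r' e) := by
  by_contra hcon
  push Not at hcon
  rw [bil_sum] at h
  obtain ⟨d0, hd0⟩ := h1
  obtain ⟨e0, he0⟩ := h2
  have hle : ∀ d e, w d * w' e * bil D (r d) (r' e) ≤ 0 := by
    intro d e
    by_cases k1 : w d = 0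
    · rw [k1]; simp
    by_cases k2 : w' e = 0
    · rw [k2]; simp
    have := hcon d e k1 k2
    exact mul_nonpos_of_nonneg_of_nonpos (mul_nonneg (hw d) (hw' e)) this.le
  have hlt : w d0 * w' e0 * bil D (r d0) (r' e0) < 0 := by
    have := hcon d0 e0 hd0 he0
    exact mul_neg_of_pos_of_neg (mul_pos (lt_of_le_of_ne (hw d0) (Ne.symm hd0))
      (lt_of_le_of_ne (hw' e0) (Ne.symm he0))) this
  have hsum : ∑ d, ∑ e, w d * w' e * bil D (r d) (r' e) < 0 := by
    refine Finset.sum_neg' (fun d _ => Finset.sum_nonpos fun e _ => hle d e) ⟨d0, Finset.mem_univ _, ?_⟩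
    exact Finset.sum_neg' (fun e _ => hle d0 e) ⟨e0, Finset.mem_univ _, hlt⟩
  linarith

private theorem hcoord {B C : Type} [Fintype B] [Fintype C] [DecidableEq B] [DecidableEq C]
    (u : B → C → ℚ) (S : Finset B) (T : Finset C) :
    ∀ i, ∃ j, ∀ k, LL u S T j k = if k = i then 1 else 0 :=
  fun i => ⟨Sum.inl i, fun k => rfl⟩

theorem rays_of_sol {B C : Type} [Fintype B] [Fintype C] [DecidableEq B] [DecidableEq C]
    (u2 u3 D : B → C → ℚ) (P0 P1 : Prop) (y : B → ℚ) (z : C → ℚ)
    (h : Sol u2 u3 D P0 P1 y z) : RaySol u2 u3 D P0 P1 := by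
  classical
  set S : Finset B := Finset.univ.filter (fun b => y b ≠ 0) with hS
  set T : Finset C := Finset.univ.filter (fun c => z c ≠ 0) with hT
  have hy : ∀ j, 0 ≤ ∑ i, LL u3 S T j i * y i := by
    rw [cone_LL]
    refine ⟨h.y0, fun b hb => ?_, fun c hc c' => ?_⟩
    · by_contra hne
      exact hb (Finset.mem_filter.2 ⟨Finset.mem_univ _, hne⟩)
    · exact h.bZ c (Finset.mem_filter.1 hc).2 c'
  have hz : ∀ j, 0 ≤ ∑ i, LL (tr u2) T S j i * z i := by
    rw [cone_LL]
    refine ⟨h.z0, fun c hc => ?_, fun b hb b' => ?_⟩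
    · by_contra hne
      exact hc (Finset.mem_filter.2 ⟨Finset.mem_univ _, hne⟩)
    · exact h.bY b (Finset.mem_filter.1 hb).2 b'
  obtain ⟨w, hw, hwr, hwy⟩ := ray_decomp _ (hcoord u3 S T) y hy
  obtain ⟨w', hw', hwr', hwz⟩ := ray_decomp _ (hcoord (tr u2) T S) z hz
  have h1 : ∃ d, w d ≠ 0 := by
    by_contra hcon
    push Not at hcon
    obtain ⟨b, hb⟩ := h.yne
    apply hb
    rw [hwy]
    simp [hcon]
  have h2 : ∃ e, w' e ≠ 0 := by
    by_contra hcon
    push Not at hcon
    obtain ⟨c, hc⟩ := h.zne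
    apply hc
    rw [hwz]
    simp [hcon]
  refine ⟨S, T, fun hp => ?_, fun hp => ?_⟩
  · have h3 := h.f0 hp
    rw [hwy, hwz] at h3
    obtain ⟨d, e, k1, k2, k3⟩ := find_pos D w w' _ _ hw hw' h1 h2 h3
    exact ⟨d, e, hwr d k1, hwr' e k2, k3⟩
  · have h3 := h.f1 hp
    have hneg : ∀ (y : B → ℚ) (z : C → ℚ), bil (fun b c => -D b c) y z = -bil D y z := by
      intro y z
      unfold bil
      rw [← Finset.sum_neg_distrib]
      refine Finset.sum_congr rfl fun b _ => ?_
      rw [← Finset.sum_neg_distrib]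
      refine Finset.sum_congr rfl fun c _ => ?_
      ring
    have h4 : 0 ≤ bil (fun b c => -D b c) y z := by
      rw [hneg]
      linarith
    rw [hwy, hwz] at h4
    obtain ⟨d, e, k1, k2, k3⟩ := find_pos _ w w' _ _ hw hw' h1 h2 h4
    rw [hneg] at k3
    exact ⟨d, e, hwr d k1, hwr' e k2, by linarith⟩

end Pool.Agent.Work.MP_9d4f6b_lc
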