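import Pool.Agent.Work.MP_9d4f6b_lc.Def

/-!
MODULE GAME2. Player 1 has the strategies 0, 1.
sol_of_ne: p = x 1, x 0 = 1 - p. V b = sum over a, c of x a z c u2 a b c = sum over c of z c *
mixQ p u2 b c. From n2: V b0 ≤ sum y b V b for all b0, y ≥ 0, sum y = 1, so y b ≠ 0 implies V b is
maximal. Same for player 3. Player 1: U a = sum over b, c of y b z c u1 a b c, n1 says U 0, U 1 ≤
(1 - p) U 0 + p U 1; so 0 < p implies U 0 ≤ U 1 and p < 1 implies U 1 ≤ U 0; bil = U 1 - U 0.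
hne_of_sol: the converse without normalisation, X = (t - s, s): for player 2,
(sum Y) * W b0 ≤ sum Y b * W b where W b = sum X a Z c u2 a b c (natural numbers, cast to ℤ:
W b = sum over c of Z c * mixZ s t u2 b c), because Y b ≠ 0 implies W b0 ≤ W b.
-/

set_option linter.unusedVariables false
set_option linter.style.longLine false

namespace Pool.Agent.Work.MP_9d4f6b_lc

open Polynomial

theorem g2_best {B : Type} [Fintype B] (y V : B → ℚ) (y0 : ∀ b, 0 ≤ y b) (y1 : ∑ b, y b = 1)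
    (h : ∀ b₀, V b₀ ≤ ∑ b, y b * V b) (b : B) (hb : y b ≠ 0) (b' : B) : V b' ≤ V b := by
  have h1 : ∑ b, y b * ((∑ b, y b * V b) - V b) = 0 := by
    simp only [mul_sub, Finset.sum_sub_distrib]
    rw [← Finset.sum_mul, y1, one_mul, sub_self]
  have h2 := (Finset.sum_eq_zero_iff_of_nonneg (fun b _ => mul_nonneg (y0 b)
    (sub_nonneg.2 (h b)))).1 h1 b (Finset.mem_univ _)
  rcases mul_eq_zero.1 h2 with h3 | h3
  · exact absurd h3 hb
  · rw [sub_eq_zero] at h3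
    rw [← h3]; exact h b'

theorem g2_ne {B : Type} [Fintype B] {R : Type} [AddCommMonoid R] (y : B → R)
    (h : ∑ b, y b ≠ 0) : ∃ b, y b ≠ 0 := by
  by_contra hc
  simp only [not_exists, not_not] at hc
  exact h (Finset.sum_eq_zero (fun b _ => hc b))

theorem g2_mix {C : Type} [Fintype C] {R : Type} [CommRing R] (x : Fin 2 → R) (z : C → R)
    (u : Fin 2 → C → R) :
    ∑ a, ∑ c, x a * z c * u a c = ∑ c, z c * (x 0 * u 0 c + x 1 * u 1 c) := by
  rw [Fin.sum_univ_two, ← Finset.sum_add_distrib]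
  apply Finset.sum_congr rfl
  intro c _
  ring

theorem g2_three2 {B C : Type} [Fintype B] [Fintype C] {R : Type} [CommRing R] (x : Fin 2 → R)
    (y : B → R) (z : C → R) (u : Fin 2 → B → C → R) :
    ∑ a, ∑ b, ∑ c, x a * y b * z c * u a b c
      = ∑ b, y b * ∑ c, z c * (x 0 * u 0 b c + x 1 * u 1 b c) := by
  rw [Finset.sum_comm]
  apply Finset.sum_congr rfl
  intro b _
  rw [Fin.sum_univ_two, ← Finset.sum_add_distrib, Finset.mul_sum]
  apply Finset.sum_congr rfl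
  intro c _
  ring

theorem g2_three3 {B C : Type} [Fintype B] [Fintype C] {R : Type} [CommRing R] (x : Fin 2 → R)
    (y : B → R) (z : C → R) (u : Fin 2 → B → C → R) :
    ∑ a, ∑ b, ∑ c, x a * y b * z c * u a b c
      = ∑ c, z c * ∑ b, y b * (x 0 * u 0 b c + x 1 * u 1 b c) := by
  rw [g2_three2]
  simp only [Finset.mul_sum]
  rw [Finset.sum_comm]
  apply Finset.sum_congr rfl
  intro b _
  apply Finset.sum_congr rfl
  intro c _
  ring

theorem g2_three1 {B C : Type} [Fintype B] [Fintype C] {R : Type} [CommRing R] (x : Fin 2 → R)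
    (y : B → R) (z : C → R) (u : Fin 2 → B → C → R) :
    ∑ a, ∑ b, ∑ c, x a * y b * z c * u a b c
      = x 0 * ∑ b, ∑ c, y b * z c * u 0 b c + x 1 * ∑ b, ∑ c, y b * z c * u 1 b c := by
  rw [Fin.sum_univ_two]
  simp only [Finset.mul_sum]
  congr 1
  · apply Finset.sum_congr rfl
    intro b _
    apply Finset.sum_congr rfl
    intro c _
    ring
  · apply Finset.sum_congr rfl
    intro b _
    apply Finset.sum_congr rfl
    intro c _
    ring

theorem g2_bil {B C : Type} [Fintype B] [Fintype C] {R : Type} [CommRing R]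
    (y : B → R) (z : C → R) (u v : B → C → R) :
    bil (fun b c => u b c - v b c) y z
      = ∑ b, ∑ c, y b * z c * u b c - ∑ b, ∑ c, y b * z c * v b c := by
  unfold bil
  rw [← Finset.sum_sub_distrib]
  apply Finset.sum_congr rfl
  intro b _
  rw [← Finset.sum_sub_distrib]
  apply Finset.sum_congr rfl
  intro c _
  ring

theorem sol_of_ne {B C : Type} [Fintype B] [Fintype C] (u1 u2 u3 : Fin 2 → B → C → ℕ)
    (x : Fin 2 → ℚ) (y : B → ℚ) (z : C → ℚ) (h : IsNE u1 u2 u3 x y z) :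
    0 ≤ x 1 ∧ x 1 ≤ 1 ∧ Sol (mixQ (x 1) u2) (mixQ (x 1) u3) (fun b c => (dif u1 b c : ℚ))
      (0 < x 1) (x 1 < 1) y z := by
  have hx : x 0 + x 1 = 1 := by
    have := h.x1
    rwa [Fin.sum_univ_two] at this
  have hx0 : x 0 = 1 - x 1 := by linarith
  have h0 := h.x0 0
  have h1 := h.x0 1
  have hd : (fun b c => ((dif u1 b c : ℤ) : ℚ)) = fun b c => (u1 1 b c : ℚ) - (u1 0 b c : ℚ) := by
    funext b c
    simp [dif]
  have hb : bil (fun b c => ((dif u1 b c : ℤ) : ℚ)) y z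
      = ∑ b, ∑ c, y b * z c * (u1 1 b c : ℚ) - ∑ b, ∑ c, y b * z c * (u1 0 b c : ℚ) := by
    rw [hd]
    exact g2_bil y z (fun b c => (u1 1 b c : ℚ)) (fun b c => (u1 0 b c : ℚ))
  refine ⟨h1, by linarith, h.y0, ?_, h.z0, ?_, ?_, ?_, ?_, ?_⟩
  · exact g2_ne y (by rw [h.y1]; exact one_ne_zero)
  · exact g2_ne z (by rw [h.z1]; exact one_ne_zero)
  · intro b hb b'
    refine g2_best y (fun b => ∑ c, z c * mixQ (x 1) u2 b c) h.y0 h.y1 ?_ b hb b'
    intro b₀
    have h2 := h.n2 b₀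
    rw [g2_three2 x y z (fun a b c => (u2 a b c : ℚ)), g2_mix x z (fun a c => (u2 a b₀ c : ℚ)),
      hx0] at h2
    exact h2
  · intro b hb b'
    refine g2_best z (fun c => ∑ b, y b * mixQ (x 1) u3 b c) h.z0 h.z1 ?_ b hb b'
    intro b₀
    have h2 := h.n3 b₀
    rw [g2_three3 x y z (fun a b c => (u3 a b c : ℚ)), g2_mix x y (fun a b => (u3 a b b₀ : ℚ)),
      hx0] at h2
    exact h2
  · intro hp
    rw [hb]
    have h2 := h.n1 0
    rw [g2_three1 x y z (fun a b c => (u1 a b c : ℚ)), hx0] at h2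
    by_contra hc
    rw [not_le] at hc
    have := mul_neg_of_pos_of_neg hp hc
    linarith
  · intro hp
    rw [hb]
    have h2 := h.n1 1
    rw [g2_three1 x y z (fun a b c => (u1 a b c : ℚ)), hx0] at h2
    by_contra hc
    rw [not_le] at hc
    have := mul_pos (sub_pos.2 hp) hc
    linarith

theorem hne_of_sol {B C : Type} [Fintype B] [Fintype C] (u1 u2 u3 : Fin 2 → B → C → ℕ) (s t : ℕ)
    (ht : 0 < t) (hst : s ≤ t) (Y : B → ℕ) (Z : C → ℕ)
    (h : Sol (mixZ s t u2) (mixZ s t u3) (dif u1) (0 < s) (s < t) (fun b => (Y b : ℤ))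
      (fun c => (Z c : ℤ))) : HNE u1 u2 u3 ![t - s, s] Y Z := by
  have e0 : ((![t - s, s] 0 : ℕ) : ℤ) = t - s := by
    simp [Nat.cast_sub hst]
  have e1 : ((![t - s, s] 1 : ℕ) : ℤ) = s := by simp
  have es : ((∑ a, (![t - s, s] a : ℕ) : ℕ) : ℤ) = t := by
    rw [Fin.sum_univ_two, Nat.cast_add, e0, e1]; ring
  have hb : bil (dif u1) (fun b => (Y b : ℤ)) (fun c => (Z c : ℤ))
      = ∑ b, ∑ c, (Y b : ℤ) * Z c * (u1 1 b c : ℤ) - ∑ b, ∑ c, (Y b : ℤ) * Z c * (u1 0 b c : ℤ) :=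
    g2_bil (fun b => (Y b : ℤ)) (fun c => (Z c : ℤ)) (fun b c => (u1 1 b c : ℤ))
      (fun b c => (u1 0 b c : ℤ))
  refine ⟨?_, ?_, ?_, ?_, ?_, ?_⟩
  · have : (0 : ℤ) < ((∑ a, (![t - s, s] a : ℕ) : ℕ) : ℤ) := by rw [es]; exact_mod_cast ht
    exact_mod_cast this
  · obtain ⟨b, hb⟩ := h.yne
    have hb' : Y b ≠ 0 := by exact_mod_cast hb
    exact lt_of_lt_of_le (Nat.pos_of_ne_zero hb')
      (Finset.single_le_sum (f := Y) (fun _ _ => Nat.zero_le _) (Finset.mem_univ b))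
  · obtain ⟨b, hb⟩ := h.zne
    have hb' : Z b ≠ 0 := by exact_mod_cast hb
    exact lt_of_lt_of_le (Nat.pos_of_ne_zero hb')
      (Finset.single_le_sum (f := Z) (fun _ _ => Nat.zero_le _) (Finset.mem_univ b))
  · have f0 : (0 : ℤ) ≤ s * (∑ b, ∑ c, (Y b : ℤ) * Z c * (u1 1 b c : ℤ)
        - ∑ b, ∑ c, (Y b : ℤ) * Z c * (u1 0 b c : ℤ)) := by
      rcases Nat.eq_zero_or_pos s with h0 | h0
      · subst h0; simp
      · have := h.f0 h0
        rw [hb] at this
        exact mul_nonneg (Int.natCast_nonneg _) this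
    have f1 : (t - s : ℤ) * (∑ b, ∑ c, (Y b : ℤ) * Z c * (u1 1 b c : ℤ)
        - ∑ b, ∑ c, (Y b : ℤ) * Z c * (u1 0 b c : ℤ)) ≤ 0 := by
      rcases hst.eq_or_lt with h0 | h0
      · subst h0; simp
      · have := h.f1 h0
        rw [hb] at this
        exact mul_nonpos_of_nonneg_of_nonpos (sub_nonneg.2 (by exact_mod_cast hst)) this
    intro a₀
    have key : (((∑ a, (![t - s, s] a : ℕ)) * ∑ b, ∑ c, Y b * Z c * u1 a₀ b c : ℕ) : ℤ)
        ≤ ((∑ a, ∑ b, ∑ c, (![t - s, s] a : ℕ) * Y b * Z c * u1 a b c : ℕ) : ℤ) := by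
      rw [Nat.cast_mul, es]
      push_cast
      rw [g2_three1 (fun a => ((![t - s, s] a : ℕ) : ℤ)) (fun b => (Y b : ℤ)) (fun c => (Z c : ℤ))
        (fun a b c => (u1 a b c : ℤ)), e0, e1]
      fin_cases a₀
      · simp only [Fin.zero_eta, Fin.isValue]
        linarith
      · simp only [Fin.mk_one, Fin.isValue]
        linarith
    exact_mod_cast key
  · intro b₀
    have key : (((∑ b, Y b) * ∑ a, ∑ c, (![t - s, s] a : ℕ) * Z c * u2 a b₀ c : ℕ) : ℤ)
        ≤ ((∑ a, ∑ b, ∑ c, (![t - s, s] a : ℕ) * Y b * Z c * u2 a b c : ℕ) : ℤ) := by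
      push_cast
      rw [g2_three2 (fun a => ((![t - s, s] a : ℕ) : ℤ)) (fun b => (Y b : ℤ)) (fun c => (Z c : ℤ))
        (fun a b c => (u2 a b c : ℤ)), g2_mix (fun a => ((![t - s, s] a : ℕ) : ℤ))
        (fun c => (Z c : ℤ)) (fun a c => (u2 a b₀ c : ℤ)), e0, e1, Finset.sum_mul]
      apply Finset.sum_le_sum
      intro b _
      by_cases hb0 : (Y b : ℤ) = 0
      · rw [hb0]; simp
      · exact mul_le_mul_of_nonneg_left (h.bY b hb0 b₀) (Int.natCast_nonneg _)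
    exact_mod_cast key
  · intro c₀
    have key : (((∑ c, Z c) * ∑ a, ∑ b, (![t - s, s] a : ℕ) * Y b * u3 a b c₀ : ℕ) : ℤ)
        ≤ ((∑ a, ∑ b, ∑ c, (![t - s, s] a : ℕ) * Y b * Z c * u3 a b c : ℕ) : ℤ) := by
      push_cast
      rw [g2_three3 (fun a => ((![t - s, s] a : ℕ) : ℤ)) (fun b => (Y b : ℤ)) (fun c => (Z c : ℤ))
        (fun a b c => (u3 a b c : ℤ)), g2_mix (fun a => ((![t - s, s] a : ℕ) : ℤ))
        (fun b => (Y b : ℤ)) (fun a b => (u3 a b c₀ : ℤ)), e0, e1, Finset.sum_mul]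
      apply Finset.sum_le_sum
      intro b _
      by_cases hb0 : (Z b : ℤ) = 0
      · rw [hb0]; simp
      · exact mul_le_mul_of_nonneg_left (h.bZ b hb0 c₀) (Int.natCast_nonneg _)
    exact_mod_cast key

theorem g2_scale {C : Type} [Fintype C] (s t : ℕ) (ht : 0 < t) (z : C → ℚ) (v w : C → ℕ) :
    ∑ c, z c * ((((t : ℤ) - s) * v c + s * w c : ℤ) : ℚ)
      = t * ∑ c, z c * ((1 - (s : ℚ) / t) * v c + (s : ℚ) / t * w c) := by
  rw [Finset.mul_sum]
  apply Finset.sum_congr rfl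
  intro c _
  have : (t : ℚ) ≠ 0 := by exact_mod_cast ht.ne'
  push_cast
  field_simp

/-- multiplication by t -/
theorem sol_scale {B C : Type} [Fintype B] [Fintype C] (u1 u2 u3 : Fin 2 → B → C → ℕ) (s t : ℕ)
    (ht : 0 < t) (P0 P1 : Prop) (y : B → ℚ) (z : C → ℚ)
    (h : Sol (mixQ ((s : ℚ) / t) u2) (mixQ ((s : ℚ) / t) u3) (fun b c => (dif u1 b c : ℚ)) P0 P1 y z) :
    Sol (fun b c => (mixZ s t u2 b c : ℚ)) (fun b c => (mixZ s t u3 b c : ℚ))
      (fun b c => (dif u1 b c : ℚ)) P0 P1 y z := by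
  refine ⟨h.y0, h.yne, h.z0, h.zne, ?_, ?_, h.f0, h.f1⟩
  · intro b hb b'
    have h1 := g2_scale s t ht z (u2 0 b) (u2 1 b)
    have h2 := g2_scale s t ht z (u2 0 b') (u2 1 b')
    have h3 := mul_le_mul_of_nonneg_left (h.bY b hb b') (Nat.cast_nonneg (α := ℚ) t)
    calc _ = _ := h2
      _ ≤ _ := h3
      _ = _ := h1.symm
  · intro b hb b'
    have h1 := g2_scale s t ht y (fun c => u3 0 c b) (fun c => u3 1 c b)
    have h2 := g2_scale s t ht y (fun c => u3 0 c b') (fun c => u3 1 c b')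
    have h3 := mul_le_mul_of_nonneg_left (h.bZ b hb b') (Nat.cast_nonneg (α := ℚ) t)
    calc _ = _ := h2
      _ ≤ _ := h3
      _ = _ := h1.symm

end Pool.Agent.Work.MP_9d4f6b_lc
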