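import Pool.Agent.Work.MP_9d4f6b_lc.IntSol
import Pool.Agent.Work.MP_9d4f6b_lc.Game2
import Pool.Agent.Work.MP_9d4f6b_lc.Sym

/-!
The small solution theorem.
-/

set_option linter.unusedVariables false
set_option linter.style.longLine false

namespace Pool.Agent.Work.MP_9d4f6b_lc

theorem core2 {B C : Type} [Fintype B] [Fintype C] (u1 u2 u3 : Fin 2 → B → C → ℕ) (M : ℕ)
    (h1 : ∀ a b c, u1 a b c ≤ M) (h2 : ∀ a b c, u2 a b c ≤ M) (h3 : ∀ a b c, u3 a b c ≤ M)
    (x : Fin 2 → ℚ) (y : B → ℚ) (z : C → ℚ) (h : IsNE u1 u2 u3 x y z) :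
    ∃ (X : Fin 2 → ℕ) (Y : B → ℕ) (Z : C → ℕ), HNE u1 u2 u3 X Y Z ∧
      (∀ a, X a ≤ QQ M (Fintype.card B) (Fintype.card C)) ∧
      (∀ b, Y b ≤ bd M (Fintype.card B) (Fintype.card C)) ∧
      ∀ c, Z c ≤ bd M (Fintype.card B) (Fintype.card C) := by
  classical
  obtain ⟨p0, p1, hs⟩ := sol_of_ne u1 u2 u3 x y z h
  obtain ⟨s, t, ht, hst, htQ, hr⟩ := transfer u1 u2 u3 M h1 h2 h3 (x 1) p0 p1
    (rays_of_sol _ _ _ _ _ _ _ hs)
  have hP : 0 < s ∨ s < t := by omega
  obtain ⟨y', z', hs'⟩ := sol_of_raySol' _ _ _ _ _ hP hr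
  have hs'' := sol_scale u1 u2 u3 s t ht _ _ _ _ hs'
  have hb : ∀ (u : Fin 2 → B → C → ℕ), (∀ a b c, u a b c ≤ M) → ∀ b c, |mixZ s t u b c| ≤
      ((QQ M (Fintype.card B) (Fintype.card C) * M + M : ℕ) : ℤ) := by
    intro u hu b c
    have e0 : (u 0 b c : ℤ) ≤ M := by exact_mod_cast hu 0 b c
    have e1 : (u 1 b c : ℤ) ≤ M := by exact_mod_cast hu 1 b c
    have e0' : (0 : ℤ) ≤ u 0 b c := by positivity
    have e1' : (0 : ℤ) ≤ u 1 b c := by positivity
    have e2 : (s : ℤ) ≤ t := by exact_mod_cast hst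
    have e3 : (0 : ℤ) ≤ s := by positivity
    have e4 : (t : ℤ) ≤ QQ M (Fintype.card B) (Fintype.card C) := by exact_mod_cast htQ
    have e5 : (0 : ℤ) ≤ M := by positivity
    unfold mixZ
    rw [abs_of_nonneg (by nlinarith)]
    push_cast
    nlinarith
  have hd : ∀ b c, |dif u1 b c| ≤
      ((QQ M (Fintype.card B) (Fintype.card C) * M + M : ℕ) : ℤ) := by
    intro b c
    have e0 : (u1 0 b c : ℤ) ≤ M := by exact_mod_cast h1 0 b c
    have e1 : (u1 1 b c : ℤ) ≤ M := by exact_mod_cast h1 1 b c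
    have e0' : (0 : ℤ) ≤ u1 0 b c := by positivity
    have e1' : (0 : ℤ) ≤ u1 1 b c := by positivity
    have e6 : (0 : ℤ) ≤ (QQ M (Fintype.card B) (Fintype.card C) : ℤ) * M := by positivity
    unfold dif
    rw [abs_le]
    push_cast
    constructor <;> linarith
  obtain ⟨Y, Z, k1, k2, k3⟩ := int_of_sol (mixZ s t u2) (mixZ s t u3) (dif u1) _ (hb u2 h2)
    (hb u3 h3) hd _ _ hP y' z' hs''
  refine ⟨![t - s, s], Y, Z, hne_of_sol u1 u2 u3 s t ht hst Y Z k1, ?_, ?_, ?_⟩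
  · intro a
    fin_cases a
    · change t - s ≤ _
      omega
    · change s ≤ _
      omega
  · intro b
    have := k2 b
    unfold bd
    omega
  · intro c
    have := k3 c
    unfold bd
    omega

theorem core {A B C : Type} [Fintype A] [Fintype B] [Fintype C] (hA : Fintype.card A ≤ 2)
    (u1 u2 u3 : A → B → C → ℕ) (M : ℕ) (h1 : ∀ a b c, u1 a b c ≤ M)
    (h2 : ∀ a b c, u2 a b c ≤ M) (h3 : ∀ a b c, u3 a b c ≤ M) (x : A → ℚ) (y : B → ℚ) (z : C → ℚ)
    (h : IsNE u1 u2 u3 x y z) :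
    ∃ (X : A → ℕ) (Y : B → ℕ) (Z : C → ℕ), HNE u1 u2 u3 X Y Z ∧
      (∀ a, X a ≤ bd M (Fintype.card B) (Fintype.card C)) ∧
      (∀ b, Y b ≤ bd M (Fintype.card B) (Fintype.card C)) ∧
      ∀ c, Z c ≤ bd M (Fintype.card B) (Fintype.card C) := by
  classical
  have hA0 : Nonempty A := by
    by_contra hne
    rw [not_nonempty_iff] at hne
    have := h.x1
    simp at this
  obtain ⟨π, hπ⟩ : ∃ π : Fin 2 → A, Function.Surjective π := by
    have hc : Fintype.card A ≤ Fintype.card (Fin 2) := by simpa using hA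
    obtain ⟨f⟩ := Function.Embedding.nonempty_of_card_le hc
    exact ⟨Function.invFun f, Function.invFun_surjective f.injective⟩
  obtain ⟨x', hx'⟩ := ne_push π hπ u1 u2 u3 x y z h
  obtain ⟨X, Y, Z, k0, k1, k2, k3⟩ := core2 _ _ _ M (fun a => h1 (π a)) (fun a => h2 (π a))
    (fun a => h3 (π a)) x' y z hx'
  refine ⟨_, Y, Z, hne_push π hπ u1 u2 u3 X Y Z k0, ?_, k2, k3⟩
  intro a
  calc ∑ a' ∈ Finset.univ.filter (fun a' => π a' = a), X a' ≤ ∑ a' : Fin 2, X a' :=
        Finset.sum_le_sum_of_subset (Finset.subset_univ _)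
    _ ≤ 2 * QQ M (Fintype.card B) (Fintype.card C) := by
        rw [Fin.sum_univ_two]
        have := k1 0
        have := k1 1
        omega
    _ ≤ bd M (Fintype.card B) (Fintype.card C) := by
        unfold bd
        omega

/-- a game in which some player has at most two strategies and which has a rational equilibrium has
one with small weights -/
theorem small {A B C : Type} [Fintype A] [Fintype B] [Fintype C]
    (hA : Fintype.card A ≤ 2 ∨ Fintype.card B ≤ 2 ∨ Fintype.card C ≤ 2)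
    (u1 u2 u3 : A → B → C → ℕ) (M : ℕ) (h1 : ∀ a b c, u1 a b c ≤ M)
    (h2 : ∀ a b c, u2 a b c ≤ M) (h3 : ∀ a b c, u3 a b c ≤ M) (x : A → ℚ) (y : B → ℚ) (z : C → ℚ)
    (h : IsNE u1 u2 u3 x y z) :
    ∃ (X : A → ℕ) (Y : B → ℕ) (Z : C → ℕ), HNE u1 u2 u3 X Y Z ∧
      (∀ a, X a ≤ BB M (Fintype.card A) (Fintype.card B) (Fintype.card C)) ∧
      (∀ b, Y b ≤ BB M (Fintype.card A) (Fintype.card B) (Fintype.card C)) ∧
      ∀ c, Z c ≤ BB M (Fintype.card A) (Fintype.card B) (Fintype.card C) := by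
  rcases hA with hA | hA | hA
  · obtain ⟨X, Y, Z, k0, k1, k2, k3⟩ := core hA u1 u2 u3 M h1 h2 h3 x y z h
    refine ⟨X, Y, Z, k0, fun a => ?_, fun b => ?_, fun c => ?_⟩
    · have := k1 a
      unfold BB
      omega
    · have := k2 b
      unfold BB
      omega
    · have := k3 c
      unfold BB
      omega
  · obtain ⟨Y, X, Z, k0, k1, k2, k3⟩ := core hA _ _ _ M (fun b a c => h2 a b c)
      (fun b a c => h1 a b c) (fun b a c => h3 a b c) y x z (ne_swap12 u1 u2 u3 x y z h)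
    refine ⟨X, Y, Z, hne_swap12 u1 u2 u3 X Y Z k0, fun a => ?_, fun b => ?_, fun c => ?_⟩
    · have := k2 a
      unfold BB
      omega
    · have := k1 b
      unfold BB
      omega
    · have := k3 c
      unfold BB
      omega
  · obtain ⟨Z, Y, X, k0, k1, k2, k3⟩ := core hA _ _ _ M (fun c b a => h3 a b c)
      (fun c b a => h2 a b c) (fun c b a => h1 a b c) z y x (ne_swap13 u1 u2 u3 x y z h)
    refine ⟨X, Y, Z, hne_swap13 u1 u2 u3 X Y Z k0, fun a => ?_, fun b => ?_, fun c => ?_⟩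
    · have := k3 a
      unfold BB
      omega
    · have := k2 b
      unfold BB
      omega
    · have := k1 c
      unfold BB
      omega

end Pool.Agent.Work.MP_9d4f6b_lc
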