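import Mathlib

/-!
MP_9d4f6b_lc: definitions (fixed file, nothing to prove).
-/

set_option linter.unusedVariables false
set_option linter.style.longLine false

namespace Pool.Agent.Work.MP_9d4f6b_lc

open Polynomial

/-- sum of the absolute values of the coefficients -/
def L1 (f : ℤ[X]) : ℕ := ∑ i ∈ Finset.range (f.natDegree + 1), (f.coeff i).natAbs

/-- degree at most D, L1 norm at most H -/
def BP (D H : ℕ) (f : ℤ[X]) : Prop := f.natDegree ≤ D ∧ L1 f ≤ H

/-- bound for the determinant of an n x n matrix with entries of norm at most K -/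
def detB (K n : ℕ) : ℕ := n ^ n * K ^ n

/-- root separation bound -/
def sepB (D H : ℕ) : ℕ := H ^ 2 * detB (2 * H ^ 2 + 1) (D ^ 2)

/-- denominators of sample points -/
def samB (D H : ℕ) : ℕ := H + sepB D H + 1

/-- evaluation at a rational number -/
noncomputable def ev (p : ℚ) : ℤ[X] →+* ℚ := Polynomial.eval₂RingHom (Int.castRingHom ℚ) p

/-! ### Rays of cones given by a matrix -/

section ray

variable {R : Type} [CommRing R] {J N : Type} [Fintype N] [DecidableEq N]

/-- determinant of the square matrix formed by the rows d.1 of L -/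
def rayD (L : Matrix J N R) (d : (N → J) × N) : R := (L.submatrix d.1 id).det

/-- determinant times column d.2 of the adjugate -/
def ray (L : Matrix J N R) (d : (N → J) × N) : N → R :=
  fun i => rayD L d * (L.submatrix d.1 id).adjugate i d.2

/-- value of row j on the ray -/
def rayG (L : Matrix J N R) (d : (N → J) × N) (j : J) : R := ∑ i, L j i * ray L d i

/-- d defines a nonzero vector of the cone -/
def IsRay [LinearOrder R] (L : Matrix J N R) (d : (N → J) × N) : Prop :=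
  rayD L d ≠ 0 ∧ ∀ j, 0 ≤ rayG L d j

end ray

/-! ### Cones of the game -/

/-- rows: y b ≥ 0; - y b ≥ 0 for b outside S; column c is at least as good as c' for c in T -/
def LL {R : Type} [CommRing R] {B C : Type} [DecidableEq B] [DecidableEq C] (u : B → C → R)
    (S : Finset B) (T : Finset C) : Matrix (B ⊕ B ⊕ (C × C)) B R := fun j b =>
  match j with
  | Sum.inl b' => if b = b' then 1 else 0
  | Sum.inr (Sum.inl b') => if b' ∈ S then 0 else if b = b' then -1 else 0
  | Sum.inr (Sum.inr (c, c')) => if c ∈ T then u b c - u b c' else 0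

/-- transpose of a two variable function -/
def tr {R : Type} {B C : Type} (u : B → C → R) : C → B → R := fun c b => u b c

/-- bilinear form -/
def bil {R : Type} [CommRing R] {B C : Type} [Fintype B] [Fintype C] (D : B → C → R) (y : B → R)
    (z : C → R) : R := ∑ b, ∑ c, D b c * y b * z c

section order

variable {R : Type} [CommRing R] [LinearOrder R] {B C : Type} [Fintype B] [Fintype C]
  [DecidableEq B] [DecidableEq C]

/-- y and z (not normalised) are mutual best responses and the form D has the required signs -/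
structure Sol (u2 u3 D : B → C → R) (P0 P1 : Prop) (y : B → R) (z : C → R) : Prop where
  y0 : ∀ b, 0 ≤ y b
  yne : ∃ b, y b ≠ 0
  z0 : ∀ c, 0 ≤ z c
  zne : ∃ c, z c ≠ 0
  bY : ∀ b, y b ≠ 0 → ∀ b', ∑ c, z c * u2 b' c ≤ ∑ c, z c * u2 b c
  bZ : ∀ c, z c ≠ 0 → ∀ c', ∑ b, y b * u3 b c' ≤ ∑ b, y b * u3 b c
  f0 : P0 → 0 ≤ bil D y z
  f1 : P1 → bil D y z ≤ 0

/-- there are supports and rays with the required signs -/
def RaySol (u2 u3 D : B → C → R) (P0 P1 : Prop) : Prop :=
  ∃ (S : Finset B) (T : Finset C),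
    (P0 → ∃ d e, IsRay (LL u3 S T) d ∧ IsRay (LL (tr u2) T S) e ∧
      0 ≤ bil D (ray (LL u3 S T) d) (ray (LL (tr u2) T S) e)) ∧
    (P1 → ∃ d e, IsRay (LL u3 S T) d ∧ IsRay (LL (tr u2) T S) e ∧
      bil D (ray (LL u3 S T) d) (ray (LL (tr u2) T S) e) ≤ 0)

end order

/-! ### Payoffs when player 1 has the two strategies 0, 1 and plays 1 with probability p -/

/-- expected payoff as a polynomial in p -/
noncomputable def mixP {B C : Type} (u : Fin 2 → B → C → ℕ) : B → C → ℤ[X] := fun b c =>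
  Polynomial.C (u 0 b c : ℤ) * (1 - X) + Polynomial.C (u 1 b c : ℤ) * X

/-- expected payoff at the rational number p -/
def mixQ {B C : Type} (p : ℚ) (u : Fin 2 → B → C → ℕ) : B → C → ℚ := fun b c =>
  (1 - p) * u 0 b c + p * u 1 b c

/-- t times the expected payoff at p = s / t -/
def mixZ {B C : Type} (s t : ℤ) (u : Fin 2 → B → C → ℕ) : B → C → ℤ := fun b c =>
  (t - s) * u 0 b c + s * u 1 b c

/-- difference of the payoffs of strategies 1 and 0 -/
def dif {B C : Type} (u : Fin 2 → B → C → ℕ) : B → C → ℤ := fun b c =>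
  (u 1 b c : ℤ) - u 0 b c

/-! ### Bounds -/

def K0 (M : ℕ) : ℕ := 6 * M + 2

def DD (m n : ℕ) : ℕ := 2 * m + 2 * n + 1

def HH (M m n : ℕ) : ℕ := 2 + (m + n + 1) ^ 2 * K0 M * (detB (K0 M) m * detB (K0 M) n) ^ 2

/-- bound for the denominator of p -/
def QQ (M m n : ℕ) : ℕ := samB (DD m n) (HH M m n)

/-- bound for the integral solution of a problem with entries at most K -/
def intB (K m n : ℕ) : ℕ :=
  2 * (1 + 3 * (m * n * K * (detB (2 * K + 1) m * detB (2 * K + 1) n) ^ 4)) *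
    (detB (2 * K + 1) m * detB (2 * K + 1) n) ^ 2

/-- final bound for the weights -/
def bd (M m n : ℕ) : ℕ := 2 * QQ M m n + intB (QQ M m n * M + M) m n

/-- bound when one of the three players has at most two strategies -/
def BB (M l m n : ℕ) : ℕ := bd M m n + bd M l n + bd M m l

/-! ### Games -/

section game

variable {A B C : Type} [Fintype A] [Fintype B] [Fintype C]

/-- Nash equilibrium in mixed strategies -/
structure IsNE (u1 u2 u3 : A → B → C → ℕ) (x : A → ℚ) (y : B → ℚ) (z : C → ℚ) : Prop where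
  x0 : ∀ a, 0 ≤ x a
  x1 : ∑ a, x a = 1
  y0 : ∀ b, 0 ≤ y b
  y1 : ∑ b, y b = 1
  z0 : ∀ c, 0 ≤ z c
  z1 : ∑ c, z c = 1
  n1 : ∀ a₀, ∑ b, ∑ c, y b * z c * (u1 a₀ b c : ℚ) ≤ ∑ a, ∑ b, ∑ c, x a * y b * z c * (u1 a b c : ℚ)
  n2 : ∀ b₀, ∑ a, ∑ c, x a * z c * (u2 a b₀ c : ℚ) ≤ ∑ a, ∑ b, ∑ c, x a * y b * z c * (u2 a b c : ℚ)
  n3 : ∀ c₀, ∑ a, ∑ b, x a * y b * (u3 a b c₀ : ℚ) ≤ ∑ a, ∑ b, ∑ c, x a * y b * z c * (u3 a b c : ℚ)

/-- the same for unnormalised natural weights -/
structure HNE (u1 u2 u3 : A → B → C → ℕ) (X : A → ℕ) (Y : B → ℕ) (Z : C → ℕ) : Prop where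
  x1 : 0 < ∑ a, X a
  y1 : 0 < ∑ b, Y b
  z1 : 0 < ∑ c, Z c
  n1 : ∀ a₀, (∑ a, X a) * ∑ b, ∑ c, Y b * Z c * u1 a₀ b c ≤ ∑ a, ∑ b, ∑ c, X a * Y b * Z c * u1 a b c
  n2 : ∀ b₀, (∑ b, Y b) * ∑ a, ∑ c, X a * Z c * u2 a b₀ c ≤ ∑ a, ∑ b, ∑ c, X a * Y b * Z c * u2 a b c
  n3 : ∀ c₀, (∑ c, Z c) * ∑ a, ∑ b, X a * Y b * u3 a b c₀ ≤ ∑ a, ∑ b, ∑ c, X a * Y b * Z c * u3 a b c

end game

end Pool.Agent.Work.MP_9d4f6b_lc
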