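import Pool.Agent.Work.MP_9d4f6b_lc.Sample
import Pool.Agent.Work.MP_9d4f6b_lc.Def

/-!
MODULE TRANS. LL commutes with ring homomorphisms: LL (mixQ p u) S T = (LL (mixP u) S T).map (ev p),
and so do rayD, ray, rayG, bil (RingHom.map_det, RingHom.map_adjugate). So RaySol at p is the
existence of S, T and rays d, e with sign conditions for ev p of the integral polynomials
rayD (LL (mixP u3) S T) d, rayG ... j, bil (C D) (ray ...) (ray ...). Entries of LL (mixP u) are in
BP 1 (K0 M) (each mixP u b c is in BP 1 (3 M)); BP.det, BP.adj: rayD in BP m (detB (K0 M) m), ray in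
BP (2 m) (detB (K0 M) m ^ 2), rayG in BP (2 m + 1) (m * K0 M * detB ^ 2), bil in
BP (2 m + 2 n) (m * n * M * (detB m * detB n)^2); all are in BP (DD m n) (HH M m n) (detB ≥ 1).
X and 1 - X are there too, so 0 < p iff 0 < s / t, p < 1 iff s / t < 1. Apply sample.
-/

set_option linter.unusedVariables false
set_option linter.style.longLine false

namespace Pool.Agent.Work.MP_9d4f6b_lc

open Polynomial

theorem map_LL {R R' : Type} [CommRing R] [CommRing R'] (φ : R →+* R') {B C : Type}
    [DecidableEq B] [DecidableEq C] (u : B → C → R) (S : Finset B) (T : Finset C) :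
    LL (fun b c => φ (u b c)) S T = (LL u S T).map φ := by
  ext j b
  rw [Matrix.map_apply]
  rcases j with b' | b' | ⟨c, c'⟩
  · simp only [LL]
    split_ifs <;> simp
  · simp only [LL]
    split_ifs <;> simp
  · simp only [LL]
    split_ifs <;> simp

theorem map_rayD {R R' : Type} [CommRing R] [CommRing R'] (φ : R →+* R') {J N : Type} [Fintype N]
    [DecidableEq N] (L : Matrix J N R) (d : (N → J) × N) : rayD (L.map φ) d = φ (rayD L d) := by
  unfold rayD
  rw [RingHom.map_det]
  rfl

theorem map_ray {R R' : Type} [CommRing R] [CommRing R'] (φ : R →+* R') {J N : Type} [Fintype N]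
    [DecidableEq N] (L : Matrix J N R) (d : (N → J) × N) :
    ray (L.map φ) d = fun i => φ (ray L d i) := by
  funext i
  unfold ray
  rw [map_rayD, map_mul]
  congr 1
  have h := RingHom.map_adjugate φ (L.submatrix d.1 id)
  have h2 := congrFun (congrFun h i) d.2
  rw [RingHom.mapMatrix_apply, Matrix.map_apply] at h2
  rw [h2]
  rfl

theorem map_rayG {R R' : Type} [CommRing R] [CommRing R'] (φ : R →+* R') {J N : Type} [Fintype N]
    [DecidableEq N] (L : Matrix J N R) (d : (N → J) × N) (j : J) :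
    rayG (L.map φ) d j = φ (rayG L d j) := by
  unfold rayG
  rw [map_ray, map_sum]
  refine Finset.sum_congr rfl fun i _ => ?_
  rw [map_mul, Matrix.map_apply]

theorem map_bil {R R' : Type} [CommRing R] [CommRing R'] (φ : R →+* R') {B C : Type} [Fintype B]
    [Fintype C] (D : B → C → R) (y : B → R) (z : C → R) :
    bil (fun b c => φ (D b c)) (fun b => φ (y b)) (fun c => φ (z c)) = φ (bil D y z) := by
  unfold bil
  simp only [map_sum, map_mul]

private theorem mix_ev {B C : Type} (p : ℚ) (u : Fin 2 → B → C → ℕ) :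
    mixQ p u = fun b c => ev p (mixP u b c) := by
  funext b c
  unfold mixQ mixP
  have hX : ev p X = p := by
    unfold ev
    simp
  have hC : ∀ a : ℤ, ev p (Polynomial.C a) = (a : ℚ) := by
    intro a
    unfold ev
    simp
  rw [map_add, map_mul, map_mul, map_sub, map_one, hX, hC, hC]
  push_cast
  ring

private theorem dif_ev {B C : Type} (p : ℚ) (u : Fin 2 → B → C → ℕ) :
    (fun b c => ((dif u b c : ℤ) : ℚ)) = fun b c => ev p (Polynomial.C (dif u b c)) := by
  funext b c
  unfold ev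
  simp

private theorem BP_C (D : ℕ) (H : ℕ) (a : ℤ) (h : a.natAbs ≤ H) : BP D H (Polynomial.C a) :=
  ⟨by simp, by rw [L1_C]; exact h⟩

private theorem mix_BP {B C : Type} (u : Fin 2 → B → C → ℕ) (M : ℕ) (h : ∀ a b c, u a b c ≤ M)
    (b : B) (c : C) : BP 1 (3 * M) (mixP u b c) := by
  have h0 : BP 0 M (Polynomial.C (u 0 b c : ℤ)) := BP_C 0 M _ (by simpa using h 0 b c)
  have h1 : BP 0 M (Polynomial.C (u 1 b c : ℤ)) := BP_C 0 M _ (by simpa using h 1 b c)
  have hX : BP 1 1 (X : ℤ[X]) := ⟨natDegree_X_le, by rw [L1_X]⟩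
  have hone : BP 1 1 (1 : ℤ[X]) := by
    have := BP_C 1 1 1 (by norm_num)
    rwa [map_one] at this
  have h2 := h0.mul (hone.sub hX)
  have h3 := h1.mul hX
  have h4 := h2.add h3
  exact h4.mono (by omega) (by omega)

section bounds

variable {B C : Type} [DecidableEq B] [DecidableEq C]

private theorem LL_BP (v : B → C → ℤ[X]) (M : ℕ) (hv : ∀ b c, BP 1 (3 * M) (v b c))
    (S : Finset B) (T : Finset C) (j : B ⊕ B ⊕ (C × C)) (b : B) :
    BP 1 (K0 M) (LL v S T j b) := by
  have h0 : BP 1 (K0 M) (0 : ℤ[X]) := ⟨by simp, by rw [L1_zero]; omega⟩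
  have h1 : BP 1 (K0 M) (1 : ℤ[X]) := by
    have := BP_C 1 (K0 M) 1 (by unfold K0; norm_num)
    rwa [map_one] at this
  have h2 : BP 1 (K0 M) (-1 : ℤ[X]) := by
    have := BP_C 1 (K0 M) (-1) (by unfold K0; norm_num)
    rwa [map_neg, map_one] at this
  rcases j with b' | b' | ⟨c, c'⟩
  · simp only [LL]
    split_ifs
    · exact h1
    · exact h0
  · simp only [LL]
    split_ifs
    · exact h0
    · exact h2
    · exact h0
  · simp only [LL]
    split_ifs
    · exact ((hv b c).sub (hv b c')).mono le_rfl (by unfold K0; omega)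
    · exact h0

end bounds

section raybounds

variable {J N : Type} [Fintype N] [DecidableEq N]

private theorem rayD_BP (L : Matrix J N ℤ[X]) (K : ℕ) (hL : ∀ j i, BP 1 K (L j i))
    (d : (N → J) × N) : BP (Fintype.card N) (detB K (Fintype.card N)) (rayD L d) := by
  have := BP.det (W := L.submatrix d.1 id) (D := 1) (H := K) (fun i j => hL _ _)
  rwa [mul_one] at this

private theorem ray_BP (L : Matrix J N ℤ[X]) (K : ℕ) (hK : 1 ≤ K) (hL : ∀ j i, BP 1 K (L j i))
    (d : (N → J) × N) (i : N) :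
    BP (2 * Fintype.card N) (detB K (Fintype.card N) ^ 2) (ray L d i) := by
  have h1 := rayD_BP L K hL d
  have h2 := BP.adj hK (W := L.submatrix d.1 id) (D := 1) (fun i j => hL _ _) i d.2
  rw [mul_one] at h2
  have h3 := h1.mul h2
  unfold ray
  rw [sq, two_mul]
  exact h3

private theorem rayG_BP (L : Matrix J N ℤ[X]) (K : ℕ) (hK : 1 ≤ K) (hL : ∀ j i, BP 1 K (L j i))
    (d : (N → J) × N) (j : J) :
    BP (2 * Fintype.card N + 1) (Fintype.card N * (K * detB K (Fintype.card N) ^ 2))
      (rayG L d j) := by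
  unfold rayG
  have h1 : ∀ i ∈ (Finset.univ : Finset N), BP (2 * Fintype.card N + 1)
      (K * detB K (Fintype.card N) ^ 2) (L j i * ray L d i) := by
    intro i _
    have := (hL j i).mul (ray_BP L K hK hL d i)
    exact this.mono (by omega) le_rfl
  have h2 := BP.sum Finset.univ h1
  rwa [Finset.card_univ] at h2

end raybounds

private theorem bil_BP {B C : Type} [Fintype B] [Fintype C] (v : B → C → ℤ) (M : ℕ)
    (hv : ∀ b c, (v b c).natAbs ≤ M) (y : B → ℤ[X]) (z : C → ℤ[X]) (D1 D2 H1 H2 : ℕ)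
    (hy : ∀ b, BP D1 H1 (y b)) (hz : ∀ c, BP D2 H2 (z c)) :
    BP (D1 + D2) (Fintype.card B * (Fintype.card C * (M * H1 * H2)))
      (bil (fun b c => Polynomial.C (v b c)) y z) := by
  unfold bil
  have h1 : ∀ b ∈ (Finset.univ : Finset B), BP (D1 + D2) (Fintype.card C * (M * H1 * H2))
      (∑ c, Polynomial.C (v b c) * y b * z c) := by
    intro b _
    have h2 : ∀ c ∈ (Finset.univ : Finset C), BP (D1 + D2) (M * H1 * H2)
        (Polynomial.C (v b c) * y b * z c) := by
      intro c _
      have := ((BP_C 0 M (v b c) (hv b c)).mul (hy b)).mul (hz c)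
      exact this.mono (by omega) le_rfl
    have h3 := BP.sum Finset.univ h2
    rwa [Finset.card_univ] at h3
  have h4 := BP.sum Finset.univ h1
  rwa [Finset.card_univ] at h4

theorem transfer {B C : Type} [Fintype B] [Fintype C] [DecidableEq B] [DecidableEq C]
    (u1 u2 u3 : Fin 2 → B → C → ℕ) (M : ℕ) (h1 : ∀ a b c, u1 a b c ≤ M)
    (h2 : ∀ a b c, u2 a b c ≤ M) (h3 : ∀ a b c, u3 a b c ≤ M) (p : ℚ) (hp0 : 0 ≤ p) (hp1 : p ≤ 1)
    (h : RaySol (mixQ p u2) (mixQ p u3) (fun b c => (dif u1 b c : ℚ)) (0 < p) (p < 1)) :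
    ∃ s t : ℕ, 0 < t ∧ s ≤ t ∧ t ≤ QQ M (Fintype.card B) (Fintype.card C) ∧
      RaySol (mixQ ((s : ℚ) / t) u2) (mixQ ((s : ℚ) / t) u3) (fun b c => (dif u1 b c : ℚ))
        (0 < s) (s < t) := by
  set m := Fintype.card B with hm
  set n := Fintype.card C with hn
  have hK : 1 ≤ K0 M := by unfold K0; omega
  have hdm : 1 ≤ detB (K0 M) m := one_le_detB hK m
  have hdn : 1 ≤ detB (K0 M) n := one_le_detB hK n
  have hDD : 1 ≤ DD m n := by unfold DD; omega
  have hHH : 2 ≤ HH M m n := by unfold HH; omega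
  obtain ⟨s, t, ht, hst, htQ, hsam⟩ := sample (DD m n) (HH M m n) hDD hHH p hp0 hp1
  have htq : (0 : ℚ) < t := by exact_mod_cast ht
  refine ⟨s, t, ht, hst, htQ, ?_⟩
  -- signs
  have hX : 0 < p ↔ 0 < s := by
    have := (hsam X ⟨natDegree_X_le.trans hDD, by rw [L1_X]; omega⟩).2
    have e : ∀ q : ℚ, ev q X = q := by
      intro q
      unfold ev
      simp
    rw [e, e] at this
    rw [this, div_pos_iff_of_pos_right htq]
    exact_mod_cast Iff.rfl
  have h1X : p < 1 ↔ s < t := by
    have hb : BP (DD m n) (HH M m n) (1 - X) := by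
      have k1 : BP (DD m n) 1 (Polynomial.C (1 : ℤ)) := BP_C _ _ _ (by norm_num)
      have k2 : BP (DD m n) 1 X := ⟨natDegree_X_le.trans hDD, by rw [L1_X]⟩
      have k3 := k1.sub k2
      rw [map_one] at k3
      exact k3.mono le_rfl (by omega)
    have := (hsam _ hb).2
    have e : ∀ q : ℚ, ev q (1 - X) = 1 - q := by
      intro q
      unfold ev
      simp
    rw [e, e, sub_pos, sub_pos, div_lt_one htq] at this
    rw [this]
    exact_mod_cast Iff.rfl
  -- all polynomials are small
  have hsq : ∀ a b : ℕ, 1 ≤ b → a ^ 2 ≤ (a * b) ^ 2 := by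
    intro a b hb
    exact Nat.pow_le_pow_left (Nat.le_mul_of_pos_right a hb) 2
  have key : ∀ (N C' : Type) [Fintype N] [DecidableEq N] [DecidableEq C'] (v : N → C' → ℤ[X])
      (hv : ∀ b c, BP 1 (3 * M) (v b c)) (k k' : ℕ) (hk : Fintype.card N = k)
      (hkk : k + k' = m + n)
      (hdd : detB (K0 M) k * detB (K0 M) k' = detB (K0 M) m * detB (K0 M) n)
      (S : Finset N) (T : Finset C') (d : (N → N ⊕ N ⊕ (C' × C')) × N)
      (hd : IsRay ((LL v S T).map (ev p)) d), IsRay ((LL v S T).map (ev ((s : ℚ) / t))) d := by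
    intro N C' _ _ _ v hv k k' hk hkk hdd S T d hd
    have hL : ∀ j i, BP 1 (K0 M) (LL v S T j i) := LL_BP v M hv S T
    have hdk : 1 ≤ detB (K0 M) k := one_le_detB hK k
    have hdk' : 1 ≤ detB (K0 M) k' := one_le_detB hK k'
    have b1 : BP (DD m n) (HH M m n) (rayD (LL v S T) d) := by
      refine (rayD_BP _ _ hL d).mono ?_ ?_
      · rw [hk]; unfold DD; omega
      · rw [hk]
        unfold HH
        rw [← hdd]
        have e1 : detB (K0 M) k ≤ detB (K0 M) k ^ 2 := by nlinarith
        have e2 := hsq (detB (K0 M) k) (detB (K0 M) k') hdk'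
        have e3 : (detB (K0 M) k * detB (K0 M) k') ^ 2 ≤
            (m + n + 1) ^ 2 * K0 M * (detB (K0 M) k * detB (K0 M) k') ^ 2 := by
          apply Nat.le_mul_of_pos_left
          positivity
        omega
    have b2 : ∀ j, BP (DD m n) (HH M m n) (rayG (LL v S T) d j) := by
      intro j
      refine (rayG_BP _ _ hK hL d j).mono ?_ ?_
      · rw [hk]; unfold DD; omega
      · rw [hk]
        unfold HH
        rw [← hdd]
        have e2 := hsq (detB (K0 M) k) (detB (K0 M) k') hdk'
        have e4 : k ≤ (m + n + 1) ^ 2 := by nlinarith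
        calc k * (K0 M * detB (K0 M) k ^ 2) ≤ (m + n + 1) ^ 2 *
              (K0 M * (detB (K0 M) k * detB (K0 M) k') ^ 2) :=
              Nat.mul_le_mul e4 (Nat.mul_le_mul le_rfl e2)
          _ ≤ _ := by
              rw [← mul_assoc]
              omega
    obtain ⟨q1, q2⟩ := hd
    rw [map_rayD] at q1
    refine ⟨?_, ?_⟩
    · rw [map_rayD]
      exact fun hz => q1 ((hsam _ b1).1.2 hz)
    · intro j
      rw [map_rayG]
      have := q2 j
      rw [map_rayG] at this
      rcases this.lt_or_eq with hlt | heq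
      · exact ((hsam _ (b2 j)).2.1 hlt).le
      · exact ((hsam _ (b2 j)).1.1 heq.symm).ge
  have hbil : ∀ (S : Finset B) (T : Finset C) d e, BP (DD m n) (HH M m n)
      (bil (fun b c => Polynomial.C (dif u1 b c)) (ray (LL (mixP u3) S T) d)
        (ray (LL (tr (mixP u2)) T S) e)) := by
    intro S T d e
    have hL : ∀ j i, BP 1 (K0 M) (LL (mixP u3) S T j i) :=
      LL_BP _ M (fun b c => mix_BP u3 M h3 b c) S T
    have hL' : ∀ j i, BP 1 (K0 M) (LL (tr (mixP u2)) T S j i) :=
      LL_BP _ M (fun c b => mix_BP u2 M h2 b c) T S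
    have hdif : ∀ b c, (dif u1 b c).natAbs ≤ M := by
      intro b c
      have k1 := h1 0 b c
      have k2 := h1 1 b c
      unfold dif
      omega
    refine (bil_BP (dif u1) M hdif _ _ _ _ _ _ (ray_BP _ _ hK hL d)
      (ray_BP _ _ hK hL' e)).mono ?_ ?_
    · unfold DD
      omega
    · rw [← hm, ← hn]
      unfold HH
      have e1 : m * n ≤ (m + n + 1) ^ 2 := by nlinarith
      have e2 : M ≤ K0 M := by unfold K0; omega
      calc m * (n * (M * detB (K0 M) m ^ 2 * detB (K0 M) n ^ 2)) =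
            (m * n) * M * (detB (K0 M) m * detB (K0 M) n) ^ 2 := by ring
        _ ≤ (m + n + 1) ^ 2 * K0 M * (detB (K0 M) m * detB (K0 M) n) ^ 2 :=
            Nat.mul_le_mul (Nat.mul_le_mul e1 e2) le_rfl
        _ ≤ _ := by omega
  -- the translation
  have tY : ∀ (q : ℚ) (S : Finset B) (T : Finset C), LL (mixQ q u3) S T =
      (LL (mixP u3) S T).map (ev q) := by
    intro q S T
    rw [mix_ev q u3]
    exact map_LL (ev q) (mixP u3) S T
  have tZ : ∀ (q : ℚ) (S : Finset B) (T : Finset C), LL (tr (mixQ q u2)) T S =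
      (LL (tr (mixP u2)) T S).map (ev q) := by
    intro q S T
    rw [mix_ev q u2]
    exact map_LL (ev q) (tr (mixP u2)) T S
  have tB : ∀ (q : ℚ) (S : Finset B) (T : Finset C) d e,
      bil (fun b c => (dif u1 b c : ℚ)) (ray (LL (mixQ q u3) S T) d)
        (ray (LL (tr (mixQ q u2)) T S) e) = ev q (bil (fun b c => Polynomial.C (dif u1 b c))
          (ray (LL (mixP u3) S T) d) (ray (LL (tr (mixP u2)) T S) e)) := by
    intro q S T d e
    rw [tY, tZ, map_ray, map_ray, dif_ev q u1, map_bil]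
  obtain ⟨S, T, c0, c1⟩ := h
  refine ⟨S, T, ?_, ?_⟩
  · intro hs
    obtain ⟨d, e, r1, r2, r3⟩ := c0 (hX.2 hs)
    rw [tY] at r1
    rw [tZ] at r2
    rw [tB] at r3
    refine ⟨d, e, ?_, ?_, ?_⟩
    · rw [tY]
      exact key B C (mixP u3) (fun b c => mix_BP u3 M h3 b c) m n rfl rfl rfl S T d r1
    · rw [tZ]
      exact key C B (tr (mixP u2)) (fun c b => mix_BP u2 M h2 b c) n m rfl (add_comm _ _)
        (mul_comm _ _) T S e r2
    · rw [tB]
      rcases r3.lt_or_eq with hlt | heq
      · exact ((hsam _ (hbil S T d e)).2.1 hlt).le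
      · exact ((hsam _ (hbil S T d e)).1.1 heq.symm).ge
  · intro hs
    obtain ⟨d, e, r1, r2, r3⟩ := c1 (h1X.2 hs)
    rw [tY] at r1
    rw [tZ] at r2
    rw [tB] at r3
    refine ⟨d, e, ?_, ?_, ?_⟩
    · rw [tY]
      exact key B C (mixP u3) (fun b c => mix_BP u3 M h3 b c) m n rfl rfl rfl S T d r1
    · rw [tZ]
      exact key C B (tr (mixP u2)) (fun c b => mix_BP u2 M h2 b c) n m rfl (add_comm _ _)
        (mul_comm _ _) T S e r2
    · rw [tB]
      by_contra hc
      have := (hsam _ (hbil S T d e)).2.2 (not_le.1 hc)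
      linarith

end Pool.Agent.Work.MP_9d4f6b_lc
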