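import Pool.Agent.Work.MP_9d4f6b_lc.Poly
import Pool.Agent.Work.MP_9d4f6b_lc.Comb
import Pool.Agent.Work.MP_9d4f6b_lc.Trans

/-!
MODULE INTSOL. rays_of_sol over ℚ, map_LL etc. for the ring homomorphism Int.castRingHom ℚ (order
embedding) give RaySol over ℤ; sol_of_raySol over ℤ with Kr = (detB (2 K + 1) m * detB (2 K + 1) n)^2
(entries of LL are at most 2 K + 1 in absolute value, abs_det_le, abs_adj_le, one_le_detB) and
Kf = m * n * K * Kr^2; take Int.toNat of the nonnegative integers y b, z c.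
-/

set_option linter.unusedVariables false
set_option linter.style.longLine false

namespace Pool.Agent.Work.MP_9d4f6b_lc

open Polynomial

private theorem int_isRay {J N : Type} [Fintype N] [DecidableEq N] (L : Matrix J N ℤ)
    (d : (N → J) × N) (h : IsRay (L.map (Int.castRingHom ℚ)) d) : IsRay L d := by
  obtain ⟨h1, h2⟩ := h
  rw [map_rayD] at h1
  refine ⟨fun h => h1 (by rw [h, map_zero]), fun j => ?_⟩
  have := h2 j
  rw [map_rayG] at this
  have h3 : (0 : ℚ) ≤ ((rayG L d j : ℤ) : ℚ) := this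
  exact_mod_cast h3

private theorem int_LL_abs {B C : Type} [DecidableEq B] [DecidableEq C] (u : B → C → ℤ) (K : ℕ)
    (h : ∀ b c, |u b c| ≤ K) (S : Finset B) (T : Finset C) (j : B ⊕ B ⊕ (C × C)) (b : B) :
    |LL u S T j b| ≤ ((2 * K + 1 : ℕ) : ℤ) := by
  rcases j with b' | b' | ⟨c, c'⟩
  · simp only [LL]
    split_ifs
    · simp
    · simp
      positivity
  · simp only [LL]
    split_ifs
    · simp
      positivity
    · simp
    · simp
      positivity
  · simp only [LL]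
    split_ifs
    · have h1 := h b c
      have h2 := h b c'
      rw [abs_le] at h1 h2 ⊢
      push_cast
      constructor <;> linarith
    · simp
      positivity

private theorem int_ray_abs {J N : Type} [Fintype N] [DecidableEq N] (L : Matrix J N ℤ) (K : ℕ)
    (hK : 1 ≤ K) (h : ∀ j i, |L j i| ≤ (K : ℤ)) (d : (N → J) × N) (i : N) :
    |ray L d i| ≤ ((detB K (Fintype.card N) ^ 2 : ℕ) : ℤ) := by
  unfold ray rayD
  rw [abs_mul]
  have h1 := abs_det_le (W := L.submatrix d.1 id) (K := K) (fun i j => h _ _)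
  have h2 := abs_adj_le hK (W := L.submatrix d.1 id) (fun i j => h _ _) i d.2
  push_cast
  rw [sq]
  exact mul_le_mul h1 h2 (abs_nonneg _) (by positivity)

private theorem int_bil_abs {B C : Type} [Fintype B] [Fintype C] (D : B → C → ℤ) (K : ℕ)
    (hD : ∀ b c, |D b c| ≤ (K : ℤ)) (y : B → ℤ) (z : C → ℤ) (r : ℕ) (hy : ∀ b, |y b| ≤ (r : ℤ))
    (hz : ∀ c, |z c| ≤ (r : ℤ)) :
    |bil D y z| ≤ ((Fintype.card B * Fintype.card C * K * r ^ 2 : ℕ) : ℤ) := by
  unfold bil
  calc |∑ b, ∑ c, D b c * y b * z c| ≤ ∑ b, |∑ c, D b c * y b * z c| :=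
        Finset.abs_sum_le_sum_abs _ _
    _ ≤ ∑ b : B, ∑ c : C, ((K : ℤ) * r * r) := by
        refine Finset.sum_le_sum fun b _ => (Finset.abs_sum_le_sum_abs _ _).trans ?_
        refine Finset.sum_le_sum fun c _ => ?_
        rw [abs_mul, abs_mul]
        exact mul_le_mul (mul_le_mul (hD b c) (hy b) (abs_nonneg _) (by positivity)) (hz c)
          (abs_nonneg _) (by positivity)
    _ = ((Fintype.card B * Fintype.card C * K * r ^ 2 : ℕ) : ℤ) := by
        rw [Finset.sum_const, Finset.sum_const, Finset.card_univ, Finset.card_univ]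
        push_cast
        simp only [nsmul_eq_mul]
        ring

theorem int_of_sol {B C : Type} [Fintype B] [Fintype C] [DecidableEq B] [DecidableEq C]
    (u2 u3 D : B → C → ℤ) (K : ℕ) (h2 : ∀ b c, |u2 b c| ≤ K) (h3 : ∀ b c, |u3 b c| ≤ K)
    (hD : ∀ b c, |D b c| ≤ K) (P0 P1 : Prop) (hP : P0 ∨ P1) (y : B → ℚ) (z : C → ℚ)
    (h : Sol (fun b c => (u2 b c : ℚ)) (fun b c => (u3 b c : ℚ)) (fun b c => (D b c : ℚ)) P0 P1 y z) :
    ∃ (Y : B → ℕ) (Z : C → ℕ),
      Sol u2 u3 D P0 P1 (fun b => (Y b : ℤ)) (fun c => (Z c : ℤ)) ∧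
      (∀ b, Y b ≤ intB K (Fintype.card B) (Fintype.card C)) ∧
      ∀ c, Z c ≤ intB K (Fintype.card B) (Fintype.card C) := by
  have tY : ∀ (S : Finset B) (T : Finset C), LL (fun b c => (u3 b c : ℚ)) S T =
      (LL u3 S T).map (Int.castRingHom ℚ) := fun S T => map_LL (Int.castRingHom ℚ) u3 S T
  have tZ : ∀ (S : Finset B) (T : Finset C), LL (tr (fun b c => (u2 b c : ℚ))) T S =
      (LL (tr u2) T S).map (Int.castRingHom ℚ) := fun S T =>
        map_LL (Int.castRingHom ℚ) (tr u2) T S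
  have tB : ∀ (S : Finset B) (T : Finset C) d e, bil (fun b c => (D b c : ℚ))
      (ray (LL (fun b c => (u3 b c : ℚ)) S T) d)
      (ray (LL (tr (fun b c => (u2 b c : ℚ))) T S) e) =
      ((bil D (ray (LL u3 S T) d) (ray (LL (tr u2) T S) e) : ℤ) : ℚ) := by
    intro S T d e
    rw [tY, tZ, map_ray, map_ray]
    exact map_bil (Int.castRingHom ℚ) D _ _
  have hR : RaySol u2 u3 D P0 P1 := by
    obtain ⟨S, T, c0, c1⟩ := rays_of_sol _ _ _ _ _ _ _ h
    refine ⟨S, T, ?_, ?_⟩
    · intro p0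
      obtain ⟨d, e, r1, r2, r3⟩ := c0 p0
      rw [tB] at r3
      rw [tY] at r1
      rw [tZ] at r2
      exact ⟨d, e, int_isRay _ _ r1, int_isRay _ _ r2, by exact_mod_cast r3⟩
    · intro p1
      obtain ⟨d, e, r1, r2, r3⟩ := c1 p1
      rw [tB] at r3
      rw [tY] at r1
      rw [tZ] at r2
      exact ⟨d, e, int_isRay _ _ r1, int_isRay _ _ r2, by exact_mod_cast r3⟩
  set m := Fintype.card B with hm
  set n := Fintype.card C with hn
  have hK : 1 ≤ 2 * K + 1 := by omega
  have d1 : 1 ≤ detB (2 * K + 1) m := one_le_detB hK m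
  have d2 : 1 ≤ detB (2 * K + 1) n := one_le_detB hK n
  set r : ℕ := (detB (2 * K + 1) m * detB (2 * K + 1) n) ^ 2 with hr
  have hrm : detB (2 * K + 1) m ^ 2 ≤ r :=
    Nat.pow_le_pow_left (Nat.le_mul_of_pos_right _ d2) 2
  have hrn : detB (2 * K + 1) n ^ 2 ≤ r :=
    Nat.pow_le_pow_left (Nat.le_mul_of_pos_left _ d1) 2
  have aY : ∀ (S : Finset B) (T : Finset C) d b, |ray (LL u3 S T) d b| ≤ (r : ℤ) := by
    intro S T d b
    have := int_ray_abs (LL u3 S T) (2 * K + 1) hK (int_LL_abs u3 K h3 S T) d b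
    exact this.trans (by exact_mod_cast hrm)
  have aZ : ∀ (S : Finset B) (T : Finset C) e c, |ray (LL (tr u2) T S) e c| ≤ (r : ℤ) := by
    intro S T e c
    have := int_ray_abs (LL (tr u2) T S) (2 * K + 1) hK
      (int_LL_abs (tr u2) K (fun c b => h2 b c) T S) e c
    exact this.trans (by exact_mod_cast hrn)
  obtain ⟨y', z', hs, hy, hz⟩ := sol_of_raySol u2 u3 D P0 P1 hP hR (r : ℤ)
    ((m * n * K * r ^ 2 : ℕ) : ℤ) (fun S T d b => (le_abs_self _).trans (aY S T d b))
    (fun S T e c => (le_abs_self _).trans (aZ S T e c))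
    (fun S S' T T' d e => int_bil_abs D K hD _ _ r (aY S T d) (aZ S' T' e))
  have hyc : ∀ b, ((y' b).toNat : ℤ) = y' b := fun b => Int.toNat_of_nonneg (hs.y0 b)
  have hzc : ∀ c, ((z' c).toNat : ℤ) = z' c := fun c => Int.toNat_of_nonneg (hs.z0 c)
  have hint : ((intB K m n : ℕ) : ℤ) = 2 * (1 + 3 * ((m * n * K * r ^ 2 : ℕ) : ℤ)) * (r : ℤ) := by
    unfold intB
    rw [hr]
    push_cast
    ring
  refine ⟨fun b => (y' b).toNat, fun c => (z' c).toNat, ?_, ?_, ?_⟩
  · simp only [hyc, hzc]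
    exact hs
  · intro b
    have := hy b
    rw [← hint, ← hyc b] at this
    exact_mod_cast this
  · intro c
    have := hz c
    rw [← hint, ← hzc c] at this
    exact_mod_cast this

end Pool.Agent.Work.MP_9d4f6b_lc
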