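import Pool.Agent.Work.MP_9d4f6b_lc.Core
import Pool.Agent.Work.MP_9d4f6b_lc.Prim
import Pool.Agent.Work.MP_9d4f6b_lc.Dig

/-!
The final theorem.
-/

set_option linter.unusedVariables false
set_option linter.style.longLine false

namespace Pool.Agent.Work.MP_9d4f6b_lc

theorem srch_iff (g : Gm) : Srch g ↔ Sml g ∧
    ∃ (x : Fin g.1 → ℚ) (y : Fin g.2.1 → ℚ) (z : Fin g.2.2.1 → ℚ),
      IsNE (fun (a : Fin g.1) (b : Fin g.2.1) (c : Fin g.2.2.1) => pay g 0 a b c)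
      (fun a b c => pay g 1 a b c) (fun a b c => pay g 2 a b c) x y z := by
  constructor
  · rintro ⟨h1, N, -, h2⟩
    exact ⟨h1, ne_of_hne _ _ _ _ _ _ ((chk_iff g N).1 h2)⟩
  · rintro ⟨h1, x, y, z, h2⟩
    have h3 : Fintype.card (Fin g.1) ≤ 2 ∨ Fintype.card (Fin g.2.1) ≤ 2 ∨
        Fintype.card (Fin g.2.2.1) ≤ 2 := by
      simpa only [Fintype.card_fin, Sml] using h1
    obtain ⟨X, Y, Z, k0, k1, k2, k3⟩ := small h3 _ _ _ g.2.2.2.sum (fun a b c => pay_le g 0 a b c)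
      (fun a b c => pay_le g 1 a b c) (fun a b c => pay_le g 2 a b c) x y z h2
    simp only [Fintype.card_fin] at k1 k2 k3
    exact ⟨h1, chk_of_small g X Y Z k0 k1 k2 k3⟩

theorem main : ComputablePred (fun g : ℕ × ℕ × ℕ × List ℕ => (g.1 ≤ 2 ∨ g.2.1 ≤ 2 ∨ g.2.2.1 ≤ 2) ∧
      ∃ (x : Fin g.1 → ℚ) (y : Fin g.2.1 → ℚ) (z : Fin g.2.2.1 → ℚ),
        (∀ a, 0 ≤ x a) ∧ (∑ a, x a = 1) ∧
        (∀ b, 0 ≤ y b) ∧ (∑ b, y b = 1) ∧
        (∀ c, 0 ≤ z c) ∧ (∑ c, z c = 1) ∧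
        (∀ a₀ : Fin g.1,
          ∑ b, ∑ c, y b * z c *
              ((g.2.2.2.getD (((0 * g.1 + a₀.val) * g.2.1 + b.val) * g.2.2.1 + c.val) 0 : ℕ) : ℚ)
            ≤ ∑ a, ∑ b, ∑ c, x a * y b * z c *
              ((g.2.2.2.getD (((0 * g.1 + a.val) * g.2.1 + b.val) * g.2.2.1 + c.val) 0 : ℕ) : ℚ)) ∧
        (∀ b₀ : Fin g.2.1,
          ∑ a, ∑ c, x a * z c *
              ((g.2.2.2.getD (((1 * g.1 + a.val) * g.2.1 + b₀.val) * g.2.2.1 + c.val) 0 : ℕ) : ℚ)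
            ≤ ∑ a, ∑ b, ∑ c, x a * y b * z c *
              ((g.2.2.2.getD (((1 * g.1 + a.val) * g.2.1 + b.val) * g.2.2.1 + c.val) 0 : ℕ) : ℚ)) ∧
        (∀ c₀ : Fin g.2.2.1,
          ∑ a, ∑ b, x a * y b *
              ((g.2.2.2.getD (((2 * g.1 + a.val) * g.2.1 + b.val) * g.2.2.1 + c₀.val) 0 : ℕ) : ℚ)
            ≤ ∑ a, ∑ b, ∑ c, x a * y b * z c *
              ((g.2.2.2.getD (((2 * g.1 + a.val) * g.2.1 + b.val) * g.2.2.1 + c.val) 0 : ℕ) : ℚ))) := by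
  have h : ComputablePred Srch := by
    obtain ⟨hd, hp⟩ := prim_srch
    exact ⟨hd, hp.to_comp⟩
  refine h.of_eq fun g => ?_
  rw [srch_iff]
  refine and_congr Iff.rfl (exists_congr fun x => exists_congr fun y => exists_congr fun z => ?_)
  constructor
  · intro k
    exact ⟨k.x0, k.x1, k.y0, k.y1, k.z0, k.z1, k.n1, k.n2, k.n3⟩
  · rintro ⟨k1, k2, k3, k4, k5, k6, k7, k8, k9⟩
    exact ⟨k1, k2, k3, k4, k5, k6, k7, k8, k9⟩

end Pool.Agent.Work.MP_9d4f6b_lc
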