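import Pool.Agent.Work.MP_9d4f6b_lc.Def

/-!
MODULE RAYDEC. Every vector of a pointed polyhedral cone is a nonnegative combination of rays given
by determinants. Strong induction on the number of j with L_j v ≠ 0 (L_j v > 0). If v = 0 take w = 0.
Let J0 = {j : L_j v = 0}.
(A) Suppose some u with L_j u = 0 for j in J0 is not a multiple of v. The ratios (L_j u) / (L_j v)
(j outside J0; nonempty, as the coordinate rows are among the L_j and v ≠ 0) are not all equal: if all
were τ then L_j (u - τ v) = 0 for all j, so u = τ v because all coordinates are rows. Let τ1 < τ2 be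
their minimum and maximum. v1 = u - τ1 v and v2 = τ2 v - u are in the cone, have more tight rows
than v, and v1 + v2 = (τ2 - τ1) v: induction.
(B) Otherwise {u : L_j u = 0 for j in J0} is the line spanned by v. Choose a coordinate i with v i > 0
and a row ji equal to the coordinate i (hL). The rows L_j (j in J0) together with L_ji have zero
common kernel, so they span (N → ℚ); choose a basis among them, indexed by N: ψ : N → J with
det (L.submatrix ψ id) ≠ 0 and all ψ k in J0 or = ji, ψ injective. W = L.submatrix ψ id. Since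
W v ≠ 0 some i0 has ψ i0 outside J0, so ψ i0 = ji and ψ k in J0 for k ≠ i0. Then W v = v i • e_i0, so
det W • v = adj W (W v) = v i • (column i0 of adj W), i.e. ray L (ψ, i0) = (det W)^2 / (v i) • v: IsRay,
and v = (v i / (det W)^2) • ray L (ψ, i0).
-/

set_option linter.unusedVariables false
set_option linter.style.longLine false

namespace Pool.Agent.Work.MP_9d4f6b_lc

open Polynomial

private theorem rd_span {J N : Type} [Fintype J] [Fintype N] [DecidableEq J] [DecidableEq N]
    (L : Matrix J N ℚ) (I : Set J) (h : ∀ u : N → ℚ, (∀ j ∈ I, ∑ i, L j i * u i = 0) → u = 0) :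
    ∃ ψ : N → J, Function.Injective ψ ∧ (∀ k, ψ k ∈ I) ∧ (L.submatrix ψ id).det ≠ 0 := by
  classical
  obtain ⟨κ, a, ha, hspan, hli⟩ := exists_linearIndependent' ℚ (fun j : I => (L (j : J) : N → ℚ))
  have htop : Submodule.span ℚ (Set.range (fun j : I => (L (j : J) : N → ℚ))) = ⊤ := by
    by_contra hne
    obtain ⟨f, hf, hle⟩ := Submodule.exists_le_ker_of_lt_top _ (lt_top_iff_ne_top.2 hne)
    apply hf
    have hfx : ∀ x : N → ℚ, f x = ∑ i, x i * f (Pi.single i 1) := by
      intro x
      have hx : x = ∑ i, x i • (Pi.single i (1 : ℚ) : N → ℚ) := by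
        ext k
        rw [Finset.sum_apply, Finset.sum_eq_single k]
        · simp
        · intro i _ hik
          simp [Pi.single_eq_of_ne hik.symm]
        · intro h
          exact absurd (Finset.mem_univ _) h
      conv_lhs => rw [hx, map_sum]
      refine Finset.sum_congr rfl fun i _ => ?_
      rw [map_smul, smul_eq_mul]
    have h0 := h (fun i => f (Pi.single i 1)) (fun j hj => by
      rw [← hfx (L j)]
      have : (L j : N → ℚ) ∈ Submodule.span ℚ (Set.range (fun j : I => (L (j : J) : N → ℚ))) :=
        Submodule.subset_span ⟨⟨j, hj⟩, rfl⟩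
      exact LinearMap.mem_ker.1 (hle this))
    ext i
    simpa using congrFun h0 i
  let b : Module.Basis κ ℚ (N → ℚ) := Module.Basis.mk hli (by rw [hspan, htop])
  let e : κ ≃ N := b.indexEquiv (Pi.basisFun ℚ N)
  refine ⟨fun k => (a (e.symm k) : J), ?_, fun k => (a (e.symm k)).2, ?_⟩
  · intro k l hkl
    exact e.symm.injective (ha (Subtype.ext hkl))
  · have h1 : LinearIndependent ℚ (fun k : N => (L (a (e.symm k) : J) : N → ℚ)) :=
      hli.comp e.symm e.symm.injective
    have h2 : IsUnit (L.submatrix (fun k => (a (e.symm k) : J)) id) :=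
      Matrix.linearIndependent_rows_iff_isUnit.1 h1
    exact ((Matrix.isUnit_iff_isUnit_det _).1 h2).ne_zero

theorem ray_decomp {J N : Type} [Fintype J] [Fintype N] [DecidableEq J] [DecidableEq N]
    (L : Matrix J N ℚ) (hL : ∀ i, ∃ j, ∀ k, L j k = if k = i then 1 else 0) (v : N → ℚ)
    (hv : ∀ j, 0 ≤ ∑ i, L j i * v i) :
    ∃ w : (N → J) × N → ℚ, (∀ d, 0 ≤ w d) ∧ (∀ d, w d ≠ 0 → IsRay L d) ∧
      v = ∑ d, w d • ray L d := by
  classical
  induction hn : (Finset.univ.filter (fun j => ∑ i, L j i * v i ≠ 0)).card using Nat.strong_induction_on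
    generalizing v with
  | _ n ih =>
  by_cases hv0 : v = 0
  · exact ⟨0, fun d => le_rfl, fun d hd => absurd rfl hd, by simp [hv0]⟩
  have hco : ∀ i, ∃ j, ∀ u : N → ℚ, ∑ k, L j k * u k = u i := by
    intro i
    obtain ⟨j, hj⟩ := hL i
    refine ⟨j, fun u => ?_⟩
    simp [hj]
  have hlin : ∀ (a b : ℚ) (u u' : N → ℚ) (j : J), ∑ i, L j i * (a • u + b • u') i =
      a * ∑ i, L j i * u i + b * ∑ i, L j i * u' i := by
    intro a b u u' j
    rw [Finset.mul_sum, Finset.mul_sum, ← Finset.sum_add_distrib]
    refine Finset.sum_congr rfl fun i _ => ?_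
    simp only [Pi.add_apply, Pi.smul_apply, smul_eq_mul]
    ring
  obtain ⟨i1, hi1⟩ : ∃ i, v i ≠ 0 := by
    by_contra hcon
    push Not at hcon
    exact hv0 (funext hcon)
  by_cases hA : ∃ u : N → ℚ, (∀ j, ∑ i, L j i * v i = 0 → ∑ i, L j i * u i = 0) ∧ ∀ c : ℚ, u ≠ c • v
  · obtain ⟨u, hu, huc⟩ := hA
    set F := Finset.univ.filter (fun j => ∑ i, L j i * v i ≠ 0) with hF
    have hFne : F.Nonempty := by
      obtain ⟨j, hj⟩ := hco i1
      exact ⟨j, by rw [hF, Finset.mem_filter, hj]; exact ⟨Finset.mem_univ _, hi1⟩⟩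
    set rat : J → ℚ := fun j => (∑ i, L j i * u i) / (∑ i, L j i * v i) with hrat
    obtain ⟨j1, hj1, hmin⟩ := Finset.exists_min_image F rat hFne
    obtain ⟨j2, hj2, hmax⟩ := Finset.exists_max_image F rat hFne
    have hpos : ∀ j ∈ F, 0 < ∑ i, L j i * v i := by
      intro j hj
      exact lt_of_le_of_ne (hv j) (Ne.symm (Finset.mem_filter.1 hj).2)
    have hratm : ∀ j ∈ F, rat j * ∑ i, L j i * v i = ∑ i, L j i * u i := by
      intro j hj
      rw [hrat]
      field_simp [(hpos j hj).ne']
    have hlt : rat j1 < rat j2 := by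
      refine lt_of_le_of_ne (hmin j2 hj2) fun heq => ?_
      apply huc (rat j1)
      have hall : ∀ j, ∑ i, L j i * u i = rat j1 * ∑ i, L j i * v i := by
        intro j
        by_cases hj : j ∈ F
        · have h1 := hmin j hj
          have h2 := hmax j hj
          have h3 : rat j = rat j1 := le_antisymm (by rw [heq]; exact h2) h1
          rw [← h3]
          exact (hratm j hj).symm
        · have h1 : ∑ i, L j i * v i = 0 := by
            by_contra hne
            exact hj (Finset.mem_filter.2 ⟨Finset.mem_univ _, hne⟩)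
          rw [hu j h1, h1, mul_zero]
      funext i
      obtain ⟨j, hj⟩ := hco i
      have := hall j
      rw [hj, hj] at this
      simpa using this
    have key : ∀ (a b : ℚ) (j0 : J), j0 ∈ F → a * rat j0 + b = 0 → (∀ j ∈ F, 0 ≤ a * rat j + b) →
        ∃ w : (N → J) × N → ℚ, (∀ d, 0 ≤ w d) ∧ (∀ d, w d ≠ 0 → IsRay L d) ∧
          a • u + b • v = ∑ d, w d • ray L d := by
      intro a b j0 hj0 h0 hge
      have hval : ∀ j ∈ F, ∑ i, L j i * (a • u + b • v) i = (a * rat j + b) * ∑ i, L j i * v i := by
        intro j hj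
        rw [hlin, ← hratm j hj]
        ring
      have hval0 : ∀ j, j ∉ F → ∑ i, L j i * (a • u + b • v) i = 0 := by
        intro j hj
        have h1 : ∑ i, L j i * v i = 0 := by
          by_contra hne
          exact hj (Finset.mem_filter.2 ⟨Finset.mem_univ _, hne⟩)
        rw [hlin, hu j h1, h1]
        ring
      refine ih _ ?_ (a • u + b • v) ?_ rfl
      · rw [← hn]
        apply Finset.card_lt_card
        refine ⟨fun j hj => ?_, fun hsub => ?_⟩
        · by_contra hjF
          exact (Finset.mem_filter.1 hj).2 (hval0 j hjF)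
        · have := (Finset.mem_filter.1 (hsub hj0)).2
          apply this
          rw [hval j0 hj0, h0, zero_mul]
      · intro j
        by_cases hj : j ∈ F
        · rw [hval j hj]
          exact mul_nonneg (hge j hj) (hv j)
        · rw [hval0 j hj]
    obtain ⟨w1, hw1, hr1, he1⟩ := key 1 (-rat j1) j1 hj1 (by ring)
      (fun j hj => by have := hmin j hj; linarith)
    obtain ⟨w2, hw2, hr2, he2⟩ := key (-1) (rat j2) j2 hj2 (by ring)
      (fun j hj => by have := hmax j hj; linarith)
    have hd : 0 < rat j2 - rat j1 := by linarith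
    refine ⟨fun d => (rat j2 - rat j1)⁻¹ * (w1 d + w2 d), fun d => ?_, fun d hd' => ?_, ?_⟩
    · have := hw1 d
      have := hw2 d
      positivity
    · by_cases h1 : w1 d = 0
      · apply hr2
        intro h2
        apply hd'
        simp [h1, h2]
      · exact hr1 d h1
    · have h3 : ∑ d, ((rat j2 - rat j1)⁻¹ * (w1 d + w2 d)) • ray L d =
          (rat j2 - rat j1)⁻¹ • ((∑ d, w1 d • ray L d) + ∑ d, w2 d • ray L d) := by
        rw [← Finset.sum_add_distrib, Finset.smul_sum]
        refine Finset.sum_congr rfl fun d _ => ?_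
        rw [mul_smul, add_smul]
      rw [h3, ← he1, ← he2]
      funext i
      simp only [Pi.add_apply, Pi.smul_apply, smul_eq_mul]
      field_simp
      ring
  · push Not at hA
    have hi1' : 0 < v i1 := by
      obtain ⟨j, hj⟩ := hco i1
      have := hv j
      rw [hj] at this
      exact lt_of_le_of_ne this (Ne.symm hi1)
    obtain ⟨ji, hji⟩ := hco i1
    obtain ⟨ψ, hψi, hψI, hdet⟩ := rd_span L {j | ∑ i, L j i * v i = 0 ∨ j = ji} (by
      intro u hu
      obtain ⟨c, hc⟩ := hA u (fun j hj => hu j (Or.inl hj))
      have h1 := hu ji (Or.inr rfl)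
      rw [hji, hc] at h1
      have h2 : c = 0 := by
        rcases mul_eq_zero.1 (by simpa using h1 : c * v i1 = 0) with h2 | h2
        · exact h2
        · exact absurd h2 hi1
      rw [hc, h2, zero_smul])
    set W : Matrix N N ℚ := L.submatrix ψ id with hW
    have hWv : ∀ k, (W.mulVec v) k = ∑ i, L (ψ k) i * v i := fun k => rfl
    obtain ⟨i0, hi0⟩ : ∃ k, ψ k = ji := by
      by_contra hcon
      push Not at hcon
      have h1 : W.mulVec v = 0 := by
        funext k
        rw [hWv]
        rcases hψI k with h2 | h2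
        · exact h2
        · exact absurd h2 (hcon k)
      exact hv0 (Matrix.eq_zero_of_mulVec_eq_zero hdet h1)
    have hWs : W.mulVec v = Pi.single i0 (v i1) := by
      funext k
      rw [hWv]
      by_cases hk : k = i0
      · subst hk
        rw [hi0, hji, Pi.single_eq_same]
      · rw [Pi.single_eq_of_ne hk]
        rcases hψI k with h2 | h2
        · exact h2
        · exact absurd (hψi (h2.trans hi0.symm)) hk
    have hadj : ∀ k, W.det * v k = W.adjugate k i0 * v i1 := by
      intro k
      have h1 : W.adjugate.mulVec (W.mulVec v) = W.det • v := by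
        rw [Matrix.mulVec_mulVec, Matrix.adjugate_mul, Matrix.smul_mulVec, Matrix.one_mulVec]
      have h2 := congrFun h1 k
      rw [hWs, Matrix.mulVec_single] at h2
      exact h2.symm
    have hray : ∀ k, ray L (ψ, i0) k = W.det ^ 2 / v i1 * v k := by
      intro k
      show W.det * W.adjugate k i0 = _
      have h1 : W.adjugate k i0 = W.det * v k / v i1 := by
        rw [hadj k]
        field_simp
      rw [h1]
      ring
    have hisray : IsRay L (ψ, i0) := by
      refine ⟨hdet, fun j => ?_⟩
      have h1 : rayG L (ψ, i0) j = W.det ^ 2 / v i1 * ∑ i, L j i * v i := by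
        unfold rayG
        rw [Finset.mul_sum]
        refine Finset.sum_congr rfl fun i _ => ?_
        rw [hray]
        ring
      rw [h1]
      exact mul_nonneg (by positivity) (hv j)
    refine ⟨Pi.single (ψ, i0) (v i1 / W.det ^ 2), fun d => ?_, fun d hd => ?_, ?_⟩
    · by_cases hd : d = (ψ, i0)
      · rw [hd, Pi.single_eq_same]
        positivity
      · rw [Pi.single_eq_of_ne hd]
    · by_cases hd' : d = (ψ, i0)
      · rw [hd']
        exact hisray
      · rw [Pi.single_eq_of_ne hd'] at hd
        exact absurd rfl hd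
    · rw [Finset.sum_eq_single (ψ, i0)]
      · funext k
        rw [Pi.single_eq_same, Pi.smul_apply, hray, smul_eq_mul]
        field_simp
      · intro d _ hd
        rw [Pi.single_eq_of_ne hd, zero_smul]
      · intro h
        exact absurd (Finset.mem_univ _) h

end Pool.Agent.Work.MP_9d4f6b_lc
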