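import Pool.Agent.Work.MP_9d4f6b_lc.Sep

/-!
MODULE SAMPLE. Every rational p in [0,1] can be replaced by one with denominator at most samB D H
without changing the sign of any polynomial in BP D H.
Case 1: p is a root of some nonzero f in BP D H: the denominator of p divides the leading
coefficient of f (rational root theorem, e.g. den_dvd_of_is_root / IsFractionRing.den versions; or by
hand), so it is at most H; take s / t = p.
Case 2: otherwise. The set Z of real roots of nonzero polynomials in BP D H is finite (finitely many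
coefficient vectors), contains 0 (root of X) and 1 (root of 1 - X; D ≥ 1, H ≥ 2); p is not in Z, so
0 < p < 1. Let α be the largest element of Z below p and β the least element above p. By sep
β - α ≥ 1 / sepB D H, so with t = sepB D H + 1 the integer s = floor (α t) + 1 satisfies
α < s / t < β. A nonzero f in BP D H has no zero in (α, β), so it has the same sign at p and s / t
(intermediate value theorem on ℝ: intermediate_value_uIcc / IsPreconnected).
-/

set_option linter.unusedVariables false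
set_option linter.style.longLine false

namespace Pool.Agent.Work.MP_9d4f6b_lc

open Polynomial

private theorem ev_cast (p : ℚ) (f : ℤ[X]) : ((ev p f : ℚ) : ℝ) = aeval (p : ℝ) f := by
  have h1 : (Rat.castHom ℝ) (eval₂ (Int.castRingHom ℚ) p f) =
      eval₂ ((Rat.castHom ℝ).comp (Int.castRingHom ℚ)) ((Rat.castHom ℝ) p) f :=
    hom_eval₂ f (Int.castRingHom ℚ) (Rat.castHom ℝ) p
  have h2 : (Rat.castHom ℝ).comp (Int.castRingHom ℚ) = algebraMap ℤ ℝ := RingHom.ext_int _ _
  rw [h2] at h1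
  exact h1

private theorem BP_finite (D H : ℕ) : {f : ℤ[X] | BP D H f}.Finite := by
  have h1 : {f : ℤ[X] | BP D H f} ⊆ Set.range
      (fun c : Fin (D + 1) → Finset.Icc (-(H : ℤ)) H =>
        ∑ i : Fin (D + 1), C (c i : ℤ) * X ^ (i : ℕ)) := by
    intro f hf
    have h2 : ∀ i, f.coeff i ∈ Finset.Icc (-(H : ℤ)) H := by
      intro i
      have := (coeff_le_L1 f i).trans hf.2
      rw [Finset.mem_Icc]
      omega
    refine ⟨fun i => ⟨f.coeff i, h2 i⟩, ?_⟩
    simp only
    rw [Fin.sum_univ_eq_sum_range (fun i => C (f.coeff i) * X ^ i) (D + 1)]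
    exact (f.as_sum_range_C_mul_X_pow' (Nat.lt_succ_of_le hf.1)).symm
  exact (Set.finite_range _).subset h1

private def ZZ (D H : ℕ) : Set ℝ := {x | ∃ f : ℤ[X], f ≠ 0 ∧ BP D H f ∧ aeval x f = 0}

private theorem ZZ_finite (D H : ℕ) : (ZZ D H).Finite := by
  have h1 : ZZ D H ⊆ ⋃ f ∈ {f : ℤ[X] | BP D H f}, {x : ℝ | f ≠ 0 ∧ aeval x f = 0} := by
    rintro x ⟨f, h1, h2, h3⟩
    exact Set.mem_biUnion h2 ⟨h1, h3⟩
  refine Set.Finite.subset (Set.Finite.biUnion (BP_finite D H) fun f _ => ?_) h1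
  by_cases hf : f = 0
  · subst hf
    convert Set.finite_empty
    ext x
    simp
  · have h2 : (f.map (Int.castRingHom ℝ)) ≠ 0 :=
      (Polynomial.map_ne_zero_iff Int.cast_injective).2 hf
    refine ((f.map (Int.castRingHom ℝ)).roots.toFinset.finite_toSet).subset ?_
    rintro x ⟨-, hx⟩
    simp only [Finset.mem_coe, Multiset.mem_toFinset]
    rw [mem_roots h2, IsRoot, eval_map]
    exact hx

private theorem BP_X (D H : ℕ) (hD : 1 ≤ D) (hH : 2 ≤ H) : BP D H X :=
  ⟨natDegree_X_le.trans hD, by rw [L1_X]; omega⟩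

private theorem BP_1X (D H : ℕ) (hD : 1 ≤ D) (hH : 2 ≤ H) : BP D H (1 - X) := by
  have h1 : BP D 1 (C (1 : ℤ)) := ⟨by simp, by rw [L1_C]; rfl⟩
  have h2 : BP D 1 X := ⟨natDegree_X_le.trans hD, by rw [L1_X]⟩
  have h3 := h1.sub h2
  rw [map_one] at h3
  exact h3.mono le_rfl (by omega)

private theorem den_le (D H : ℕ) (p : ℚ) (f : ℤ[X]) (hf0 : f ≠ 0) (hf : BP D H f)
    (h : ev p f = 0) : p.den ≤ H := by
  have h1 : (p.den : ℤ) ∣ f.leadingCoeff := by
    have h2 : ∑ i ∈ Finset.range (f.natDegree + 1), (f.coeff i : ℚ) * p ^ i = 0 := by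
      have : ev p f = eval₂ (Int.castRingHom ℚ) p f := rfl
      rw [this, eval₂_eq_sum_range] at h
      exact h
    have h3 : ∑ i ∈ Finset.range (f.natDegree + 1),
        f.coeff i * (p.num ^ i * (p.den : ℤ) ^ (f.natDegree - i)) = 0 := by
      have h4 : ∀ i ∈ Finset.range (f.natDegree + 1), ((f.coeff i *
          (p.num ^ i * (p.den : ℤ) ^ (f.natDegree - i)) : ℤ) : ℚ) =
          (f.coeff i : ℚ) * p ^ i * (p.den : ℚ) ^ f.natDegree := by
        intro i hi
        rw [Finset.mem_range] at hi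
        have e1 : (p.num : ℚ) = p * p.den := (Rat.mul_den_eq_num p).symm
        have e2 : (p.den : ℚ) ^ f.natDegree = (p.den : ℚ) ^ i * (p.den : ℚ) ^ (f.natDegree - i) := by
          rw [← pow_add]
          congr 1
          omega
        push_cast
        rw [e1, e2, mul_pow]
        ring
      have h5 : ((∑ i ∈ Finset.range (f.natDegree + 1),
          f.coeff i * (p.num ^ i * (p.den : ℤ) ^ (f.natDegree - i)) : ℤ) : ℚ) = 0 := by
        rw [Int.cast_sum, Finset.sum_congr rfl h4, ← Finset.sum_mul, h2, zero_mul]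
      exact_mod_cast h5
    rw [Finset.sum_range_succ, Nat.sub_self, pow_zero, mul_one] at h3
    have h6 : (p.den : ℤ) ∣ ∑ i ∈ Finset.range f.natDegree,
        f.coeff i * (p.num ^ i * (p.den : ℤ) ^ (f.natDegree - i)) := by
      apply Finset.dvd_sum
      intro i hi
      rw [Finset.mem_range] at hi
      apply Dvd.dvd.mul_left
      apply Dvd.dvd.mul_left
      exact dvd_pow_self _ (by omega)
    have h7 : (p.den : ℤ) ∣ f.coeff f.natDegree * p.num ^ f.natDegree := by
      have := (dvd_add_right h6).1 (by rw [h3]; exact dvd_zero _)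
      exact this
    have h8 : IsCoprime (p.den : ℤ) (p.num ^ f.natDegree) := by
      apply IsCoprime.pow_right
      rw [Int.isCoprime_iff_gcd_eq_one, Int.gcd_comm]
      exact p.reduced
    exact h8.dvd_of_dvd_mul_right h7
  have h9 := Int.le_of_dvd (by
    have := leadingCoeff_ne_zero.2 hf0
    positivity) ((dvd_abs _ _).2 h1)
  have h10 := (coeff_le_L1 f f.natDegree).trans hf.2
  have h11 : |f.leadingCoeff| = ((f.coeff f.natDegree).natAbs : ℤ) := Int.abs_eq_natAbs _
  omega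

theorem sample (D H : ℕ) (hD : 1 ≤ D) (hH : 2 ≤ H) (p : ℚ) (h0 : 0 ≤ p) (h1 : p ≤ 1) :
    ∃ s t : ℕ, 0 < t ∧ s ≤ t ∧ t ≤ samB D H ∧ ∀ f : ℤ[X], BP D H f →
      (ev p f = 0 ↔ ev ((s : ℚ) / t) f = 0) ∧ (0 < ev p f ↔ 0 < ev ((s : ℚ) / t) f) := by
  by_cases hcase : ∃ f : ℤ[X], f ≠ 0 ∧ BP D H f ∧ ev p f = 0
  · obtain ⟨f, hf0, hf, hfp⟩ := hcase
    have hd := den_le D H p f hf0 hf hfp
    have hnum : (0 : ℤ) ≤ p.num := Rat.num_nonneg.2 h0
    have hle : p.num ≤ p.den := by
      have := Rat.mul_den_eq_num p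
      have h2 : (p.num : ℚ) ≤ (p.den : ℚ) := by
        rw [← this]
        exact mul_le_of_le_one_left (by positivity) h1
      exact_mod_cast h2
    have hp : ((p.num.toNat : ℕ) : ℚ) / (p.den : ℚ) = p := by
      have h2 : ((p.num.toNat : ℕ) : ℚ) = (p.num : ℚ) := by
        have : ((p.num.toNat : ℕ) : ℤ) = p.num := Int.toNat_of_nonneg hnum
        exact_mod_cast congrArg (Int.cast : ℤ → ℚ) this
      rw [h2]
      exact Rat.num_div_den p
    refine ⟨p.num.toNat, p.den, p.den_pos, by omega, ?_, ?_⟩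
    · unfold samB
      omega
    · intro g hg
      rw [hp]
      exact ⟨Iff.rfl, Iff.rfl⟩
  · have hcase' : ∀ f : ℤ[X], f ≠ 0 → BP D H f → ev p f ≠ 0 :=
      fun f h1 h2 h3 => hcase ⟨f, h1, h2, h3⟩
    have hpZ : (p : ℝ) ∉ ZZ D H := by
      rintro ⟨f, k1, k2, k3⟩
      rw [← ev_cast] at k3
      exact hcase' f k1 k2 (by exact_mod_cast k3)
    have hX0 : (X : ℤ[X]) ≠ 0 := X_ne_zero
    have h1X0 : (1 - X : ℤ[X]) ≠ 0 := by
      intro h
      have := congrArg (fun f => coeff f 0) h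
      simp at this
    have hZ0 : (0 : ℝ) ∈ ZZ D H := ⟨X, hX0, BP_X D H hD hH, by simp⟩
    have hZ1 : (1 : ℝ) ∈ ZZ D H := ⟨1 - X, h1X0, BP_1X D H hD hH, by simp⟩
    have hp0 : (0 : ℝ) < p := by
      have : (0 : ℝ) ≤ p := by exact_mod_cast h0
      exact lt_of_le_of_ne this fun h => hpZ (h ▸ hZ0)
    have hp1 : (p : ℝ) < 1 := by
      have : (p : ℝ) ≤ 1 := by exact_mod_cast h1
      exact lt_of_le_of_ne this fun h => hpZ (h ▸ hZ1)
    have hfin := ZZ_finite D H
    obtain ⟨α, ⟨hαZ, hαp⟩, hαmax⟩ := Set.exists_max_image (ZZ D H ∩ {x | x < p}) id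
      (hfin.inter_of_left _) ⟨0, hZ0, hp0⟩
    obtain ⟨β, ⟨hβZ, hβp⟩, hβmin⟩ := Set.exists_min_image (ZZ D H ∩ {x | (p : ℝ) < x}) id
      (hfin.inter_of_left _) ⟨1, hZ1, hp1⟩
    simp only [id] at hαmax hβmin
    have hαp' : α < p := hαp
    have hβp' : (p : ℝ) < β := hβp
    have hno : ∀ x ∈ ZZ D H, ¬ (α < x ∧ x < β) := by
      rintro x hx ⟨k1, k2⟩
      rcases lt_trichotomy x (p : ℝ) with h | h | h
      · exact absurd (hαmax x ⟨hx, h⟩) (not_le.2 k1)
      · exact hpZ (h ▸ hx)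
      · exact absurd (hβmin x ⟨hx, h⟩) (not_le.2 k2)
    have hα0 : 0 ≤ α := hαmax 0 ⟨hZ0, hp0⟩
    have hβ1 : β ≤ 1 := hβmin 1 ⟨hZ1, hp1⟩
    have hsep : 1 ≤ (β - α) * sepB D H := by
      obtain ⟨f, k1, k2, k3⟩ := id hαZ
      obtain ⟨g, l1, l2, l3⟩ := id hβZ
      have := sep D H f g k1 l1 k2 l2 α β k3 l3 (by linarith)
      rw [abs_sub_comm, abs_of_pos (by linarith)] at this
      exact this
    set t : ℕ := sepB D H + 1 with ht
    have htpos : (0 : ℝ) < t := by positivity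
    have htlen : 1 < (β - α) * t := by
      rw [ht]
      push_cast
      nlinarith
    set s : ℕ := (⌊α * t⌋ + 1).toNat with hs
    have hfl : 0 ≤ ⌊α * t⌋ := Int.floor_nonneg.2 (by positivity)
    have hsr : (s : ℝ) = (⌊α * t⌋ : ℝ) + 1 := by
      have : ((s : ℕ) : ℤ) = ⌊α * t⌋ + 1 := Int.toNat_of_nonneg (by omega)
      exact_mod_cast congrArg (Int.cast : ℤ → ℝ) this
    have hs1 : α * t < s := by
      rw [hsr]
      exact Int.lt_floor_add_one _
    have hs2 : (s : ℝ) < β * t := by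
      rw [hsr]
      have := Int.floor_le (α * t)
      nlinarith
    have hq1 : α < (s : ℝ) / t := by rwa [lt_div_iff₀ htpos]
    have hq2 : (s : ℝ) / t < β := by rwa [div_lt_iff₀ htpos]
    have hst : s ≤ t := by
      have : (s : ℝ) < t := by nlinarith
      exact_mod_cast this.le
    refine ⟨s, t, by omega, hst, by unfold samB; omega, ?_⟩
    intro f hf
    by_cases hf0 : f = 0
    · subst hf0
      simp
    have hqZ : ((s : ℝ) / t) ∉ ZZ D H := fun h => hno _ h ⟨hq1, hq2⟩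
    have hcq : (((s : ℚ) / t : ℚ) : ℝ) = (s : ℝ) / t := by push_cast; rfl
    have e1 : ev p f ≠ 0 := hcase' f hf0 hf
    have e2 : ev ((s : ℚ) / t) f ≠ 0 := by
      intro h
      apply hqZ
      refine ⟨f, hf0, hf, ?_⟩
      rw [← hcq, ← ev_cast, h]
      simp
    refine ⟨⟨fun h => absurd h e1, fun h => absurd h e2⟩, ?_⟩
    have hcont : Continuous fun x : ℝ => aeval x f := Polynomial.continuous_aeval f
    have hnz : ∀ x, α < x → x < β → aeval x f ≠ 0 := fun x k1 k2 k3 =>
      hno x ⟨f, hf0, hf, k3⟩ ⟨k1, k2⟩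
    have hkey : ¬ (aeval (p : ℝ) f * aeval ((s : ℝ) / t) f < 0) := by
      intro hneg
      have h0 : (0 : ℝ) ∈ Set.uIcc (aeval (p : ℝ) f) (aeval ((s : ℝ) / t) f) := by
        rw [Set.mem_uIcc]
        rcases mul_neg_iff.1 hneg with ⟨k1, k2⟩ | ⟨k1, k2⟩
        · exact Or.inr ⟨k2.le, k1.le⟩
        · exact Or.inl ⟨k1.le, k2.le⟩
      obtain ⟨x, hx, hx0⟩ := intermediate_value_uIcc hcont.continuousOn h0
      rw [Set.mem_uIcc] at hx
      refine hnz x ?_ ?_ hx0
      · rcases hx with ⟨k1, k2⟩ | ⟨k1, k2⟩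
        · linarith
        · linarith
      · rcases hx with ⟨k1, k2⟩ | ⟨k1, k2⟩
        · linarith
        · linarith
    have r1 : (0 < ev p f) ↔ 0 < aeval (p : ℝ) f := by
      rw [← ev_cast]
      exact_mod_cast Iff.rfl
    have r2 : (0 < ev ((s : ℚ) / t) f) ↔ 0 < aeval ((s : ℝ) / t) f := by
      rw [← hcq, ← ev_cast]
      exact_mod_cast Iff.rfl
    have n1 : aeval (p : ℝ) f ≠ 0 := hnz _ hαp' hβp'
    have n2 : aeval ((s : ℝ) / t) f ≠ 0 := hnz _ hq1 hq2
    rw [r1, r2]
    constructor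
    · intro h
      by_contra hc
      exact hkey (mul_neg_of_pos_of_neg h (lt_of_le_of_ne (not_lt.1 hc) n2))
    · intro h
      by_contra hc
      exact hkey (mul_neg_of_neg_of_pos (lt_of_le_of_ne (not_lt.1 hc) n1) h)

end Pool.Agent.Work.MP_9d4f6b_lc
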